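import Mathlib

namespace Pool.Agent.Helper245

/-!
Job J3 (for MP_2872f6_an): a C^1 function on C x C = R^4 vanishing on a compact set K and bounded
below by a power of the distance to K.
-/

open MeasureTheory Metric Set Topology

namespace BumpJob

/-- `s ↦ (max s 0)^2` has derivative `2 max s 0`. -/
lemma hasDerivAt_g (s : ℝ) : HasDerivAt (fun t : ℝ => (max t 0) ^ 2) (2 * max s 0) s := by
  rcases lt_trichotomy s 0 with hs | hs | hs
  · have h : (fun t : ℝ => (max t 0) ^ 2) =ᶠ[𝓝 s] fun _ => 0 := by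
      filter_upwards [Iio_mem_nhds hs] with t ht
      rw [max_eq_right (le_of_lt ht)]; norm_num
    rw [max_eq_right hs.le, mul_zero]
    exact (hasDerivAt_const s (0 : ℝ)).congr_of_eventuallyEq h
  · subst hs
    rw [max_self, mul_zero]
    rw [hasDerivAt_iff_isLittleO_nhds_zero]
    have : (fun h : ℝ => (max (0 + h) 0) ^ 2 - (max 0 0) ^ 2 - h • (0 : ℝ)) =
        fun h : ℝ => (max h 0) ^ 2 := by
      ext h; simp
    rw [this]
    have h1 : (fun h : ℝ => (max h 0) ^ 2) =O[𝓝 0] fun h : ℝ => h ^ 2 := by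
      refine Asymptotics.IsBigO.of_bound 1 (Filter.Eventually.of_forall fun h => ?_)
      rw [one_mul, Real.norm_eq_abs, Real.norm_eq_abs, abs_of_nonneg (sq_nonneg _),
        abs_of_nonneg (sq_nonneg _)]
      rcases le_total h 0 with hh | hh
      · rw [max_eq_right hh]; nlinarith [sq_nonneg h]
      · rw [max_eq_left hh]
    refine h1.trans_isLittleO ?_
    have := Asymptotics.isLittleO_pow_id (𝕜 := ℝ) (n := 2) (by norm_num)
    simpa using this
  · have h : (fun t : ℝ => (max t 0) ^ 2) =ᶠ[𝓝 s] fun t => t ^ 2 := by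
      filter_upwards [Ioi_mem_nhds hs] with t ht
      rw [max_eq_left (le_of_lt ht)]
    rw [max_eq_left hs.le]
    have h2 := (hasDerivAt_pow 2 s)
    simp only [Nat.cast_ofNat, Nat.add_one_sub_one, pow_one] at h2
    exact h2.congr_of_eventuallyEq h

abbrev H := ℂ × ℂ

/-- differentiation under the integral sign -/
lemma contDiff_integral {F : H → H → ℝ} {F' : H → H → (H →L[ℝ] ℝ)}
    (hF : Continuous (Function.uncurry F)) (hF' : Continuous (Function.uncurry F'))
    (hd : ∀ z w, HasFDerivAt (fun z => F z w) (F' z w) z) {s : Set H} (hs : IsCompact s) :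
    ContDiff ℝ 1 (fun z => ∫ w in s, F z w) := by
  rw [contDiff_one_iff_hasFDerivAt]
  refine ⟨fun z => ∫ w in s, F' z w, continuous_parametric_integral_of_continuous hF' hs, ?_⟩
  intro z
  have hcomp : IsCompact (closedBall z 1 ×ˢ s) := (isCompact_closedBall z 1).prod hs
  obtain ⟨M, hM⟩ := hcomp.bddAbove_image (f := fun p => ‖Function.uncurry F' p‖)
    hF'.norm.continuousOn
  refine hasFDerivAt_integral_of_dominated_of_fderiv_le (𝕜 := ℝ) (F' := F')
    (closedBall_mem_nhds z one_pos) ?_ ?_ ?_ (bound := fun _ => M) ?_ ?_ ?_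
  · refine Filter.Eventually.of_forall fun x => ?_
    exact (hF.comp (Continuous.prodMk_right x)).aestronglyMeasurable
  · exact (hF.comp (Continuous.prodMk_right z)).continuousOn.integrableOn_compact hs
  · exact (hF'.comp (Continuous.prodMk_right z)).aestronglyMeasurable
  · filter_upwards [ae_restrict_mem hs.measurableSet] with w hw x hx
    exact hM ⟨(x, w), ⟨hx, hw⟩, rfl⟩
  · have : IsFiniteMeasure (volume.restrict s : Measure H) :=
      ⟨by rw [Measure.restrict_apply_univ]; exact hs.measure_lt_top⟩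
    exact integrable_const M
  · exact Filter.Eventually.of_forall fun w x _ => hd x w

/-- the squared euclidean norm -/
noncomputable def N (v : H) : ℝ := ‖v.1‖ ^ 2 + ‖v.2‖ ^ 2

lemma N_contDiff : ContDiff ℝ 1 N := by
  unfold N
  exact ((contDiff_norm_sq ℂ).comp contDiff_fst).add ((contDiff_norm_sq ℂ).comp contDiff_snd)

lemma le_N (v : H) : ‖v‖ ^ 2 ≤ N v := by
  unfold N
  rw [Prod.norm_def]
  rcases le_total ‖v.1‖ ‖v.2‖ with h | h
  · rw [max_eq_right h]; nlinarith [sq_nonneg ‖v.1‖]
  · rw [max_eq_left h]; nlinarith [sq_nonneg ‖v.2‖]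

lemma N_le (v : H) : N v ≤ 2 * ‖v‖ ^ 2 := by
  unfold N
  have h1 := norm_fst_le v
  have h2 := norm_snd_le v
  have h3 := pow_le_pow_left₀ (norm_nonneg _) h1 2
  have h4 := pow_le_pow_left₀ (norm_nonneg _) h2 2
  linarith

end BumpJob

open BumpJob in
/-- For every nonempty compact `K` in `ℂ × ℂ` there is a `C^1` function `φ ≥ 0` which vanishes on
`K` and is bounded below on the unit ball by a power of the distance to `K`. -/
theorem exists_polynomial_bump (K : Set (ℂ × ℂ)) (hK : IsCompact K) (hne : K.Nonempty) :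
    ∃ φ : ℂ × ℂ → ℝ, ContDiff ℝ 1 φ ∧ (∀ z, 0 ≤ φ z) ∧ (∀ z ∈ K, φ z = 0) ∧
      ∃ p : ℕ, 0 < p ∧ ∃ c : ℝ, 0 < c ∧ ∀ z : ℂ × ℂ, ‖z‖ ≤ 1 → c * Metric.infDist z K ^ p ≤ φ z := by
  set δ : H → ℝ := fun w => infDist w K with hδ
  have hδc : Continuous δ := continuous_infDist_pt K
  have hδ0 : ∀ w, 0 ≤ δ w := fun w => infDist_nonneg
  have hδlip : ∀ z w, δ z ≤ δ w + ‖z - w‖ := fun z w => by
    rw [← dist_eq_norm]; exact infDist_le_infDist_add_dist
  set F : H → H → ℝ := fun z w => (max (δ w ^ 2 - 4 * N (z - w)) 0) ^ 2 with hF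
  set F' : H → H → (H →L[ℝ] ℝ) := fun z w =>
    (2 * max (δ w ^ 2 - 4 * N (z - w)) 0) • ((-4 : ℝ) • fderiv ℝ N (z - w)) with hF'
  have hNc : Continuous N := N_contDiff.continuous
  have hN'c : Continuous (fderiv ℝ N) := N_contDiff.continuous_fderiv one_ne_zero
  have hFc : Continuous (Function.uncurry F) := by
    have h1 : Continuous fun p : H × H => δ p.2 ^ 2 - 4 * N (p.1 - p.2) := by fun_prop
    exact (h1.max continuous_const).pow 2
  have hF'c : Continuous (Function.uncurry F') := by
    have h1 : Continuous fun p : H × H => δ p.2 ^ 2 - 4 * N (p.1 - p.2) := by fun_prop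
    have h2 : Continuous fun p : H × H => fderiv ℝ N (p.1 - p.2) := by fun_prop
    exact (continuous_const.mul (h1.max continuous_const)).smul (h2.const_smul (-4 : ℝ))
  have hd : ∀ z w, HasFDerivAt (fun z => F z w) (F' z w) z := by
    intro z w
    have h1 : HasFDerivAt N (fderiv ℝ N (z - w)) (z - w) :=
      (N_contDiff.differentiable one_ne_zero _).hasFDerivAt
    have h2 : HasFDerivAt (fun z => N (z - w)) (fderiv ℝ N (z - w)) z := by
      have h0 : HasFDerivAt (fun z : H => z - w) (ContinuousLinearMap.id ℝ H) z :=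
        (hasFDerivAt_id z).sub_const w
      have := HasFDerivAt.comp z h1 h0
      rwa [ContinuousLinearMap.comp_id] at this
    have h3 : HasFDerivAt (fun z => δ w ^ 2 - 4 * N (z - w)) ((-4 : ℝ) • fderiv ℝ N (z - w)) z := by
      have := (h2.const_mul (4 : ℝ)).const_sub (δ w ^ 2)
      have e : ((-4 : ℝ) • fderiv ℝ N (z - w)) = -((4 : ℝ) • fderiv ℝ N (z - w)) := by
        ext v <;> simp
      rw [e]
      exact this
    exact (hasDerivAt_g _).comp_hasFDerivAt z h3
  set R : ℝ := δ 0 + 3 with hR
  set s : Set H := closedBall 0 R with hs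
  have hsc : IsCompact s := isCompact_closedBall 0 R
  have hint : ∀ z, IntegrableOn (F z) s := fun z =>
    (hFc.comp (Continuous.prodMk_right z)).continuousOn.integrableOn_compact hsc
  refine ⟨fun z => ∫ w in s, F z w, contDiff_integral hFc hF'c hd hsc, ?_, ?_, ?_⟩
  · intro z
    exact integral_nonneg fun w => sq_nonneg _
  · intro z hz
    have : ∀ w, F z w = 0 := by
      intro w
      have h1 : δ w ≤ ‖w - z‖ := by
        rw [← dist_eq_norm]; exact infDist_le_dist_of_mem hz
      have h2 := le_N (z - w)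
      rw [norm_sub_rev] at h1
      have h3 := pow_le_pow_left₀ (hδ0 w) h1 2
      have h4 : δ w ^ 2 - 4 * N (z - w) ≤ 0 := by nlinarith [sq_nonneg ‖z - w‖]
      simp only [hF]
      rw [max_eq_right h4]; norm_num
    simp [this]
  · have hHaar : (volume : Measure H).IsAddHaarMeasure := by
      rw [Measure.volume_eq_prod]; infer_instance
    set v : ℝ := volume.real (ball (0 : H) 1) with hv
    have hvpos : 0 < v := by
      rw [hv, Measure.real, ENNReal.toReal_pos_iff]
      exact ⟨measure_ball_pos _ _ one_pos, measure_ball_lt_top⟩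
    refine ⟨8, by norm_num, 1 / 4 * ((1 / 10) ^ 4 * v), by positivity, ?_⟩
    intro z hz
    set d := infDist z K with hd'
    have hd0 : 0 ≤ d := infDist_nonneg
    have hdR : d ≤ δ 0 + 1 := by
      have := hδlip z 0
      rw [sub_zero] at this
      exact this.trans (by linarith)
    have hsub : ball z (d / 10) ⊆ s := by
      intro w hw
      rw [mem_ball, dist_eq_norm] at hw
      rw [hs, mem_closedBall, dist_zero_right]
      have h1 : ‖w‖ ≤ ‖w - z‖ + ‖z‖ := by
        have := norm_add_le (w - z) z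
        simpa using this
      have h0 := hδ0 0
      linarith
    have hlow : ∀ w ∈ ball z (d / 10), 1 / 4 * d ^ 4 ≤ F z w := by
      intro w hw
      rw [mem_ball, dist_eq_norm, norm_sub_rev] at hw
      have h1 : d ≤ δ w + ‖z - w‖ := hδlip z w
      have h2 : 9 / 10 * d ≤ δ w := by linarith
      have h3 := N_le (z - w)
      have h4 := pow_le_pow_left₀ (norm_nonneg _) hw.le 2
      have h5 := pow_le_pow_left₀ (by positivity) h2 2
      have h6 : d ^ 2 / 2 ≤ δ w ^ 2 - 4 * N (z - w) := by nlinarith [sq_nonneg d]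
      have h7 : d ^ 2 / 2 ≤ max (δ w ^ 2 - 4 * N (z - w)) 0 := h6.trans (le_max_left _ _)
      have h8 := pow_le_pow_left₀ (by positivity) h7 2
      calc 1 / 4 * d ^ 4 = (d ^ 2 / 2) ^ 2 := by ring
        _ ≤ _ := h8
    have hvol : volume.real (ball z (d / 10)) = (d / 10) ^ 4 * v := by
      rw [hv, Measure.real, Measure.real, Measure.addHaar_ball _ _ (by positivity),
        ENNReal.toReal_mul, ENNReal.toReal_ofReal (by positivity)]
      have hfin : Module.finrank ℝ H = 4 := by
        rw [Module.finrank_prod, Complex.finrank_real_complex]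
      rw [hfin]
    calc 1 / 4 * ((1 / 10) ^ 4 * v) * d ^ 8 = (1 / 4 * d ^ 4) * ((d / 10) ^ 4 * v) := by ring
      _ = ∫ _ in ball z (d / 10), (1 / 4 * d ^ 4) := by
          rw [setIntegral_const, hvol, smul_eq_mul]; ring
      _ ≤ ∫ w in ball z (d / 10), F z w := by
          refine setIntegral_mono_on ?_ ((hint z).mono_set hsub) measurableSet_ball hlow
          exact integrableOn_const (by exact measure_ball_lt_top.ne)
      _ ≤ ∫ w in s, F z w := by
          refine setIntegral_mono_set (hint z) ?_ ?_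
          · exact Filter.Eventually.of_forall fun w => sq_nonneg _
          · exact Filter.Eventually.of_forall hsub

end Pool.Agent.Helper245
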