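import Pool.Agent.Helper245.SubF

/-!
The linear horseshoe: angle function, base map and coding.
-/

open Filter Topology

namespace Pool.Agent.Helper245.Cod

open Pool.Agent.Helper245.Sub

/-- smooth bump, equal to one on `[-sin 1, sin 1]` -/
noncomputable def bmp : ContDiffBump (0 : ℝ) where
  rIn := Real.sin 1
  rOut := (1 + Real.sin 1) / 2
  rIn_pos := Real.sin_pos_of_pos_of_lt_pi one_pos (by linarith [Real.pi_gt_three])
  rIn_lt_rOut := by have := Real.sin_lt one_pos; linarith

/-- a smooth compactly supported function equal to `arcsin` on `[-sin 1, sin 1]` -/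
noncomputable def Af (s : ℝ) : ℝ := bmp s * Real.arcsin s

lemma sin_one_lt : Real.sin 1 < 1 := Real.sin_lt one_pos

lemma Af_zero {s : ℝ} (hs : (1 + Real.sin 1) / 2 < |s|) : Af s = 0 := by
  unfold Af
  have : bmp s = 0 := by
    apply bmp.zero_of_le_dist
    rw [Real.dist_eq, sub_zero]
    exact hs.le
  rw [this, zero_mul]

lemma contDiff_Af : ContDiff ℝ 1 Af := by
  rw [contDiff_iff_contDiffAt]
  intro s
  have h1 := sin_one_lt
  by_cases hs : |s| < 1
  · have h2 := abs_lt.1 hs
    exact (bmp.contDiff.contDiffAt).mul (Real.contDiffAt_arcsin h2.1.ne' h2.2.ne)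
  · push Not at hs
    have h2 : Af =ᶠ[𝓝 s] fun _ => (0 : ℝ) := by
      have h3 : ∀ᶠ t in 𝓝 s, (1 + Real.sin 1) / 2 < |t| :=
        continuous_abs.continuousAt.eventually_const_lt (by linarith)
      filter_upwards [h3] with t ht using Af_zero ht
    exact contDiffAt_const.congr_of_eventuallyEq h2

lemma lip_Af : ∃ C, LipschitzWith C Af := by
  have h1 : HasCompactSupport Af := by
    unfold Af
    exact bmp.hasCompactSupport.mul_right
  exact ContDiff.lipschitzWith_of_hasCompactSupport h1 contDiff_Af one_ne_zero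

lemma Af_sin {t : ℝ} (ht : |t| ≤ 1) : Af (Real.sin t) = t := by
  have h1 := abs_le.1 ht
  have hpi := Real.pi_gt_three
  have h2 : Real.arcsin (Real.sin t) = t := Real.arcsin_sin (by linarith) (by linarith)
  have h3 : bmp (Real.sin t) = 1 := by
    apply bmp.one_of_mem_closedBall
    rw [Metric.mem_closedBall, Real.dist_eq, sub_zero, abs_le]
    constructor
    · show - Real.sin 1 ≤ _
      rw [← Real.sin_neg]
      exact Real.sin_le_sin_of_le_of_le_pi_div_two (by linarith) (by linarith) h1.1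
    · show _ ≤ Real.sin 1
      exact Real.sin_le_sin_of_le_of_le_pi_div_two (by linarith) (by linarith) h1.2
  unfold Af
  rw [h3, h2, one_mul]

/-- the smooth angle function on the circle -/
noncomputable def theta (z : Circle) : ℝ := Af (z : ℂ).im

lemma theta_exp {t : ℝ} (ht : |t| ≤ 1) : theta (Circle.exp t) = t := by
  unfold theta
  rw [Circle.coe_exp, Complex.exp_ofReal_mul_I_im]
  exact Af_sin ht

/-- the multiplier -/
noncomputable def lam : ℝ := 63 / 8

/-- the two shears -/
noncomputable def shA (s : ℝ) (z : Circle × Circle) : Circle × Circle :=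
  (z.1 * Circle.exp (s * theta z.2), z.2)

noncomputable def shB (s : ℝ) (z : Circle × Circle) : Circle × Circle :=
  (z.1, z.2 * Circle.exp (s * theta z.1))

/-- the base map -/
noncomputable def gg (z : Circle × Circle) : Circle × Circle := shB lam (shA lam z)

/-- the constant in front of the Green function -/
noncomputable def GG : ℝ := 16 * Real.pi / 65

/-- the forcing -/
noncomputable def aa (x : ℤ → Bool) (m : ℤ) : ℝ :=
  if Even m then (if x (m / 2) = true then 1 else -1) else 0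

lemma abs_aa (x : ℤ → Bool) (m : ℤ) : |aa x m| ≤ 1 := by
  unfold aa
  split_ifs <;> simp

lemma aa_odd (x : ℤ → Bool) {m : ℤ} (hm : ¬ Even m) : aa x m = 0 := by
  unfold aa; rw [if_neg hm]

lemma aa_zero (x : ℤ → Bool) : aa x 0 = if x 0 = true then 1 else -1 := by
  unfold aa; simp

lemma aa_even (x : ℤ → Bool) (n : ℤ) : aa x (2 * n) = if x n = true then 1 else -1 := by
  unfold aa
  rw [if_pos (even_two_mul n)]
  congr 2
  rw [Int.mul_ediv_cancel_left _ two_ne_zero]

lemma aa_shift (x : ℤ → Bool) (m : ℤ) : aa (sh 1 x) m = aa x (m + 2) := by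
  unfold aa sh
  have h1 : Even (m + 2) ↔ Even m := by
    rw [Int.even_add]; simp
  have h2 : (m + 2) / 2 = m / 2 + 1 := by omega
  simp only [h1, h2]

/-- the past sum -/
noncomputable def Past (x : ℤ → Bool) (m : ℤ) : ℝ := ∑' k : ℕ, (-1 / 8 : ℝ) ^ k * aa x (m - k)
/-- the future sum -/
noncomputable def Fut (x : ℤ → Bool) (m : ℤ) : ℝ := ∑' k : ℕ, (1 / 8 : ℝ) ^ (k + 1) * aa x (m + 1 + k)

/-- the angles -/
noncomputable def UU (x : ℤ → Bool) (m : ℤ) : ℝ := GG * (Past x m + Fut x m)

lemma bound_P (x : ℤ → Bool) (m : ℤ) (k : ℕ) : ‖(-1 / 8 : ℝ) ^ k * aa x (m - k)‖ ≤ (1 / 8) ^ k := by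
  rw [norm_mul, norm_pow, Real.norm_eq_abs, Real.norm_eq_abs]
  have h1 : |(-1 / 8 : ℝ)| = 1 / 8 := by rw [abs_of_neg (by norm_num)]; norm_num
  rw [h1]
  exact mul_le_of_le_one_right (by positivity) (abs_aa _ _)

lemma bound_Q (x : ℤ → Bool) (m : ℤ) (k : ℕ) :
    ‖(1 / 8 : ℝ) ^ (k + 1) * aa x (m + 1 + k)‖ ≤ (1 / 8) ^ (k + 1) := by
  rw [norm_mul, norm_pow, Real.norm_eq_abs, Real.norm_eq_abs]
  have h1 : |(1 / 8 : ℝ)| = 1 / 8 := abs_of_pos (by norm_num)
  rw [h1]
  exact mul_le_of_le_one_right (by positivity) (abs_aa _ _)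

lemma summable_g : Summable (fun k : ℕ => (1 / 8 : ℝ) ^ k) :=
  summable_geometric_of_lt_one (by norm_num) (by norm_num)

lemma summable_g1 : Summable (fun k : ℕ => (1 / 8 : ℝ) ^ (k + 1)) :=
  (summable_nat_add_iff 1).2 summable_g

lemma summable_P (x : ℤ → Bool) (m : ℤ) : Summable (fun k : ℕ => (-1 / 8 : ℝ) ^ k * aa x (m - k)) :=
  Summable.of_norm_bounded summable_g (bound_P x m)

lemma summable_Q (x : ℤ → Bool) (m : ℤ) :
    Summable (fun k : ℕ => (1 / 8 : ℝ) ^ (k + 1) * aa x (m + 1 + k)) :=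
  Summable.of_norm_bounded summable_g1 (bound_Q x m)

lemma Past_succ (x : ℤ → Bool) (m : ℤ) : Past x (m + 1) = aa x (m + 1) - 1 / 8 * Past x m := by
  unfold Past
  rw [(summable_P x (m + 1)).tsum_eq_zero_add]
  have h1 : ∀ k : ℕ, (-1 / 8 : ℝ) ^ (k + 1) * aa x (m + 1 - ((k + 1 : ℕ) : ℤ)) =
      (-1 / 8) * ((-1 / 8) ^ k * aa x (m - k)) := by
    intro k
    rw [pow_succ]
    have : m + 1 - ((k + 1 : ℕ) : ℤ) = m - k := by push_cast; ring
    rw [this]; ring
  simp_rw [h1]
  rw [tsum_mul_left]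
  simp
  ring

lemma Fut_eq (x : ℤ → Bool) (m : ℤ) : Fut x m = 1 / 8 * (aa x (m + 1) + Fut x (m + 1)) := by
  unfold Fut
  rw [(summable_Q x m).tsum_eq_zero_add]
  have h1 : ∀ k : ℕ, (1 / 8 : ℝ) ^ (k + 1 + 1) * aa x (m + 1 + ((k + 1 : ℕ) : ℤ)) =
      (1 / 8) * ((1 / 8) ^ (k + 1) * aa x (m + 1 + 1 + k)) := by
    intro k
    rw [pow_succ]
    have : m + 1 + ((k + 1 : ℕ) : ℤ) = m + 1 + 1 + k := by push_cast; ring
    rw [this]; ring
  simp_rw [h1]
  rw [tsum_mul_left]
  simp
  ring

lemma UU_rec (x : ℤ → Bool) (m : ℤ) :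
    UU x (m + 1) = UU x (m - 1) + lam * UU x m - 2 * Real.pi * aa x m := by
  have h1 := Past_succ x m
  have h2 := Past_succ x (m - 1)
  have h3 := Fut_eq x m
  have h4 := Fut_eq x (m - 1)
  rw [sub_add_cancel] at h2 h4
  unfold UU lam GG
  have h5 : Fut x (m + 1) = 8 * Fut x m - aa x (m + 1) := by linarith
  have h6 : Past x (m - 1) = 8 * aa x m - 8 * Past x m := by linarith
  rw [h5, h1, h6, h4]
  ring

lemma abs_P (x : ℤ → Bool) (m : ℤ) : |Past x m| ≤ 8 / 7 := by
  have h1 := tsum_of_norm_bounded (summable_g.hasSum) (bound_P x m)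
  rw [tsum_geometric_of_lt_one (by norm_num) (by norm_num)] at h1
  rw [← Real.norm_eq_abs]
  refine h1.trans (by norm_num)

lemma abs_Q (x : ℤ → Bool) (m : ℤ) : |Fut x m| ≤ 1 / 7 := by
  have h1 := tsum_of_norm_bounded (summable_g1.hasSum) (bound_Q x m)
  have h2 : ∑' k : ℕ, (1 / 8 : ℝ) ^ (k + 1) = 1 / 7 := by
    simp_rw [pow_succ]
    rw [tsum_mul_right, tsum_geometric_of_lt_one (by norm_num) (by norm_num)]
    norm_num
  rw [h2] at h1
  rw [← Real.norm_eq_abs]
  exact h1

lemma GG_pos : 0 < GG := by unfold GG; positivity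

lemma GG_le : GG * (9 / 7) ≤ 1 := by
  unfold GG
  have := Real.pi_lt_d4
  norm_num at this ⊢
  linarith

lemma GG_ge : 1 / 2 ≤ GG * (5 / 7) := by
  unfold GG
  have := Real.pi_gt_d2
  norm_num at this ⊢
  linarith

lemma abs_UU (x : ℤ → Bool) (m : ℤ) : |UU x m| ≤ 1 := by
  unfold UU
  rw [abs_mul, abs_of_pos GG_pos]
  have h1 : |Past x m + Fut x m| ≤ 9 / 7 := by
    refine (abs_add_le _ _).trans ?_
    linarith [abs_P x m, abs_Q x m]
  have h2 := GG_pos
  nlinarith [GG_le]

lemma Past_near (x : ℤ → Bool) (m : ℤ) : |Past x m - aa x m| ≤ 1 / 7 := by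
  have h1 := Past_succ x (m - 1)
  rw [sub_add_cancel] at h1
  rw [h1]
  have h2 := abs_P x (m - 1)
  have : aa x m - 1 / 8 * Past x (m - 1) - aa x m = -(1 / 8 * Past x (m - 1)) := by ring
  rw [this, abs_neg, abs_mul, abs_of_pos (by norm_num : (0:ℝ) < 1 / 8)]
  linarith

lemma UU_near (x : ℤ → Bool) (m : ℤ) : |UU x m - GG * aa x m| ≤ GG * (2 / 7) := by
  unfold UU
  have : GG * (Past x m + Fut x m) - GG * aa x m = GG * ((Past x m - aa x m) + Fut x m) := by ring
  rw [this, abs_mul, abs_of_pos GG_pos]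
  refine mul_le_mul_of_nonneg_left ?_ GG_pos.le
  refine (abs_add_le _ _).trans ?_
  linarith [Past_near x m, abs_Q x m]

lemma UU_pos {x : ℤ → Bool} (hx : x 0 = true) : 1 / 2 ≤ UU x 0 := by
  have h1 := abs_le.1 (UU_near x 0)
  rw [aa_zero, if_pos hx] at h1
  linarith [GG_ge, h1.1]

lemma UU_neg {x : ℤ → Bool} (hx : x 0 = false) : UU x 0 ≤ -(1 / 2) := by
  have h1 := abs_le.1 (UU_near x 0)
  rw [aa_zero, if_neg (by simp [hx])] at h1
  linarith [GG_ge, h1.2]

lemma UU_shift (x : ℤ → Bool) (m : ℤ) : UU (sh 1 x) m = UU x (m + 2) := by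
  unfold UU Past Fut
  have h1 : ∀ k : ℕ, aa (sh 1 x) (m - k) = aa x (m + 2 - k) := by
    intro k; rw [aa_shift]; congr 1; ring
  have h2 : ∀ k : ℕ, aa (sh 1 x) (m + 1 + k) = aa x (m + 2 + 1 + k) := by
    intro k; rw [aa_shift]; congr 1; ring
  simp_rw [h1, h2]

lemma continuous_aa (m : ℤ) : Continuous (fun x : ℤ → Bool => aa x m) := by
  unfold aa
  by_cases hm : Even m
  · simp only [hm, if_true]
    have h1 : Continuous (fun b : Bool => if b = true then (1 : ℝ) else -1) :=
      continuous_of_discreteTopology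
    exact h1.comp (continuous_apply (m / 2))
  · simp only [hm, if_false]
    exact continuous_const

lemma continuous_UU (m : ℤ) : Continuous (fun x : ℤ → Bool => UU x m) := by
  unfold UU Past Fut
  refine continuous_const.mul (Continuous.add ?_ ?_)
  · exact continuous_tsum (fun k => continuous_const.mul (continuous_aa _)) summable_g
      (fun k x => bound_P x m k)
  · exact continuous_tsum (fun k => continuous_const.mul (continuous_aa _)) summable_g1
      (fun k x => bound_Q x m k)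

/-- the coding map -/
noncomputable def cod (x : ℤ → Bool) : Circle × Circle :=
  (Circle.exp (UU x 0), Circle.exp (UU x 1))

lemma continuous_cod : Continuous cod :=
  (Circle.exp.continuous.comp (continuous_UU 0)).prodMk
    (Circle.exp.continuous.comp (continuous_UU 1))

lemma exp_sub_pm (t : ℝ) (x : ℤ → Bool) (m : ℤ) :
    Circle.exp (t - 2 * Real.pi * aa x m) = Circle.exp t := by
  unfold aa
  have h2 : Circle.exp (2 * Real.pi) = 1 := Circle.exp_two_pi
  split_ifs
  · rw [mul_one, Circle.exp_sub, h2, div_one]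
  · rw [mul_neg, mul_one, sub_neg_eq_add, Circle.exp_add, h2, mul_one]
  · rw [mul_zero, sub_zero]

lemma gg_cod (x : ℤ → Bool) : gg (cod x) = cod (sh 1 x) := by
  have e1 : Circle.exp (UU x 0) * Circle.exp (lam * theta (Circle.exp (UU x 1))) =
      Circle.exp (UU x 2) := by
    rw [theta_exp (abs_UU x 1), ← Circle.exp_add]
    have h := UU_rec x 1
    norm_num at h
    rw [h, exp_sub_pm]
  have e2 : Circle.exp (UU x 1) * Circle.exp (lam * theta (Circle.exp (UU x 2))) =
      Circle.exp (UU x 3) := by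
    rw [theta_exp (abs_UU x 2), ← Circle.exp_add]
    have h := UU_rec x 2
    norm_num at h
    rw [h, exp_sub_pm]
  unfold gg shB shA cod
  simp only
  rw [e1, e2, UU_shift, UU_shift]
  norm_num

lemma dist_exp_le (s t : ℝ) : dist (Circle.exp s) (Circle.exp t) ≤ |s - t| := by
  have h1 : dist (Circle.exp s) (Circle.exp t) = ‖((Circle.exp s : Circle) : ℂ) - (Circle.exp t : Circle)‖ := by
    rw [← dist_eq_norm]; rfl
  rw [h1, Circle.coe_exp, Circle.coe_exp]
  have h2 : Complex.exp (s * Complex.I) - Complex.exp (t * Complex.I) =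
      Complex.exp (t * Complex.I) * (Complex.exp (Complex.I * ((s - t : ℝ) : ℂ)) - 1) := by
    rw [mul_sub, ← Complex.exp_add, mul_one]
    congr 2
    push_cast
    ring
  rw [h2, norm_mul, Complex.norm_exp_ofReal_mul_I, one_mul]
  exact Real.norm_exp_I_mul_ofReal_sub_one_le

lemma dist_coe (z w : Circle) : dist z w = ‖(z : ℂ) - w‖ := by
  rw [← dist_eq_norm]; rfl

lemma dist_mul_le (z w z' w' : Circle) : dist (z * w) (z' * w') ≤ dist z z' + dist w w' := by
  rw [dist_coe, dist_coe, dist_coe, Circle.coe_mul, Circle.coe_mul]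
  have : (z : ℂ) * w - z' * w' = (z - z') * w + z' * (w - w') := by ring
  rw [this]
  refine (norm_add_le _ _).trans ?_
  rw [norm_mul, norm_mul, Circle.norm_coe, Circle.norm_coe, mul_one, one_mul]

lemma lip_theta : ∃ C : ℝ, 0 ≤ C ∧ ∀ z w : Circle, |theta z - theta w| ≤ C * dist z w := by
  obtain ⟨C, hC⟩ := lip_Af
  refine ⟨C, C.2, fun z w => ?_⟩
  have h1 := hC.dist_le_mul (z : ℂ).im (w : ℂ).im
  rw [Real.dist_eq, Real.dist_eq] at h1
  refine h1.trans ?_
  refine mul_le_mul_of_nonneg_left ?_ C.2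
  rw [dist_coe, ← Complex.sub_im]
  exact Complex.abs_im_le_norm _

lemma lip_gg : ∃ Λ : ℝ, 1 ≤ Λ ∧ ∀ z w : Circle × Circle, dist (gg z) (gg w) ≤ Λ * dist z w := by
  obtain ⟨C, hC0, hC⟩ := lip_theta
  have hlam : 0 < lam := by unfold lam; norm_num
  set D : ℝ := 1 + lam * C with hD
  have hD1 : 1 ≤ D := by
    rw [hD]; nlinarith [mul_nonneg hlam.le hC0]
  have key : ∀ z z' w w' : Circle, dist (z * Circle.exp (lam * theta w)) (z' * Circle.exp (lam * theta w'))
      ≤ dist z z' + lam * C * dist w w' := by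
    intro z z' w w'
    refine (dist_mul_le _ _ _ _).trans ?_
    have h1 := dist_exp_le (lam * theta w) (lam * theta w')
    rw [← mul_sub, abs_mul, abs_of_pos hlam] at h1
    have h2 := hC w w'
    nlinarith
  have hA : ∀ z w : Circle × Circle, dist (shA lam z) (shA lam w) ≤ D * dist z w := by
    intro z w
    rw [Prod.dist_eq, Prod.dist_eq]
    unfold shA
    simp only
    have h1 := key z.1 w.1 z.2 w.2
    have h3 := le_max_left (dist z.1 w.1) (dist z.2 w.2)
    have h4 := le_max_right (dist z.1 w.1) (dist z.2 w.2)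
    have h5 : 0 ≤ lam * C := mul_nonneg hlam.le hC0
    refine max_le ?_ ?_
    · rw [hD]; nlinarith
    · have h6 : 0 ≤ max (dist z.1 w.1) (dist z.2 w.2) := le_max_of_le_left dist_nonneg
      nlinarith
  have hB : ∀ z w : Circle × Circle, dist (shB lam z) (shB lam w) ≤ D * dist z w := by
    intro z w
    rw [Prod.dist_eq, Prod.dist_eq]
    unfold shB
    simp only
    have h1 := key z.2 w.2 z.1 w.1
    have h3 := le_max_left (dist z.1 w.1) (dist z.2 w.2)
    have h4 := le_max_right (dist z.1 w.1) (dist z.2 w.2)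
    have h5 : 0 ≤ lam * C := mul_nonneg hlam.le hC0
    refine max_le ?_ ?_
    · have h6 : 0 ≤ max (dist z.1 w.1) (dist z.2 w.2) := le_max_of_le_left dist_nonneg
      nlinarith
    · rw [hD]; nlinarith
  refine ⟨D * D, by nlinarith, fun z w => ?_⟩
  unfold gg
  calc dist (shB lam (shA lam z)) (shB lam (shA lam w)) ≤ D * dist (shA lam z) (shA lam w) := hB _ _
    _ ≤ D * (D * dist z w) := by have := hA z w; gcongr
    _ = D * D * dist z w := by ring

/-- points of the horseshoe with different signs at time `0` are far apart -/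
lemma dist_cod {x y : ℤ → Bool} (h : x 0 ≠ y 0) : 1 / 2 ≤ dist (cod x) (cod y) := by
  have key : ∀ x y : ℤ → Bool, x 0 = true → y 0 = false → 1 / 2 ≤ dist (cod x) (cod y) := by
    intro x y hx hy
    have h1 := UU_pos hx
    have h2 := UU_neg hy
    have h3 := abs_le.1 (abs_UU x 0)
    have h4 := abs_le.1 (abs_UU y 0)
    have hpi := Real.pi_gt_three
    have h5 : 0 ≤ Real.sin (UU x 0) := Real.sin_nonneg_of_nonneg_of_le_pi (by linarith) (by linarith)
    have h6 : 1 / 4 ≤ Real.sin (UU x 0) := by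
      have h7 := Real.mul_le_sin (x := UU x 0) (by linarith) (by linarith)
      refine le_trans ?_ h7
      have h8 : Real.pi ≤ 4 := Real.pi_le_four
      rw [div_mul_eq_mul_div, le_div_iff₀ Real.pi_pos]
      nlinarith
    have h7 : Real.sin (UU y 0) ≤ -(1 / 4) := by
      have h7 := Real.mul_le_sin (x := -UU y 0) (by linarith) (by linarith)
      rw [Real.sin_neg] at h7
      have h8 : Real.pi ≤ 4 := Real.pi_le_four
      have h9 : 1 / 4 ≤ 2 / Real.pi * -UU y 0 := by
        rw [div_mul_eq_mul_div, le_div_iff₀ Real.pi_pos]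
        nlinarith
      linarith
    have h8 : |Real.sin (UU x 0) - Real.sin (UU y 0)| ≤ dist (cod x) (cod y) := by
      refine le_trans ?_ (le_max_left _ _)
      show _ ≤ dist (Circle.exp (UU x 0)) (Circle.exp (UU y 0))
      rw [dist_coe, Circle.coe_exp, Circle.coe_exp]
      refine le_trans (le_of_eq ?_) (Complex.abs_im_le_norm _)
      rw [Complex.sub_im, Complex.exp_ofReal_mul_I_im, Complex.exp_ofReal_mul_I_im]
    rw [abs_of_nonneg (by linarith)] at h8
    linarith
  rcases hx : x 0 with _ | _ <;> rcases hy : y 0 with _ | _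
  · exact absurd (hx.trans hy.symm) h
  · rw [dist_comm]; exact key y x hy hx
  · exact key x y hx hy
  · exact absurd (hx.trans hy.symm) h

end Pool.Agent.Helper245.Cod
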