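import Pool.Agent.Helper245.Geo

/-!
The diffeomorphism of the three-torus.
-/

open Filter Topology Manifold
open scoped ContDiff

namespace Pool.Agent.Helper245.Dif

open Pool.Agent.Helper245.Cod Pool.Agent.Helper245.Geo

noncomputable section

attribute [local instance] finrank_real_complex_fact'

/-- The two-torus. -/
abbrev T2 : Type := Circle × Circle
/-- The three-torus. -/
abbrev T3 : Type := (Circle × Circle) × Circle

/-- The model with corners of the three-torus. -/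
abbrev I3 : ModelWithCorners ℝ
    ((EuclideanSpace ℝ (Fin 1) × EuclideanSpace ℝ (Fin 1)) × EuclideanSpace ℝ (Fin 1))
    (ModelProd (ModelProd (EuclideanSpace ℝ (Fin 1)) (EuclideanSpace ℝ (Fin 1)))
      (EuclideanSpace ℝ (Fin 1))) := ((𝓡 1).prod (𝓡 1)).prod (𝓡 1)

abbrev I2 : ModelWithCorners ℝ (EuclideanSpace ℝ (Fin 1) × EuclideanSpace ℝ (Fin 1))
    (ModelProd (EuclideanSpace ℝ (Fin 1)) (EuclideanSpace ℝ (Fin 1))) := (𝓡 1).prod (𝓡 1)

lemma c1 : ContMDiff I3 (𝓡 1) 1 (fun p : T3 => p.1.1) := contMDiff_fst.comp contMDiff_fst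
lemma c2 : ContMDiff I3 (𝓡 1) 1 (fun p : T3 => p.1.2) := contMDiff_snd.comp contMDiff_fst
lemma c3 : ContMDiff I3 (𝓡 1) 1 (fun p : T3 => p.2) := contMDiff_snd
lemma c12 : ContMDiff I3 I2 1 (fun p : T3 => p.1) := contMDiff_fst

lemma contMDiff_shear {s : T3 → ℝ} {z w : T3 → Circle} (hs : ContMDiff I3 𝓘(ℝ, ℝ) 1 s)
    (hz : ContMDiff I3 (𝓡 1) 1 z) (hw : ContMDiff I3 (𝓡 1) 1 w) :
    ContMDiff I3 (𝓡 1) 1 (fun p => z p * Circle.exp (s p * theta (w p))) := by
  have h1 : ContMDiff I3 𝓘(ℝ, ℝ) 1 (fun p => s p * theta (w p)) :=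
    hs.mul (contMDiff_theta.comp hw)
  have h2 : ContMDiff I3 (𝓡 1) 1 (fun p => Circle.exp (s p * theta (w p))) :=
    contMDiff_circleExp.comp h1
  exact hz.mul h2

lemma contMDiff_s (l : ℝ) : ContMDiff I3 𝓘(ℝ, ℝ) 1 (fun p : T3 => l * sig p.2) :=
  contMDiff_const.mul (contMDiff_sig.comp c3)

lemma shA_shA (s : ℝ) (z : T2) : shA (-s) (shA s z) = z := by
  unfold shA
  apply Prod.ext
  · simp only
    rw [mul_assoc, ← Circle.exp_add]
    have : s * theta z.2 + -s * theta z.2 = 0 := by ring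
    rw [this, Circle.exp_zero, mul_one]
  · rfl

lemma shB_shB (s : ℝ) (z : T2) : shB (-s) (shB s z) = z := by
  unfold shB
  apply Prod.ext
  · rfl
  · simp only
    rw [mul_assoc, ← Circle.exp_add]
    have : s * theta z.1 + -s * theta z.1 = 0 := by ring
    rw [this, Circle.exp_zero, mul_one]

lemma shA_zero (z : T2) : shA 0 z = z := by
  unfold shA; simp

lemma shB_zero (z : T2) : shB 0 z = z := by
  unfold shB; simp

/-- First factor. -/
def dA : Diffeomorph I3 I3 T3 T3 1 where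
  toFun p := (shA (lam * sig p.2) p.1, p.2)
  invFun p := (shA (-(lam * sig p.2)) p.1, p.2)
  left_inv p := by
    apply Prod.ext
    · exact shA_shA _ _
    · rfl
  right_inv p := by
    apply Prod.ext
    · have := shA_shA (-(lam * sig p.2)) p.1
      rw [neg_neg] at this
      exact this
    · rfl
  contMDiff_toFun := ((contMDiff_shear (contMDiff_s lam) c1 c2).prodMk c2).prodMk c3
  contMDiff_invFun := by
    have h : ContMDiff I3 𝓘(ℝ, ℝ) 1 (fun p : T3 => -(lam * sig p.2)) := (contMDiff_s lam).neg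
    exact ((contMDiff_shear h c1 c2).prodMk c2).prodMk c3

/-- Second factor. -/
def dB : Diffeomorph I3 I3 T3 T3 1 where
  toFun p := (shB (lam * sig p.2) p.1, p.2)
  invFun p := (shB (-(lam * sig p.2)) p.1, p.2)
  left_inv p := by
    apply Prod.ext
    · exact shB_shB _ _
    · rfl
  right_inv p := by
    apply Prod.ext
    · have := shB_shB (-(lam * sig p.2)) p.1
      rw [neg_neg] at this
      exact this
    · rfl
  contMDiff_toFun := (c1.prodMk (contMDiff_shear (contMDiff_s lam) c2 c1)).prodMk c3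
  contMDiff_invFun := by
    have h : ContMDiff I3 𝓘(ℝ, ℝ) 1 (fun p : T3 => -(lam * sig p.2)) := (contMDiff_s lam).neg
    exact (c1.prodMk (contMDiff_shear h c2 c1)).prodMk c3

lemma tau_inft : tau inft = 0 := by unfold tau; simp

/-- Third factor: the drift on the line. -/
def dQ (q r : ℝ → ℝ) (hq : ContMDiff (𝓡 1) 𝓘(ℝ, ℝ) 1 (fun x : Circle => q (tau x)))
    (hr : ContMDiff (𝓡 1) 𝓘(ℝ, ℝ) 1 (fun x : Circle => r (tau x)))
    (h1 : ∀ t, r (t + q t) = q t) (h2 : ∀ s, q (s - r s) = r s) :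
    Diffeomorph I3 I3 T3 T3 1 where
  toFun p := (p.1, Pc (q (tau p.2)) p.2)
  invFun p := (p.1, Pc (-(r (tau p.2))) p.2)
  left_inv p := by
    apply Prod.ext
    · rfl
    · simp only
      by_cases hp : p.2 = inft
      · rw [hp, Pc_inft, Pc_inft]
      · rw [tau_Pc hp, h1, Pc_Pc, neg_add_cancel, Pc_zero]
  right_inv p := by
    apply Prod.ext
    · rfl
    · simp only
      by_cases hp : p.2 = inft
      · rw [hp, Pc_inft, Pc_inft]
      · rw [tau_Pc hp, ← sub_eq_add_neg, h2, Pc_Pc, add_neg_cancel, Pc_zero]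
  contMDiff_toFun := c12.prodMk (contMDiff_Pc (hq.comp c3) c3)
  contMDiff_invFun := by
    have h : ContMDiff I3 𝓘(ℝ, ℝ) 1 (fun p : T3 => -(r (tau p.2))) := (hr.comp c3).neg
    exact c12.prodMk (contMDiff_Pc h c3)

/-- Fourth factor: the drift depending on the base point. -/
def dP (φ : T2 → ℝ) (hφ : ContMDiff I2 𝓘(ℝ, ℝ) 1 φ) : Diffeomorph I3 I3 T3 T3 1 where
  toFun p := (p.1, Pc (φ p.1) p.2)
  invFun p := (p.1, Pc (-(φ p.1)) p.2)
  left_inv p := by
    apply Prod.ext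
    · rfl
    · simp only
      rw [Pc_Pc, neg_add_cancel, Pc_zero]
  right_inv p := by
    apply Prod.ext
    · rfl
    · simp only
      rw [Pc_Pc, add_neg_cancel, Pc_zero]
  contMDiff_toFun := c12.prodMk (contMDiff_Pc (hφ.comp c12) c3)
  contMDiff_invFun := by
    have h : ContMDiff I3 𝓘(ℝ, ℝ) 1 (fun p : T3 => -(φ p.1)) := (hφ.comp c12).neg
    exact c12.prodMk (contMDiff_Pc h c3)

/-- The map, as a formula. -/
def FF (q : ℝ → ℝ) (φ : T2 → ℝ) (p : T3) : T3 :=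
  (shB (lam * sig p.2) (shA (lam * sig p.2) p.1),
    Pc (φ (shB (lam * sig p.2) (shA (lam * sig p.2) p.1))) (Pc (q (tau p.2)) p.2))

theorem exists_diffeo {q : ℝ → ℝ} (hq : ContDiff ℝ 1 q) (h0 : q 0 = 0)
    (h3 : ∀ t, 3 ≤ |t| → q t = 0) (hd : ∀ t, |deriv q t| ≤ 1 / 2) {φ : T2 → ℝ}
    (hφ : ContMDiff I2 𝓘(ℝ, ℝ) 1 φ) :
    ∃ F : Diffeomorph I3 I3 T3 T3 1, ∀ p, F p = FF q φ p := by
  obtain ⟨r, hr, hr0, hr3, hr1, hr2⟩ := exists_inverse hq h0 h3 hd
  refine ⟨((dA.trans dB).trans (dQ q r (contMDiff_q_tau hq h0 h3) (contMDiff_q_tau hr hr0 hr3)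
    hr1 hr2)).trans (dP φ hφ), fun p => rfl⟩

lemma contMDiff_phi {Φ : ℂ × ℂ → ℝ} (hΦ : ContDiff ℝ 1 Φ) :
    ContMDiff I2 𝓘(ℝ, ℝ) 1 (fun z : T2 => Φ ((z.1 : ℂ), (z.2 : ℂ))) := by
  have h : ContMDiff I2 𝓘(ℝ, ℂ × ℂ) 1 (fun z : T2 => (((z.1 : ℂ), (z.2 : ℂ)) : ℂ × ℂ)) :=
    (contMDiff_coe.comp contMDiff_fst).prodMk_space (contMDiff_coe.comp contMDiff_snd)
  exact hΦ.contMDiff.comp h

section dyn

variable {q : ℝ → ℝ} {φ : T2 → ℝ}

lemma FF_inft (z : T2) : FF q φ (z, inft) = (z, inft) := by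
  unfold FF
  simp only [sig_inft, mul_zero, shA_zero, shB_zero, Pc_inft]

lemma FF_ne {p : T3} (hp : p.2 ≠ inft) : (FF q φ p).2 ≠ inft := Pc_ne (Pc_ne hp)

lemma tau_FF {p : T3} (hp : p.2 ≠ inft) :
    tau (FF q φ p).2 = tau p.2 + q (tau p.2) + φ (FF q φ p).1 := by
  unfold FF
  simp only
  rw [tau_Pc (Pc_ne hp), tau_Pc hp]

lemma FF_near {p : T3} (hp : p.2 ≠ inft) (h : |tau p.2| ≤ 1) : (FF q φ p).1 = gg p.1 := by
  unfold FF gg
  simp only [sig_one_tau hp h, mul_one]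

lemma FF_far {p : T3} (hp : p.2 ≠ inft) (h : 2 ≤ |tau p.2|) : (FF q φ p).1 = p.1 := by
  unfold FF
  simp only [sig_zero_tau hp h, mul_zero, shA_zero, shB_zero]

end dyn

end

end Pool.Agent.Helper245.Dif
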