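import Mathlib

namespace Pool.Agent.Helper245

open Filter Topology

namespace Job98

/-- clamp to [-1,1] -/
noncomputable def cl (x : ℝ) : ℝ := max (-1) (min 1 x)

lemma cl_cont : Continuous cl := by unfold cl; fun_prop

lemma cl_mono : Monotone cl := by
  intro x y h; unfold cl; exact max_le_max le_rfl (min_le_min le_rfl h)

lemma cl_abs (x : ℝ) : |cl x| ≤ 1 := by
  unfold cl; rw [abs_le]
  constructor
  · exact le_max_left _ _
  · exact max_le (by norm_num) (min_le_left _ _)

lemma cl_neg (x : ℝ) : cl (-x) = - cl x := by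
  unfold cl
  rcases le_total x 1 with h | h <;> rcases le_total (-1) x with h' | h'
  · rw [min_eq_right h, max_eq_right h', min_eq_right (by linarith), max_eq_right (by linarith)]
  · rw [min_eq_right h, max_eq_left h', min_eq_left (by linarith)]; norm_num
  · rw [min_eq_left h]
    rcases le_total 1 (-x) with h2 | h2
    · rw [min_eq_left h2]; linarith
    · rw [min_eq_right h2, max_eq_left (by linarith)]; norm_num
  · linarith

lemma cl_one {x : ℝ} (h : 1 ≤ x) : cl x = 1 := by
  unfold cl; rw [min_eq_left h]; norm_num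

lemma cl_pos {x : ℝ} (h : 0 < x) : 0 < cl x := by
  unfold cl; exact lt_max_of_lt_right (lt_min one_pos h)

/-- the odd weight -/
noncomputable def g (N : ℕ → ℕ) (s : ℝ) : ℝ :=
  ∑' j : ℕ, (1/2 : ℝ)^(j+1) * cl (2 * Real.exp (N (j+1)) * s)

lemma summ : Summable (fun j : ℕ => (1/2 : ℝ)^(j+1)) :=
  (summable_nat_add_iff 1).2 (summable_geometric_of_lt_one (by norm_num) (by norm_num))

lemma tsum_half : ∑' j : ℕ, (1/2 : ℝ)^(j+1) = 1 := by
  have : ∀ j : ℕ, (1/2 : ℝ)^(j+1) = (1/2) * (1/2)^j := fun j => by ring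
  simp_rw [this, tsum_mul_left]
  rw [tsum_geometric_of_lt_one (by norm_num) (by norm_num)]; norm_num

lemma term_bd (N : ℕ → ℕ) (j : ℕ) (s : ℝ) :
    ‖(1/2 : ℝ)^(j+1) * cl (2 * Real.exp (N (j+1)) * s)‖ ≤ (1/2 : ℝ)^(j+1) := by
  rw [norm_mul, Real.norm_eq_abs, Real.norm_eq_abs, abs_of_nonneg (by positivity)]
  have := cl_abs (2 * Real.exp (N (j+1)) * s)
  have h0 : (0:ℝ) ≤ (1/2)^(j+1) := by positivity
  nlinarith

lemma term_summ (N : ℕ → ℕ) (s : ℝ) :
    Summable (fun j : ℕ => (1/2 : ℝ)^(j+1) * cl (2 * Real.exp (N (j+1)) * s)) :=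
  Summable.of_norm_bounded summ (fun j => term_bd N j s)

lemma g_cont (N : ℕ → ℕ) : Continuous (g N) := by
  unfold g
  refine continuous_tsum (fun j => ?_) summ (fun j s => term_bd N j s)
  exact continuous_const.mul (cl_cont.comp (by fun_prop))

lemma g_mono (N : ℕ → ℕ) : Monotone (g N) := by
  intro x y h
  unfold g
  refine Summable.tsum_le_tsum (fun j => ?_) (term_summ N x) (term_summ N y)
  have : cl (2 * Real.exp (N (j+1)) * x) ≤ cl (2 * Real.exp (N (j+1)) * y) :=
    cl_mono (mul_le_mul_of_nonneg_left h (by positivity))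
  exact mul_le_mul_of_nonneg_left this (by positivity)

lemma g_neg (N : ℕ → ℕ) (s : ℝ) : g N (-s) = - g N s := by
  unfold g
  rw [← tsum_neg]
  congr 1; ext j
  rw [mul_neg, cl_neg]; ring

lemma g_zero (N : ℕ → ℕ) : g N 0 = 0 := by
  have := g_neg N 0
  simp at this; linarith

lemma g_pos (N : ℕ → ℕ) {s : ℝ} (h : 0 < s) : 0 < g N s := by
  unfold g
  refine (term_summ N s).tsum_pos (fun j => ?_) 0 ?_
  · exact mul_nonneg (by positivity) (cl_pos (by positivity)).le
  · exact mul_pos (by positivity) (cl_pos (by positivity))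

lemma g_abs (N : ℕ → ℕ) (s : ℝ) : |g N s| ≤ 1 := by
  have h : ‖g N s‖ ≤ ∑' j : ℕ, (1/2 : ℝ)^(j+1) := by
    unfold g
    exact tsum_of_norm_bounded summ.hasSum (fun j => term_bd N j s)
  rwa [tsum_half, Real.norm_eq_abs] at h

/-- lower bound for the weight -/
lemma g_lower (N : ℕ → ℕ) (hN : StrictMono N) (n j : ℕ) (hj : n ≤ N (j+1)) :
    (1/2 : ℝ)^j ≤ g N (Real.exp (-n) / 2) := by
  have key : ∀ i : ℕ, j ≤ i → cl (2 * Real.exp (N (i+1)) * (Real.exp (-n) / 2)) = 1 := by
    intro i hi
    apply cl_one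
    have h1 : (2 * Real.exp (N (i+1)) * (Real.exp (-n) / 2)) = Real.exp ((N (i+1) : ℝ) - n) := by
      rw [Real.exp_sub, Real.exp_neg]; ring
    rw [h1]
    apply Real.one_le_exp
    have : (n : ℝ) ≤ N (i+1) := by
      exact_mod_cast hj.trans (hN.monotone (by omega))
    linarith
  unfold g
  rw [← (term_summ N (Real.exp (-n) / 2)).sum_add_tsum_nat_add j]
  have h2 : 0 ≤ ∑ i ∈ Finset.range j, (1/2 : ℝ)^(i+1) * cl (2 * Real.exp (N (i+1)) * (Real.exp (-n) / 2)) := by
    refine Finset.sum_nonneg (fun i _ => ?_)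
    exact mul_nonneg (by positivity) (cl_pos (by positivity)).le
  have h3 : ∑' i : ℕ, (1/2 : ℝ)^(i+j+1) * cl (2 * Real.exp (N (i+j+1)) * (Real.exp (-n) / 2)) = (1/2 : ℝ)^j := by
    have : ∀ i : ℕ, (1/2 : ℝ)^(i+j+1) * cl (2 * Real.exp (N (i+j+1)) * (Real.exp (-n) / 2)) = (1/2)^j * (1/2)^(i+1) := by
      intro i; rw [key (i+j) (by omega)]; ring
    simp_rw [this]
    rw [tsum_mul_left, tsum_half, mul_one]
  rw [h3]; linarith

/-- primitive -/
noncomputable def H (N : ℕ → ℕ) (t : ℝ) : ℝ := ∫ s in (0:ℝ)..t, g N s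

lemma H_deriv (N : ℕ → ℕ) (t : ℝ) : HasDerivAt (H N) (g N t) t :=
  intervalIntegral.integral_hasDerivAt_right ((g_cont N).intervalIntegrable _ _)
    ((g_cont N).stronglyMeasurableAtFilter _ _) (g_cont N).continuousAt

lemma H_zero (N : ℕ → ℕ) : H N 0 = 0 := by simp [H]

lemma H_even (N : ℕ → ℕ) (t : ℝ) : H N (-t) = H N t := by
  unfold H
  have h := intervalIntegral.integral_comp_neg (a := 0) (b := t) (fun s => g N s)
  simp only [neg_zero] at h
  rw [intervalIntegral.integral_symm, ← h]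
  simp_rw [g_neg]
  rw [intervalIntegral.integral_neg]; ring

lemma H_lower (N : ℕ → ℕ) {r : ℝ} (h : 0 ≤ r) : r / 2 * g N (r/2) ≤ H N r := by
  unfold H
  rw [← intervalIntegral.integral_add_adjacent_intervals (b := r/2)
    ((g_cont N).intervalIntegrable _ _) ((g_cont N).intervalIntegrable _ _)]
  have h1 : 0 ≤ ∫ s in (0:ℝ)..(r/2), g N s := by
    apply intervalIntegral.integral_nonneg (by linarith)
    intro u hu
    have := g_mono N hu.1
    rwa [g_zero] at this
  have h2 : ∫ s in (r/2)..r, g N (r/2) ≤ ∫ s in (r/2)..r, g N s := by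
    apply intervalIntegral.integral_mono_on (by linarith) (by simp) ((g_cont N).intervalIntegrable _ _)
    intro x hx
    exact g_mono N hx.1
  rw [intervalIntegral.integral_const] at h2
  have h3 : (r - r/2) • g N (r/2) = r/2 * g N (r/2) := by
    rw [smul_eq_mul]; ring
  rw [h3] at h2
  linarith

lemma H_pos (N : ℕ → ℕ) {t : ℝ} (h : t ≠ 0) : 0 < H N t := by
  rcases lt_or_gt_of_ne h with h | h
  · rw [← H_even]
    have h' : 0 < -t := by linarith
    exact lt_of_lt_of_le (mul_pos (by linarith) (g_pos N (by linarith))) (H_lower N h'.le)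
  · exact lt_of_lt_of_le (mul_pos (by linarith) (g_pos N (by linarith))) (H_lower N h.le)

lemma H_nonneg (N : ℕ → ℕ) (t : ℝ) : 0 ≤ H N t := by
  rcases eq_or_ne t 0 with h | h
  · rw [h, H_zero]
  · exact (H_pos N h).le

lemma H_le (N : ℕ → ℕ) (t : ℝ) : H N t ≤ |t| := by
  have h := intervalIntegral.norm_integral_le_of_norm_le_const (a := 0) (b := t) (C := 1)
    (f := fun s => g N s) (fun x _ => by rw [Real.norm_eq_abs]; exact g_abs N x)
  simp only [sub_zero, one_mul] at h
  exact (le_abs_self _).trans h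

end Job98

open Job98 in
theorem exists_drift (a : ℕ → ℝ) (ha : Tendsto a atTop (𝓝 0)) :
    ∃ q : ℝ → ℝ, ContDiff ℝ 1 q ∧ (∀ t, 0 ≤ q t) ∧ (∀ t, q t = 0 ↔ t = 0 ∨ 3 ≤ |t|) ∧
      (∀ t, |deriv q t| ≤ 1 / 2) ∧
      ∃ n₀ : ℕ, ∀ (t : ℕ → ℝ) (m : ℕ), (∀ n, m ≤ n → t n ∈ Set.Icc (-1 : ℝ) 0) →
        (∀ n, m ≤ n → t n + q (t n) ≤ t (n + 1)) →
        ∀ n, m ≤ n → n₀ ≤ n → |t n| ≤ Real.exp (-(((n : ℝ) - m) * a n)) := by
  classical
  let χ : ContDiffBump (0 : ℝ) := ⟨1, 3, by norm_num, by norm_num⟩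
  have χc : ContDiff ℝ 1 (χ : ℝ → ℝ) := χ.contDiff
  have χd : ∀ t, HasDerivAt (χ : ℝ → ℝ) (deriv (χ : ℝ → ℝ) t) t :=
    fun t => ((χc.differentiable (by norm_num)) t).hasDerivAt
  have χdc : Continuous (deriv (χ : ℝ → ℝ)) := χc.continuous_deriv (by norm_num)
  have χsupp : HasCompactSupport (χ : ℝ → ℝ) := χ.hasCompactSupport
  obtain ⟨M0, hM0⟩ : ∃ M : ℝ, ∀ t, ‖deriv (χ : ℝ → ℝ) t * t‖ ≤ M := by
    apply HasCompactSupport.exists_bound_of_continuous
    · exact (χsupp.deriv).mul_right
    · fun_prop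
  set M : ℝ := max M0 0 with hM
  have hMn : 0 ≤ M := le_max_right _ _
  have hMb : ∀ t, |deriv (χ : ℝ → ℝ) t * t| ≤ M := fun t => (hM0 t).trans (le_max_left _ _)
  set c : ℝ := 1 / (2 * (M + 1)) with hc
  have hcpos : 0 < c := by positivity
  have hc2 : c ≤ 1/2 := by
    rw [hc]; rw [div_le_div_iff₀ (by positivity) (by norm_num)]; linarith
  -- choose N
  have hex : ∀ j : ℕ, ∀ᶠ n in atTop, 2 / c * |a n| ≤ (1/2 : ℝ)^j := by
    intro j
    have h1 : Tendsto (fun n => 2 / c * |a n|) atTop (𝓝 0) := by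
      have := (ha.abs).const_mul (2 / c)
      simpa using this
    exact (h1.eventually (gt_mem_nhds (by positivity : (0:ℝ) < (1/2)^j))).mono (fun n hn => hn.le)
  obtain ⟨N, hNm, hN⟩ : ∃ N : ℕ → ℕ, StrictMono N ∧ ∀ j, ∀ n, N j ≤ n → 2 / c * |a n| ≤ (1/2 : ℝ)^j := by
    have h2 : ∀ j : ℕ, ∀ᶠ m in atTop, ∀ n, m ≤ n → 2 / c * |a n| ≤ (1/2 : ℝ)^j := by
      intro j
      obtain ⟨m0, hm0⟩ := eventually_atTop.1 (hex j)
      exact eventually_atTop.2 ⟨m0, fun m hm n hn => hm0 n (hm.trans hn)⟩
    obtain ⟨φ, hφ, h3⟩ := extraction_forall_of_eventually h2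
    exact ⟨φ, hφ, h3⟩
  -- weight bound
  have hw : ∀ n, N 0 ≤ n → 2 / c * |a n| ≤ g N (Real.exp (-n) / 2) := by
    intro n hn
    obtain ⟨j, hj1, hj2⟩ : ∃ j, N j ≤ n ∧ n < N (j+1) := by
      have hfind : ∃ j, n < N (j+1) := ⟨n, lt_of_lt_of_le (Nat.lt_succ_self n) (hNm.le_apply)⟩
      refine ⟨Nat.find hfind, ?_, Nat.find_spec hfind⟩
      rcases Nat.eq_zero_or_pos (Nat.find hfind) with h0 | h0
      · rw [h0]; exact hn
      · have := Nat.find_min hfind (m := Nat.find hfind - 1) (by omega)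
        push Not at this
        rwa [Nat.sub_add_cancel h0] at this
    exact (hN j n hj1).trans (g_lower N hNm n j hj2.le)
  have qd : ∀ t, HasDerivAt (fun t => c * (χ t * H N t))
      (c * (deriv (χ : ℝ → ℝ) t * H N t + χ t * g N t)) t := fun t =>
    ((χd t).mul (H_deriv N t)).const_mul c
  have Hc : Continuous (H N) := by
    rw [continuous_iff_continuousAt]; exact fun t => (H_deriv N t).continuousAt
  refine ⟨fun t => c * (χ t * H N t), ?_, ?_, ?_, ?_, N 0, ?_⟩
  · rw [contDiff_one_iff_deriv]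
    refine ⟨fun t => (qd t).differentiableAt, ?_⟩
    have : deriv (fun t => c * (χ t * H N t)) = fun t => (c * (deriv (χ : ℝ → ℝ) t * H N t + χ t * g N t)) := by
      ext t; exact (qd t).deriv
    rw [this]
    exact continuous_const.mul ((χdc.mul Hc).add (χc.continuous.mul (g_cont N)))
  · intro t
    exact mul_nonneg hcpos.le (mul_nonneg χ.nonneg (H_nonneg N t))
  · intro t
    constructor
    · intro h
      by_contra hcon
      push Not at hcon
      have h1 : 0 < χ t := by
        apply χ.pos_of_mem_ball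
        simp only [Metric.mem_ball, dist_zero_right, Real.norm_eq_abs]
        exact hcon.2
      have := mul_pos hcpos (mul_pos h1 (H_pos N hcon.1))
      linarith
    · rintro (h | h)
      · simp [h, H_zero]
      · have : χ t = 0 := by
          apply χ.zero_of_le_dist
          simpa [Real.norm_eq_abs] using h
        simp [this]
  · intro t
    rw [(qd t).deriv, abs_mul, abs_of_pos hcpos]
    have h1 : |deriv (χ : ℝ → ℝ) t * H N t| ≤ M := by
      rw [abs_mul]
      refine le_trans ?_ (hMb t)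
      rw [abs_mul]
      exact mul_le_mul_of_nonneg_left (by rw [abs_of_nonneg (H_nonneg N t)]; exact H_le N t) (abs_nonneg _)
    have h2 : |χ t * g N t| ≤ 1 := by
      rw [abs_mul, abs_of_nonneg χ.nonneg]
      have h3 : χ t ≤ 1 := χ.le_one
      have h4 := g_abs N t
      have h5 : 0 ≤ χ t := χ.nonneg
      nlinarith [abs_nonneg (g N t)]
    have h3 := abs_add_le (deriv (χ : ℝ → ℝ) t * H N t) (χ t * g N t)
    calc c * |deriv (χ : ℝ → ℝ) t * H N t + χ t * g N t| ≤ c * (M + 1) :=
          mul_le_mul_of_nonneg_left (by linarith) hcpos.le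
      _ = 1/2 := by rw [hc]; field_simp
  · intro t m htI hstep n hmn hn0
    -- basic facts
    have hq1 : ∀ i, m ≤ i → (c * (χ (t i) * H N (t i))) = c * H N (|t i|) := by
      intro i hi
      have hti := htI i hi
      have h1 : χ (t i) = 1 := by
        apply χ.one_of_mem_closedBall
        simp only [Metric.mem_closedBall, dist_zero_right, Real.norm_eq_abs]
        rw [abs_le]; exact ⟨hti.1, by linarith [hti.2]⟩
      rw [h1, one_mul, abs_of_nonpos hti.2, H_even]
    have hr : ∀ i, m ≤ i → |t (i+1)| ≤ |t i| - c * H N (|t i|) := by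
      intro i hi
      have h1 := hstep i hi
      simp only at h1
      rw [hq1 i hi] at h1
      rw [abs_of_nonpos (htI i hi).2, abs_of_nonpos (htI (i+1) (by omega)).2] at *
      linarith
    have hr1 : ∀ i, m ≤ i → |t (i+1)| ≤ |t i| * (1 - c/2 * g N (|t i|/2)) := by
      intro i hi
      have h1 := hr i hi
      have h2 := H_lower N (abs_nonneg (t i))
      have h3 : c * (|t i| / 2 * g N (|t i| / 2)) ≤ c * H N |t i| := mul_le_mul_of_nonneg_left h2 hcpos.le
      linarith
    have hanti : ∀ i, m ≤ i → |t (i+1)| ≤ |t i| := by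
      intro i hi
      have h1 := hr i hi
      have h2 := mul_nonneg hcpos.le (H_nonneg N |t i|)
      linarith
    have han : |a n| ≤ 1 := by
      have h1 := hN 0 n hn0
      simp only [pow_zero] at h1
      have h2 : (4:ℝ) ≤ 2 / c := by
        rw [le_div_iff₀ hcpos]; linarith
      nlinarith [abs_nonneg (a n)]
    have hle1 : ∀ i, m ≤ i → |t i| ≤ 1 := by
      intro i hi
      have := htI i hi
      rw [abs_le]; exact ⟨this.1, by linarith [this.2]⟩
    rcases le_or_gt (|t n|) (Real.exp (-n)) with hA | hB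
    · refine hA.trans (Real.exp_le_exp.2 ?_)
      have h1 : ((n:ℝ) - m) ≤ n := by
        have : (0:ℝ) ≤ m := by positivity
        linarith
      have h2 : (0:ℝ) ≤ (n:ℝ) - m := by
        have : (m:ℝ) ≤ n := by exact_mod_cast hmn
        linarith
      have h3 : a n ≤ 1 := (le_abs_self _).trans han
      have : ((n:ℝ) - m) * a n ≤ n := by nlinarith
      linarith
    · -- monotone down to n
      have hmonoge : ∀ k, m + k ≤ n → |t n| ≤ |t (n - k)| := by
        intro k
        induction k with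
        | zero => intro _; simp
        | succ k ih =>
          intro hk
          have h1 := ih (by omega)
          have h2 := hanti (n - (k+1)) (by omega)
          have h3 : n - (k+1) + 1 = n - k := by omega
          rw [h3] at h2
          exact h1.trans h2
      have hge : ∀ i, m ≤ i → i ≤ n → Real.exp (-n) < |t i| := by
        intro i hi hin
        have := hmonoge (n - i) (by omega)
        rw [Nat.sub_sub_self hin] at this
        exact lt_of_lt_of_le hB this
      have hstep2 : ∀ i, m ≤ i → i ≤ n → |t (i+1)| ≤ |t i| * Real.exp (-(a n)) := by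
        intro i hi hin
        refine (hr1 i hi).trans (mul_le_mul_of_nonneg_left ?_ (abs_nonneg _))
        have h1 : g N (Real.exp (-n) / 2) ≤ g N (|t i|/2) := g_mono N (by linarith [hge i hi hin])
        have h2 := hw n hn0
        have h3 : c/2 * (2 / c * |a n|) ≤ c/2 * g N (|t i|/2) :=
          mul_le_mul_of_nonneg_left (h2.trans h1) (by positivity)
        have h4 : c/2 * (2 / c * |a n|) = |a n| := by field_simp
        have h5 : a n ≤ |a n| := le_abs_self _
        have h6 := Real.one_sub_le_exp_neg (a n)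
        linarith
      have hfin : ∀ k, m + k ≤ n → |t (m + k)| ≤ Real.exp (-((k:ℝ) * a n)) := by
        intro k
        induction k with
        | zero => intro _; simpa using hle1 m le_rfl
        | succ k ih =>
          intro hk
          have h1 := ih (by omega)
          have h2 := hstep2 (m + k) (by omega) (by omega)
          have h3 : |t (m+k)| * Real.exp (-(a n)) ≤ Real.exp (-((k:ℝ) * a n)) * Real.exp (-(a n)) :=
            mul_le_mul_of_nonneg_right h1 (Real.exp_pos _).le
          rw [← Real.exp_add] at h3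
          rw [show m + (k+1) = m + k + 1 by ring]
          refine h2.trans (h3.trans (le_of_eq ?_))
          congr 1; push_cast; ring
      have := hfin (n - m) (by omega)
      rw [Nat.add_sub_cancel' hmn] at this
      rwa [Nat.cast_sub hmn] at this

end Pool.Agent.Helper245
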