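import Pool.Agent.Helper245.Sha

/-!
Lower bound for the topological entropy.
-/

open Filter Topology Finset

namespace Pool.Agent.Helper245.Ent

open Pool.Agent.Helper245.Sub Pool.Agent.Helper245.Cod Pool.Agent.Helper245.Dif

theorem entropy_pos {F : T3 → T3} {X : Set (ℤ → Bool)} (hXs : ∀ x ∈ X, ∀ c, sh c x ∈ X)
    (hF : ∀ x ∈ X, F (cod x, 1) = (cod (sh 1 x), 1)) {l : ℕ → ℕ} (hl : ∀ k, 2 ^ k ≤ l k)
    (hcard : ∀ k, Real.exp (2 / 5 * l k) ≤ (words X (l k)).ncard) :
    0 < Dynamics.coverEntropy F Set.univ := by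
  classical
  have hiter : ∀ x ∈ X, ∀ i : ℕ, F^[i] (cod x, 1) = (cod (sh (i : ℤ) x), 1) := by
    intro x hx i
    induction i with
    | zero => simp [sh_zero]
    | succ i ih =>
      rw [Function.iterate_succ_apply', ih, hF _ (hXs x hx _), sh_add]
      congr 3
      push_cast
      ring
  set U : SetRel T3 T3 := {p | dist p.1 p.2 < 1 / 4} with hU
  have hUu : U ∈ uniformity T3 := Metric.dist_mem_uniformity (by norm_num)
  have key : ∀ k : ℕ, ((words X (l k)).ncard : ℕ∞) ≤ Dynamics.netMaxcard F Set.univ U (l k) := by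
    intro k
    set n := l k with hn
    have hfin : (words X n).Finite := Set.toFinite _
    have hch : ∀ w : Fin n → Bool, ∃ x : ℤ → Bool, w ∈ words X n → x ∈ X ∧ blk x 0 n = w := by
      intro w
      by_cases hw : w ∈ words X n
      · obtain ⟨x, hx, hxw⟩ := hw
        exact ⟨x, fun _ => ⟨hx, hxw⟩⟩
      · exact ⟨fun _ => true, fun h => absurd h hw⟩
    choose g hg using hch
    have hsep : ∀ w ∈ words X n, ∀ w' ∈ words X n, w ≠ w' → ∃ i < n,
        1 / 2 ≤ dist (F^[i] (cod (g w), 1)) (F^[i] (cod (g w'), 1)) := by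
      intro w hw w' hw' hne
      obtain ⟨i, hi⟩ := Function.ne_iff.1 hne
      refine ⟨i, i.2, ?_⟩
      rw [hiter _ (hg w hw).1, hiter _ (hg w' hw').1]
      rw [Prod.dist_eq]
      refine le_trans (dist_cod ?_) (le_max_left _ _)
      have h1 := congrFun (hg w hw).2 i
      have h2 := congrFun (hg w' hw').2 i
      unfold blk at h1 h2
      unfold sh
      rw [h1, h2]
      exact hi
    have hinj : Set.InjOn (fun w => ((cod (g w), 1) : T3)) (words X n) := by
      intro w hw w' hw' h
      by_contra hne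
      obtain ⟨i, _, hi⟩ := hsep w hw w' hw' hne
      simp only at h
      rw [h, dist_self] at hi
      norm_num at hi
    set s : Finset T3 := hfin.toFinset.image (fun w => ((cod (g w), 1) : T3)) with hs
    have hcs : s.card = (words X n).ncard := by
      rw [hs, Finset.card_image_of_injOn, ← Set.ncard_eq_toFinset_card]
      rw [Set.Finite.coe_toFinset]
      exact hinj
    have hnet : Dynamics.IsDynNetIn F Set.univ U n (s : Set T3) := by
      refine ⟨Set.subset_univ _, ?_⟩
      rintro P hP P' hP' hne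
      rw [Finset.mem_coe, hs, Finset.mem_image] at hP hP'
      obtain ⟨w, hw, rfl⟩ := hP
      obtain ⟨w', hw', rfl⟩ := hP'
      rw [Set.Finite.mem_toFinset] at hw hw'
      have hww : w ≠ w' := fun h => hne (by rw [h])
      obtain ⟨i, hin, hi⟩ := hsep w hw w' hw' hww
      simp only [Function.onFun]
      rw [Set.disjoint_left]
      intro z hz hz'
      rw [Dynamics.mem_ball_dynEntourage] at hz hz'
      have h1 : dist (F^[i] (cod (g w), 1)) (F^[i] z) < 1 / 4 := hz i hin
      have h2 : dist (F^[i] (cod (g w'), 1)) (F^[i] z) < 1 / 4 := hz' i hin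
      have h3 := dist_triangle_right (F^[i] (cod (g w), 1)) (F^[i] (cod (g w'), 1)) (F^[i] z)
      linarith
    rw [← hcs]
    exact hnet.card_le_netMaxcard
  have hlt : Tendsto l atTop atTop :=
    tendsto_atTop_mono (fun k => (Nat.lt_two_pow_self (n := k)).le.trans (hl k)) tendsto_id
  have h1 : ((2 / 5 : ℝ) : EReal) ≤ Dynamics.netEntropyEntourage F Set.univ U := by
    unfold Dynamics.netEntropyEntourage
    refine Frequently.le_expGrowthSup ?_
    refine hlt.frequently (Frequently.of_forall fun k => ?_)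
    have h2 : EReal.exp (((2 / 5 : ℝ) : EReal) * ((l k : ℕ) : EReal)) =
        ENNReal.ofReal (Real.exp (2 / 5 * l k)) := by
      have : (((2 / 5 : ℝ) : EReal) * ((l k : ℕ) : EReal)) = ((2 / 5 * (l k : ℝ) : ℝ) : EReal) := by
        push_cast
        rfl
      rw [this, EReal.exp_coe]
    rw [h2]
    calc ENNReal.ofReal (Real.exp (2 / 5 * l k)) ≤ ENNReal.ofReal ((words X (l k)).ncard : ℝ) :=
          ENNReal.ofReal_le_ofReal (hcard k)
      _ = (((words X (l k)).ncard : ℕ∞) : ENNReal) := by
          rw [ENNReal.ofReal_natCast]; rfl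
      _ ≤ _ := by exact_mod_cast key k
  have h2 := Dynamics.netEntropyEntourage_le_coverEntropy (T := F) (F := Set.univ) hUu
  have h3 : (0 : EReal) < ((2 / 5 : ℝ) : EReal) := by exact_mod_cast (by norm_num : (0:ℝ) < 2 / 5)
  exact lt_of_lt_of_le h3 (h1.trans h2)

end Pool.Agent.Helper245.Ent
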