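import Pool.Agent.Helper245.Cod

/-!
The parabolic group on the circle and the affine coordinate.
-/

open Filter Topology Manifold
open scoped ContDiff

namespace Pool.Agent.Helper245.Geo

noncomputable section

attribute [local instance] finrank_real_complex_fact'

lemma circle_sq (z : Circle) : (z : ℂ).re ^ 2 + (z : ℂ).im ^ 2 = 1 := by
  have h := Circle.norm_coe z
  have h2 : Complex.normSq (z : ℂ) = 1 := by
    rw [Complex.normSq_eq_norm_sq, h]; norm_num
  rw [Complex.normSq_apply] at h2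
  nlinarith

lemma circle_ext {z w : Circle} (h1 : (z : ℂ).re = (w : ℂ).re) (h2 : (z : ℂ).im = (w : ℂ).im) :
    z = w := Circle.coe_injective (Complex.ext h1 h2)

/-- the affine coordinate -/
def tau (x : Circle) : ℝ := (x : ℂ).im / (1 + (x : ℂ).re)

/-- the Moebius formula -/
def mobF (c : ℝ) (z : ℂ) : ℂ :=
  (2 * z + Complex.I * c * (1 + z)) / (2 - Complex.I * c * (1 + z))

lemma den_ne (c : ℝ) (x : Circle) : (2 - Complex.I * c * (1 + (x : ℂ))) ≠ 0 := by
  intro h
  have h1 := congrArg Complex.re h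
  have h2 := congrArg Complex.im h
  simp at h1 h2
  have h3 := circle_sq x
  rcases h2 with h2 | h2
  · rw [h2] at h1; norm_num at h1
  · have h4 : (x : ℂ).re = -1 := by linarith
    have h5 : (x : ℂ).im = 0 := by
      have : (x : ℂ).im ^ 2 = 0 := by rw [h4] at h3; linarith
      exact pow_eq_zero_iff two_ne_zero |>.1 this
    rw [h5] at h1; norm_num at h1

lemma norm_mobF (c : ℝ) (x : Circle) : ‖mobF c x‖ = 1 := by
  unfold mobF
  rw [norm_div, div_eq_one_iff_eq (norm_ne_zero_iff.2 (den_ne c x))]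
  have h3 := circle_sq x
  have h4 : ‖2 * (x : ℂ) + Complex.I * c * (1 + x)‖ ^ 2 = ‖2 - Complex.I * c * (1 + (x : ℂ))‖ ^ 2 := by
    rw [← Complex.normSq_eq_norm_sq, ← Complex.normSq_eq_norm_sq, Complex.normSq_apply,
      Complex.normSq_apply]
    simp
    nlinarith
  exact (sq_eq_sq₀ (norm_nonneg _) (norm_nonneg _)).1 h4

/-- the parabolic group -/
def Pc (c : ℝ) (x : Circle) : Circle :=
  ⟨mobF c x, mem_sphere_zero_iff_norm.2 (norm_mobF c x)⟩

@[simp] lemma coe_Pc (c : ℝ) (x : Circle) : (Pc c x : ℂ) = mobF c x := rfl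

lemma Pc_zero (x : Circle) : Pc 0 x = x := by
  apply Circle.coe_injective
  rw [coe_Pc]
  unfold mobF
  simp

lemma Pc_Pc (c d : ℝ) (x : Circle) : Pc c (Pc d x) = Pc (c + d) x := by
  apply Circle.coe_injective
  rw [coe_Pc, coe_Pc, coe_Pc]
  have h1 := den_ne d x
  have h2 := den_ne (c + d) x
  have h3 := den_ne c (Pc d x)
  rw [coe_Pc] at h3
  unfold mobF at h3 ⊢
  rw [div_eq_div_iff h3 h2]
  field_simp
  push_cast
  ring

/-- the point at infinity -/
def inft : Circle := ⟨-1, mem_sphere_zero_iff_norm.2 (by simp)⟩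

@[simp] lemma coe_inft : (inft : ℂ) = -1 := rfl

lemma Pc_inft (c : ℝ) : Pc c inft = inft := by
  apply Circle.coe_injective
  rw [coe_Pc]
  unfold mobF
  simp

lemma re_ne {x : Circle} (hx : x ≠ inft) : 1 + (x : ℂ).re ≠ 0 := by
  intro h
  apply hx
  have h4 : (x : ℂ).re = -1 := by linarith
  have h5 : (x : ℂ).im = 0 := by
    have h3 := circle_sq x
    have : (x : ℂ).im ^ 2 = 0 := by rw [h4] at h3; linarith
    exact pow_eq_zero_iff two_ne_zero |>.1 this
  apply circle_ext
  · rw [h4]; simp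
  · rw [h5]; simp

lemma re_pos {x : Circle} (hx : x ≠ inft) : 0 < 1 + (x : ℂ).re := by
  have h1 := re_ne hx
  have h2 := circle_sq x
  have h3 : -1 ≤ (x : ℂ).re := by nlinarith [sq_nonneg (x : ℂ).im]
  exact lt_of_le_of_ne (by linarith) (Ne.symm h1)

lemma Pc_ne {c : ℝ} {x : Circle} (hx : x ≠ inft) : Pc c x ≠ inft := by
  intro h
  apply hx
  have h1 := Pc_Pc (-c) c x
  rw [h, Pc_inft, neg_add_cancel, Pc_zero] at h1
  exact h1.symm

lemma tau_Pc {c : ℝ} {x : Circle} (hx : x ≠ inft) : tau (Pc c x) = tau x + c := by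
  have h1 := re_ne hx
  have h2 := re_ne (Pc_ne (c := c) hx)
  have h3 := circle_sq x
  unfold tau
  rw [div_add' _ _ _ h1, div_eq_div_iff h2 h1]
  -- real and imaginary parts of mobF
  have hD := den_ne c x
  set a := (x : ℂ).re with ha
  set b := (x : ℂ).im with hb
  have hDn : Complex.normSq (2 - Complex.I * c * (1 + (x : ℂ))) = (2 + c * b) ^ 2 + (c * (1 + a)) ^ 2 := by
    rw [Complex.normSq_apply]
    simp
    ring
  have hN0 : (2 + c * b) ^ 2 + (c * (1 + a)) ^ 2 ≠ 0 := by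
    rw [← hDn]; exact (Complex.normSq_pos.2 hD).ne'
  have hre : (Pc c x : ℂ).re = ((2 * a - c * b) * (2 + c * b) - (2 * b + c * (1 + a)) * (c * (1 + a))) /
      ((2 + c * b) ^ 2 + (c * (1 + a)) ^ 2) := by
    rw [coe_Pc]
    unfold mobF
    rw [Complex.div_re, hDn]
    simp
    field_simp
    ring
  have him : (Pc c x : ℂ).im = ((2 * b + c * (1 + a)) * (2 + c * b) + (2 * a - c * b) * (c * (1 + a))) /
      ((2 + c * b) ^ 2 + (c * (1 + a)) ^ 2) := by
    rw [coe_Pc]
    unfold mobF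
    rw [Complex.div_im, hDn]
    simp
    field_simp
    ring
  have hI : (2 * b + c * (1 + a)) * (2 + c * b) + (2 * a - c * b) * (c * (1 + a)) =
      4 * (b + c * (1 + a)) := by linear_combination (2 * c) * h3
  have hR : (2 * a - c * b) * (2 + c * b) - (2 * b + c * (1 + a)) * (c * (1 + a)) =
      4 * (1 + a) - ((2 + c * b) ^ 2 + (c * (1 + a)) ^ 2) := by ring
  rw [hre, him, hI, hR]
  generalize (2 + c * b) ^ 2 + (c * (1 + a)) ^ 2 = Dn at hN0 ⊢
  field_simp
  ring

/-- the chart -/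
def cay (t : ℝ) : Circle := Pc t 1

lemma one_ne : (1 : Circle) ≠ inft := by
  intro h
  have := congrArg (fun z : Circle => (z : ℂ).re) h
  simp at this
  norm_num at this

lemma tau_one : tau 1 = 0 := by unfold tau; simp

lemma cay_ne (t : ℝ) : cay t ≠ inft := Pc_ne one_ne

lemma tau_cay (t : ℝ) : tau (cay t) = t := by
  unfold cay; rw [tau_Pc one_ne, tau_one, zero_add]

lemma re_eq {x : Circle} (hx : x ≠ inft) : (x : ℂ).re = (1 - tau x ^ 2) / (1 + tau x ^ 2) := by
  have h1 := re_ne hx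
  have h3 := circle_sq x
  unfold tau
  set a := (x : ℂ).re
  set b := (x : ℂ).im
  have hb2 : b ^ 2 = (1 - a) * (1 + a) := by linarith
  have h4 : 1 + (b / (1 + a)) ^ 2 = 2 / (1 + a) := by
    rw [div_pow, hb2]; field_simp; ring
  have h5 : 1 - (b / (1 + a)) ^ 2 = 2 * a / (1 + a) := by
    rw [div_pow, hb2]; field_simp; ring
  rw [h4, h5]
  field_simp

lemma im_eq {x : Circle} (hx : x ≠ inft) : (x : ℂ).im = 2 * tau x / (1 + tau x ^ 2) := by
  have h1 := re_ne hx
  have h3 := circle_sq x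
  unfold tau
  set a := (x : ℂ).re
  set b := (x : ℂ).im
  have hb2 : b ^ 2 = (1 - a) * (1 + a) := by linarith
  have h4 : 1 + (b / (1 + a)) ^ 2 = 2 / (1 + a) := by
    rw [div_pow, hb2]; field_simp; ring
  rw [h4]
  field_simp

lemma tau_inj {x y : Circle} (hx : x ≠ inft) (hy : y ≠ inft) (h : tau x = tau y) : x = y := by
  apply circle_ext
  · rw [re_eq hx, re_eq hy, h]
  · rw [im_eq hx, im_eq hy, h]

lemma cay_tau {x : Circle} (hx : x ≠ inft) : cay (tau x) = x :=
  tau_inj (cay_ne _) hx (tau_cay _)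

lemma cay_zero : cay 0 = 1 := Pc_zero 1

/-! ### smoothness -/

lemma contDiffAt_mobF (q : ℝ × ℂ) (h : (2 - Complex.I * q.1 * (1 + q.2)) ≠ 0) :
    ContDiffAt ℝ 1 (fun q : ℝ × ℂ => mobF q.1 q.2) q := by
  unfold mobF
  have h1 : ContDiffAt ℝ 1 (fun q : ℝ × ℂ => ((q.1 : ℝ) : ℂ)) q :=
    (Complex.ofRealCLM.contDiff.contDiffAt).comp q contDiffAt_fst
  have h2 : ContDiffAt ℝ 1 (fun q : ℝ × ℂ => q.2) q := contDiffAt_snd
  have h3 : ContDiffAt ℝ 1 (fun q : ℝ × ℂ => Complex.I * (q.1 : ℂ) * (1 + q.2)) q :=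
    (contDiffAt_const.mul h1).mul (contDiffAt_const.add h2)
  have h4 : ContDiffAt ℝ 1 (fun q : ℝ × ℂ => 2 * q.2 + Complex.I * (q.1 : ℂ) * (1 + q.2)) q :=
    (contDiffAt_const.mul h2).add h3
  have h5 : ContDiffAt ℝ 1 (fun q : ℝ × ℂ => 2 - Complex.I * (q.1 : ℂ) * (1 + q.2)) q :=
    contDiffAt_const.sub h3
  simp_rw [div_eq_mul_inv]
  exact h4.mul (h5.inv h)

variable {E : Type*} [NormedAddCommGroup E] [NormedSpace ℝ E] {H : Type*} [TopologicalSpace H]
  {I : ModelWithCorners ℝ E H} {N : Type*} [TopologicalSpace N] [ChartedSpace H N]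
  [IsManifold I 1 N]

lemma contMDiff_coe : ContMDiff (𝓡 1) 𝓘(ℝ, ℂ) 1 (fun z : Circle => (z : ℂ)) :=
  contMDiff_coe_sphere (E := ℂ) (n := 1)

lemma contMDiff_Pc {c : N → ℝ} {x : N → Circle} (hc : ContMDiff I 𝓘(ℝ, ℝ) 1 c)
    (hx : ContMDiff I (𝓡 1) 1 x) : ContMDiff I (𝓡 1) 1 (fun n => Pc (c n) (x n)) := by
  have h1 : ContMDiff I 𝓘(ℝ, ℂ) 1 (fun n => (Pc (c n) (x n) : ℂ)) := by
    have h2 : ContMDiff I 𝓘(ℝ, ℝ × ℂ) 1 (fun n => ((c n, (x n : ℂ)) : ℝ × ℂ)) :=
      hc.prodMk_space (contMDiff_coe.comp hx)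
    intro n
    have h3 := contDiffAt_mobF (c n, (x n : ℂ)) (den_ne (c n) (x n))
    have h4 : (fun n => (Pc (c n) (x n) : ℂ)) = (fun q : ℝ × ℂ => mobF q.1 q.2) ∘
        (fun n => ((c n, (x n : ℂ)) : ℝ × ℂ)) := rfl
    rw [h4]
    exact (h3.contMDiffAt).comp n (h2 n)
  exact ContMDiff.codRestrict_sphere (n := 1) (E := ℂ) h1 (fun p => (Pc (c p) (x p)).2)

lemma contMDiff_of_contDiffAt {F : Type*} [NormedAddCommGroup F] [NormedSpace ℝ F] {f : ℂ → F}
    (hf : ∀ x : Circle, ContDiffAt ℝ 1 f (x : ℂ)) :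
    ContMDiff (𝓡 1) 𝓘(ℝ, F) 1 (fun x : Circle => f x) := by
  intro x
  exact ((hf x).contMDiffAt).comp x (contMDiff_coe x)

lemma contMDiff_theta : ContMDiff (𝓡 1) 𝓘(ℝ, ℝ) 1 Cod.theta := by
  unfold Cod.theta
  refine contMDiff_of_contDiffAt (f := fun z => Cod.Af z.im) fun x => ?_
  exact (Cod.contDiff_Af.comp Complex.imCLM.contDiff).contDiffAt

/-- the cut-off in the third coordinate -/
def sig (x : Circle) : ℝ := Real.smoothTransition (((x : ℂ).re + 3 / 5) * (5 / 3))

lemma sig_one {x : Circle} (h : 0 ≤ (x : ℂ).re) : sig x = 1 := by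
  unfold sig
  exact Real.smoothTransition.one_of_one_le (by linarith)

lemma sig_zero {x : Circle} (h : (x : ℂ).re ≤ -3 / 5) : sig x = 0 := by
  unfold sig
  exact Real.smoothTransition.zero_of_nonpos (by linarith)

lemma sig_inft : sig inft = 0 := sig_zero (by simp; norm_num)

lemma sig_one_tau {x : Circle} (hx : x ≠ inft) (h : |tau x| ≤ 1) : sig x = 1 := by
  apply sig_one
  rw [re_eq hx]
  have h1 : tau x ^ 2 ≤ 1 := by rw [← sq_abs]; exact pow_le_one₀ (abs_nonneg _) h
  exact div_nonneg (by linarith) (by positivity)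

lemma sig_zero_tau {x : Circle} (hx : x ≠ inft) (h : 2 ≤ |tau x|) : sig x = 0 := by
  apply sig_zero
  rw [re_eq hx]
  have h1 : 4 ≤ tau x ^ 2 := by rw [← sq_abs]; nlinarith
  rw [div_le_iff₀ (by positivity)]
  linarith

lemma contMDiff_sig : ContMDiff (𝓡 1) 𝓘(ℝ, ℝ) 1 sig := by
  unfold sig
  refine contMDiff_of_contDiffAt
    (f := fun z => Real.smoothTransition ((z.re + 3 / 5) * (5 / 3))) fun x => ?_
  exact (Real.smoothTransition.contDiff.comp
    ((Complex.reCLM.contDiff.add contDiff_const).mul contDiff_const)).contDiffAt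

lemma contMDiff_q_tau {q : ℝ → ℝ} (hq : ContDiff ℝ 1 q) (h0 : q 0 = 0)
    (h3 : ∀ t, 3 ≤ |t| → q t = 0) : ContMDiff (𝓡 1) 𝓘(ℝ, ℝ) 1 (fun x : Circle => q (tau x)) := by
  intro x
  by_cases hx : (x : ℂ).re < -4 / 5
  · have h1 : ∀ᶠ y : Circle in 𝓝 x, (y : ℂ).re < -4 / 5 := by
      have : Continuous (fun y : Circle => (y : ℂ).re) :=
        Complex.continuous_re.comp continuous_subtype_val
      exact this.continuousAt.eventually_lt_const hx
    have h2 : (fun x : Circle => q (tau x)) =ᶠ[𝓝 x] fun _ => (0 : ℝ) := by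
      filter_upwards [h1] with y hy
      by_cases hyi : y = inft
      · subst hyi
        have : tau inft = 0 := by unfold tau; simp
        rw [this, h0]
      · apply h3
        have h4 := re_eq hyi
        by_contra h5
        push Not at h5
        have h6 : tau y ^ 2 < 9 := by
          rw [← sq_abs]
          nlinarith [abs_nonneg (tau y)]
        rw [h4, div_lt_iff₀ (by positivity)] at hy
        linarith
    exact contMDiffAt_const.congr_of_eventuallyEq h2
  · push Not at hx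
    have h1 : ContDiffAt ℝ 1 (fun z : ℂ => q (z.im / (1 + z.re))) (x : ℂ) := by
      refine hq.contDiffAt.comp _ ?_
      exact (Complex.imCLM.contDiff.contDiffAt).div
        (contDiffAt_const.add Complex.reCLM.contDiff.contDiffAt) (by
          show 1 + (x : ℂ).re ≠ 0
          linarith)
    exact (h1.contMDiffAt).comp x (contMDiff_coe x)

/-! ### the inverse of the drift -/

lemma exists_inverse {q : ℝ → ℝ} (hq : ContDiff ℝ 1 q) (h0 : q 0 = 0)
    (h3 : ∀ t, 3 ≤ |t| → q t = 0) (hd : ∀ t, |deriv q t| ≤ 1 / 2) :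
    ∃ r : ℝ → ℝ, ContDiff ℝ 1 r ∧ r 0 = 0 ∧ (∀ t, 3 ≤ |t| → r t = 0) ∧
      (∀ t, r (t + q t) = q t) ∧ (∀ s, q (s - r s) = r s) := by
  have hqd : Differentiable ℝ q := hq.differentiable one_ne_zero
  set f : ℝ → ℝ := fun t => t + q t with hf
  have hfd : ∀ t, HasDerivAt f (1 + deriv q t) t := fun t =>
    (hasDerivAt_id t).add (hqd t).hasDerivAt
  have hpos : ∀ t, 0 < 1 + deriv q t := fun t => by have := abs_le.1 (hd t); linarith [this.1]
  have hmono : StrictMono f := strictMono_of_deriv_pos fun t => by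
    rw [(hfd t).deriv]; exact hpos t
  have hcont : Continuous f := continuous_id.add hq.continuous
  have hf3 : ∀ t, 3 ≤ |t| → f t = t := fun t ht => by simp [hf, h3 t ht]
  have hsurj : Function.Surjective f := by
    refine hcont.surjective ?_ ?_
    · refine tendsto_id.congr' ?_
      filter_upwards [eventually_ge_atTop 3] with t ht
      exact (hf3 t (by rw [abs_of_nonneg (by linarith)]; exact ht)).symm
    · refine tendsto_id.congr' ?_
      filter_upwards [eventually_le_atBot (-3)] with t ht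
      exact (hf3 t (by rw [abs_of_nonpos (by linarith)]; linarith)).symm
  set e : ℝ ≃ₜ ℝ := (hmono.orderIsoOfSurjective f hsurj).toHomeomorph with he
  have hef : ∀ t, e t = f t := fun t => rfl
  have hsymm : ContDiff ℝ 1 (e.symm : ℝ → ℝ) := by
    refine e.contDiff_symm_deriv (f' := fun t => 1 + deriv q t) (fun t => (hpos t).ne') hfd ?_
    exact contDiff_id.add hq
  have hse : ∀ t, e.symm (f t) = t := fun t => e.symm_apply_apply t
  have hes : ∀ s, f (e.symm s) = s := fun s => e.apply_symm_apply s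
  refine ⟨fun s => s - e.symm s, contDiff_id.sub hsymm, ?_, ?_, ?_, ?_⟩
  · have : f 0 = 0 := by simp [hf, h0]
    have h := hse 0
    rw [this] at h
    simp [h]
  · intro t ht
    have h := hse t
    rw [hf3 t ht] at h
    simp [h]
  · intro t
    have h := hse t
    simp only [hf] at h
    simp only [h]
    ring
  · intro s
    have h := hes s
    simp only [hf] at h
    have h1 : s - (s - e.symm s) = e.symm s := by ring
    simp only [h1]
    linarith

end

end Pool.Agent.Helper245.Geo
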