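import Mathlib

set_option autoImplicit false
set_option maxRecDepth 100000

namespace Pool.Agent.Helper231.LC

/-! The cubic graph `H` (72 vertices, 108 edges, half edges `0..215`, mates `2k`,`2k+1`;
edges with half edges `< 180` have weight 2, the others weight 1). -/

/-- vertex of a half edge -/
def VT : List ℕ := [18, 28, 19, 29, 20, 24, 21, 25, 22, 26, 23, 27, 18, 15, 19, 16, 20, 17, 21, 12, 22, 13, 23, 14, 24, 14, 25, 15, 26, 16, 27, 17, 28, 12, 29, 13, 12, 34, 13, 35, 14, 30, 15, 31, 16, 32, 17, 33, 30, 35, 31, 30, 32, 31, 33, 32, 34, 33, 35, 34, 36, 21, 37, 22, 38, 23, 39, 18, 40, 19, 41, 20, 36, 37, 37, 38, 38, 39, 39, 40, 40, 41, 41, 36, 48, 58, 49, 59, 50, 54, 51, 55, 52, 56, 53, 57, 48, 45, 49, 46, 50, 47, 51, 42, 52, 43, 53, 44, 54, 44, 55, 45, 56, 46, 57, 47, 58, 42, 59, 43, 42, 64, 43, 65, 44, 60, 45, 61, 46, 62, 47, 63, 60, 65, 61, 60, 62, 61, 63, 62, 64, 63, 65, 64, 66, 51, 67, 52, 68, 53, 69, 48, 70, 49, 71,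 50, 66, 67, 67, 68, 68, 69, 69, 70, 70, 71, 71, 66, 0, 3, 1, 4, 2, 5, 6, 9, 7, 10, 8, 11, 24, 0, 25, 1, 26, 2, 27, 3, 28, 4, 29, 5, 54, 6, 55, 7, 56, 8, 57, 9, 58, 10, 59, 11, 0, 6, 1, 7, 2, 8, 3, 9, 4, 10, 5, 11]
/-- port of a half edge -/
def PT : List ℕ := [0, 0, 0, 0, 0, 0, 0, 0, 0, 0, 0, 0, 1, 0, 1, 0, 1, 0, 1, 0, 1, 0, 1, 0, 1, 1, 1, 1, 1, 1, 1, 1, 1, 1, 1, 1, 2, 0, 2, 0, 2, 0, 2, 0, 2, 0, 2, 0, 1, 1, 1, 2, 1, 2, 1, 2, 1, 2, 2, 2, 0, 2, 0, 2, 0, 2, 0, 2, 0, 2, 0, 2, 1, 1, 2, 1, 2, 1, 2, 1, 2, 1, 2, 2, 0, 0, 0, 0, 0, 0, 0, 0, 0, 0, 0, 0, 1, 0, 1, 0, 1, 0, 1, 0, 1, 0, 1, 0, 1, 1, 1, 1, 1, 1, 1, 1, 1, 1, 1, 1, 2, 0, 2, 0, 2, 0, 2, 0, 2, 0, 2, 0, 1, 1, 1, 2, 1, 2, 1, 2, 1, 2, 2, 2, 0, 2, 0, 2, 0, 2, 0, 2, 0, 2, 0, 2, 1, 1, 2, 1, 2, 1, 2, 1, 2, 1, 2, 2, 0, 0, 0, 0, 0, 0, 0, 0, 0, 0, 0, 0, 2, 1, 2, 1, 2, 1, 2, 1, 2, 1, 2, 1, 2, 1, 2, 1, 2, 1, 2, 1, 2, 1, 2, 1, 2, 2, 2, 2, 2, 2, 2, 2, 2, 2, 2, 2]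
/-- half edge at vertex `v`, port `p`, at index `3*v+p` -/
def HE : List ℕ := [168, 181, 204, 170, 183, 206, 172, 185, 208, 169, 187, 210, 171, 189, 212, 173, 191, 214, 174, 193, 205, 176, 195, 207, 178, 197, 209, 175, 199, 211, 177, 201, 213, 179, 203, 215, 19, 33, 36, 21, 35, 38, 23, 25, 40, 13, 27, 42, 15, 29, 44, 17, 31, 46, 0, 12, 67, 2, 14, 69, 4, 16, 71, 6, 18, 61, 8, 20, 63, 10, 22, 65, 5, 24, 180, 7, 26, 182, 9, 28, 184, 11, 30, 186, 1, 32, 188, 3, 34, 190, 41, 48, 51, 43, 50, 53, 45, 52, 55, 47, 54, 57, 37, 56, 59, 39, 49, 58, 60, 72, 83, 62, 73, 74, 64, 75, 76, 66, 77, 78, 68, 79, 80, 70, 81, 82, 103, 117, 120, 105, 119, 122, 107, 109, 124, 97, 111, 126, 99, 113, 128, 101, 115, 130, 84, 96, 151, 86, 98, 153, 88, 100, 155, 90, 102, 145, 92, 104, 147, 94, 106, 149, 89, 108, 192, 91, 110, 194, 93, 112, 196, 95, 114, 198, 85, 116, 200, 87, 118, 202, 125, 132, 135, 127, 134, 137, 129, 136, 139, 131, 138, 141, 121, 140,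 143, 123, 133, 142, 144, 156, 167, 146, 157, 158, 148, 159, 160, 150, 161, 162, 152, 163, 164, 154, 165, 166]

def vt (h : ℕ) : ℕ := VT.getD h 0
def pt (h : ℕ) : ℕ := PT.getD h 0
def he (v p : ℕ) : ℕ := HE.getD (3 * v + p) 0
/-- mate of a half edge -/
def mt (h : ℕ) : ℕ := if h % 2 = 0 then h + 1 else h - 1
/-- weight of a half edge -/
def wt (h : ℕ) : ℕ := if h < 180 then 2 else 1


/-- neighbours in `H` -/
def nbh (v : ℕ) : List ℕ := if v < 72 then [vt (mt (he v 0)), vt (mt (he v 1)), vt (mt (he v 2))] else []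

/-- the used edges other than the one of half edge `h0` -/
def fF (F : ℕ → Bool) (h0 u v : ℕ) : Bool :=
  decide (u < 72) && (List.range 3).any (fun p => F (he u p) && (vt (mt (he u p)) == v) &&
    (he u p / 2 != h0 / 2))

def visF (F : ℕ → Bool) (w : ℕ) : Bool := F (he w 0) || F (he w 1) || F (he w 2)

/-- cost of the twelve middle vertices -/
def qcost (F : ℕ → Bool) : ℕ :=
  (∑ w ∈ Finset.range 12, (if visF F w = true then 0 else 6)) +
  (∑ j ∈ Finset.range 6, (if F (204 + 2 * j) = true then 2 else 0)) +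
  (∑ j ∈ Finset.range 6, (if F (168 + 2 * j) = true then 0 else 2))

def acost (F : ℕ → Bool) : ℕ :=
  (∑ w ∈ Finset.range 30, (if visF F (12 + w) = true then 0 else 8)) +
  (∑ j ∈ Finset.range 6, (if F (180 + 2 * j) = true then 3 else 0))

def bcost (F : ℕ → Bool) : ℕ :=
  (∑ w ∈ Finset.range 30, (if visF F (42 + w) = true then 0 else 8)) +
  (∑ j ∈ Finset.range 6, (if F (192 + 2 * j) = true then 3 else 0))

def xI (F : ℕ → Bool) (h : ℕ) : ℤ := ((F h).toNat : ℤ)
def dgI (F : ℕ → Bool) (v : ℕ) : ℤ := xI F (he v 0) + xI F (he v 1) + xI F (he v 2)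

theorem T1 : ∀ v < 72, ∀ p < 3, he v p < 216 ∧ vt (he v p) = v ∧ pt (he v p) = p := by
  decide +kernel

theorem T2 : ∀ h < 216, vt h < 72 ∧ pt h < 3 ∧ he (vt h) (pt h) = h := by
  decide +kernel

theorem sum_he (F : ℕ → Bool) (c : ℕ → ℤ) :
    ∑ v ∈ Finset.range 72, c v * dgI F v = ∑ h ∈ Finset.range 216, c (vt h) * xI F h := by
  have h1 : ∀ v ∈ Finset.range 72, c v * dgI F v =
      ∑ p ∈ Finset.range 3, c v * xI F (he v p) := by
    intro v _
    simp only [Finset.sum_range_succ, Finset.sum_range_zero, dgI]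
    ring
  rw [Finset.sum_congr rfl h1, ← Finset.sum_product']
  refine Finset.sum_nbij' (fun q => he q.1 q.2) (fun h => (vt h, pt h)) ?_ ?_ ?_ ?_ ?_
  · rintro ⟨v, p⟩ hq
    rw [Finset.mem_product, Finset.mem_range, Finset.mem_range] at hq
    exact Finset.mem_range.mpr (T1 v hq.1 p hq.2).1
  · intro h hh
    rw [Finset.mem_range] at hh
    rw [Finset.mem_product, Finset.mem_range, Finset.mem_range]
    exact ⟨(T2 h hh).1, (T2 h hh).2.1⟩
  · rintro ⟨v, p⟩ hq
    rw [Finset.mem_product, Finset.mem_range, Finset.mem_range] at hq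
    exact Prod.ext (T1 v hq.1 p hq.2).2.1 (T1 v hq.1 p hq.2).2.2
  · intro h hh
    rw [Finset.mem_range] at hh
    exact (T2 h hh).2.2
  · rintro ⟨v, p⟩ hq
    rw [Finset.mem_product, Finset.mem_range, Finset.mem_range] at hq
    show c v * xI F (he v p) = c (vt (he v p)) * xI F (he v p)
    rw [(T1 v hq.1 p hq.2).2.1]

theorem mt_facts : ∀ h < 216, mt h < 216 ∧ mt (mt h) = h := by
  decide +kernel

theorem sum_anti (F : ℕ → Bool) (hm : ∀ h < 216, F (mt h) = F h) (C : ℕ → ℤ)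
    (hC : ∀ h < 216, C h + C (mt h) = 0) : ∑ h ∈ Finset.range 216, C h * xI F h = 0 := by
  have h1 : ∑ h ∈ Finset.range 216, C h * xI F h =
      ∑ h ∈ Finset.range 216, C (mt h) * xI F h := by
    refine Finset.sum_nbij' mt mt ?_ ?_ ?_ ?_ ?_
    · intro h hh; rw [Finset.mem_range] at hh ⊢; exact (mt_facts h hh).1
    · intro h hh; rw [Finset.mem_range] at hh ⊢; exact (mt_facts h hh).1
    · intro h hh; rw [Finset.mem_range] at hh; exact (mt_facts h hh).2
    · intro h hh; rw [Finset.mem_range] at hh; exact (mt_facts h hh).2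
    · intro h hh
      rw [Finset.mem_range] at hh
      rw [(mt_facts h hh).2]
      unfold xI
      rw [hm h hh]
  have h2 : ∑ h ∈ Finset.range 216, C h * xI F h + ∑ h ∈ Finset.range 216, C (mt h) * xI F h = 0 := by
    rw [← Finset.sum_add_distrib]
    apply Finset.sum_eq_zero
    intro h hh
    rw [Finset.mem_range] at hh
    rw [← add_mul, hC h hh, zero_mul]
  rw [← h1] at h2
  linarith

def ind (a h : ℕ) : ℤ := if a ≤ h ∧ h < a + 12 ∧ h % 2 = 0 then 1 else 0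

theorem sum_ind (F : ℕ → Bool) (a : ℕ) (ha : a + 12 ≤ 216) (ha2 : a % 2 = 0) :
    ∑ h ∈ Finset.range 216, ind a h * xI F h = ∑ j ∈ Finset.range 6, xI F (a + 2 * j) := by
  have h1 : ∀ h ∈ Finset.range 216, ind a h * xI F h =
      if a ≤ h ∧ h < a + 12 ∧ h % 2 = 0 then xI F h else 0 := by
    intro h _
    unfold ind
    split_ifs <;> simp
  rw [Finset.sum_congr rfl h1, ← Finset.sum_filter]
  symm
  refine Finset.sum_nbij' (fun j => a + 2 * j) (fun h => (h - a) / 2) ?_ ?_ ?_ ?_ ?_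
  · intro j hj
    rw [Finset.mem_range] at hj
    rw [Finset.mem_filter, Finset.mem_range]
    omega
  · intro h hh
    rw [Finset.mem_filter, Finset.mem_range] at hh
    rw [Finset.mem_range]
    omega
  · intro j hj
    rw [Finset.mem_range] at hj
    show (a + 2 * j - a) / 2 = j
    omega
  · intro h hh
    rw [Finset.mem_filter, Finset.mem_range] at hh
    show a + 2 * ((h - a) / 2) = h
    omega
  · intro j _
    rfl

theorem vis_cost (F : ℕ → Bool) (v c : ℕ)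
    (hd : (F (he v 0)).toNat + (F (he v 1)).toNat + (F (he v 2)).toNat = 0 ∨
      (F (he v 0)).toNat + (F (he v 1)).toNat + (F (he v 2)).toNat = 2) :
    ((if visF F v = true then 0 else 2 * c : ℕ) : ℤ) = 2 * c - c * dgI F v := by
  unfold visF dgI xI
  cases h0 : F (he v 0) <;> cases h1 : F (he v 1) <;> cases h2 : F (he v 2) <;>
    simp [h0, h1, h2] at hd ⊢ <;> ring

theorem if_x (F : ℕ → Bool) (h c : ℕ) :
    ((if F h = true then c else 0 : ℕ) : ℤ) = c * xI F h := by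
  unfold xI
  cases F h <;> simp

theorem if_x' (F : ℕ → Bool) (h c : ℕ) :
    ((if F h = true then 0 else c : ℕ) : ℤ) = c - c * xI F h := by
  unfold xI
  cases F h <;> simp

theorem cost_identity (F : ℕ → Bool) (hm : ∀ h < 216, F (mt h) = F h)
    (hd : ∀ v < 72, (F (he v 0)).toNat + (F (he v 1)).toNat + (F (he v 2)).toNat = 0 ∨
      (F (he v 0)).toNat + (F (he v 1)).toNat + (F (he v 2)).toNat = 2) :
    acost F + bcost F + qcost F + 2 * (∑ h ∈ Finset.range 216, (if F h = true then wt h else 0)) = 564 := by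
  have hA : ((acost F : ℕ) : ℤ) = 240 - 4 * (∑ w ∈ Finset.range 30, dgI F (12 + w)) +
      3 * ∑ j ∈ Finset.range 6, xI F (180 + 2 * j) := by
    unfold acost
    push_cast [-Nat.cast_ite]
    have e1 : ∀ w ∈ Finset.range 30, ((if visF F (12 + w) = true then 0 else 8 : ℕ) : ℤ) =
        8 - 4 * dgI F (12 + w) := by
      intro w hw
      rw [Finset.mem_range] at hw
      have := vis_cost F (12 + w) 4 (hd (12 + w) (by omega))
      simpa using this
    have e2 : ∀ j ∈ Finset.range 6, ((if F (180 + 2 * j) = true then 3 else 0 : ℕ) : ℤ) =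
        3 * xI F (180 + 2 * j) := fun j _ => if_x F _ 3
    rw [Finset.sum_congr rfl e1, Finset.sum_congr rfl e2, Finset.sum_sub_distrib,
      ← Finset.mul_sum, ← Finset.mul_sum]
    simp
  have hB : ((bcost F : ℕ) : ℤ) = 240 - 4 * (∑ w ∈ Finset.range 30, dgI F (42 + w)) +
      3 * ∑ j ∈ Finset.range 6, xI F (192 + 2 * j) := by
    unfold bcost
    push_cast [-Nat.cast_ite]
    have e1 : ∀ w ∈ Finset.range 30, ((if visF F (42 + w) = true then 0 else 8 : ℕ) : ℤ) =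
        8 - 4 * dgI F (42 + w) := by
      intro w hw
      rw [Finset.mem_range] at hw
      have := vis_cost F (42 + w) 4 (hd (42 + w) (by omega))
      simpa using this
    have e2 : ∀ j ∈ Finset.range 6, ((if F (192 + 2 * j) = true then 3 else 0 : ℕ) : ℤ) =
        3 * xI F (192 + 2 * j) := fun j _ => if_x F _ 3
    rw [Finset.sum_congr rfl e1, Finset.sum_congr rfl e2, Finset.sum_sub_distrib,
      ← Finset.mul_sum, ← Finset.mul_sum]
    simp
  have hQ : ((qcost F : ℕ) : ℤ) = 84 - 3 * (∑ w ∈ Finset.range 12, dgI F w) +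
      2 * (∑ j ∈ Finset.range 6, xI F (204 + 2 * j)) -
      2 * ∑ j ∈ Finset.range 6, xI F (168 + 2 * j) := by
    unfold qcost
    push_cast [-Nat.cast_ite]
    have e1 : ∀ w ∈ Finset.range 12, ((if visF F w = true then 0 else 6 : ℕ) : ℤ) =
        6 - 3 * dgI F w := by
      intro w hw
      rw [Finset.mem_range] at hw
      have := vis_cost F w 3 (hd w (by omega))
      simpa using this
    have e2 : ∀ j ∈ Finset.range 6, ((if F (204 + 2 * j) = true then 2 else 0 : ℕ) : ℤ) =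
        2 * xI F (204 + 2 * j) := fun j _ => if_x F _ 2
    have e3 : ∀ j ∈ Finset.range 6, ((if F (168 + 2 * j) = true then 0 else 2 : ℕ) : ℤ) =
        2 - 2 * xI F (168 + 2 * j) := fun j _ => if_x' F _ 2
    rw [Finset.sum_congr rfl e1, Finset.sum_congr rfl e2, Finset.sum_congr rfl e3,
      Finset.sum_sub_distrib, Finset.sum_sub_distrib, ← Finset.mul_sum, ← Finset.mul_sum,
      ← Finset.mul_sum]
    simp
    ring
  have hW : (((∑ h ∈ Finset.range 216, (if F h = true then wt h else 0) : ℕ)) : ℤ) =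
      ∑ h ∈ Finset.range 216, (wt h : ℤ) * xI F h := by
    push_cast [-Nat.cast_ite]
    exact Finset.sum_congr rfl (fun h _ => if_x F h (wt h))
  have hS := sum_he F (fun v => if v < 12 then 3 else 4)
  have hS2 : ∑ v ∈ Finset.range 72, (if v < 12 then (3 : ℤ) else 4) * dgI F v =
      3 * (∑ w ∈ Finset.range 12, dgI F w) + 4 * (∑ w ∈ Finset.range 30, dgI F (12 + w)) +
      4 * (∑ w ∈ Finset.range 30, dgI F (42 + w)) := by
    rw [show (72 : ℕ) = 12 + 30 + 30 by norm_num, Finset.sum_range_add, Finset.sum_range_add,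
      Finset.mul_sum, Finset.mul_sum, Finset.mul_sum]
    have u1 : ∑ x ∈ Finset.range 12, (if x < 12 then (3 : ℤ) else 4) * dgI F x =
        ∑ i ∈ Finset.range 12, 3 * dgI F i := by
      apply Finset.sum_congr rfl
      intro w hw
      rw [Finset.mem_range] at hw
      rw [if_pos hw]
    have u2 : ∑ x ∈ Finset.range 30, (if 12 + x < 12 then (3 : ℤ) else 4) * dgI F (12 + x) =
        ∑ i ∈ Finset.range 30, 4 * dgI F (12 + i) := by
      apply Finset.sum_congr rfl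
      intro w hw
      rw [if_neg (by omega)]
    have u3 : ∑ x ∈ Finset.range 30, (if 12 + 30 + x < 12 then (3 : ℤ) else 4) *
        dgI F (12 + 30 + x) = ∑ i ∈ Finset.range 30, 4 * dgI F (42 + i) := by
      apply Finset.sum_congr rfl
      intro w hw
      rw [if_neg (by omega)]
    rw [u1, u2, u3]
  have hanti := sum_anti F hm (fun h => 2 * (wt h : ℤ) - (if vt h < 12 then 3 else 4) +
    3 * ind 180 h + 3 * ind 192 h + 2 * ind 204 h - 2 * ind 168 h) (by decide +kernel)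
  have hexp : ∑ h ∈ Finset.range 216, (2 * (wt h : ℤ) - (if vt h < 12 then 3 else 4) +
    3 * ind 180 h + 3 * ind 192 h + 2 * ind 204 h - 2 * ind 168 h) * xI F h =
      2 * (∑ h ∈ Finset.range 216, (wt h : ℤ) * xI F h) -
      (∑ h ∈ Finset.range 216, (if vt h < 12 then (3 : ℤ) else 4) * xI F h) +
      3 * (∑ h ∈ Finset.range 216, ind 180 h * xI F h) +
      3 * (∑ h ∈ Finset.range 216, ind 192 h * xI F h) +
      2 * (∑ h ∈ Finset.range 216, ind 204 h * xI F h) -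
      2 * (∑ h ∈ Finset.range 216, ind 168 h * xI F h) := by
    simp only [Finset.mul_sum, ← Finset.sum_add_distrib, ← Finset.sum_sub_distrib]
    apply Finset.sum_congr rfl
    intro h _
    ring
  rw [hexp, sum_ind F 180 (by norm_num) (by norm_num), sum_ind F 192 (by norm_num) (by norm_num),
    sum_ind F 204 (by norm_num) (by norm_num), sum_ind F 168 (by norm_num) (by norm_num)] at hanti
  rw [hS2] at hS
  have : ((acost F + bcost F + qcost F +
      2 * (∑ h ∈ Finset.range 216, (if F h = true then wt h else 0)) : ℕ) : ℤ) = 564 := by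
    rw [Nat.cast_add, Nat.cast_add, Nat.cast_add, Nat.cast_mul, hA, hB, hQ, hW]
    push_cast
    linarith
  exact_mod_cast this

theorem dg_even (F : ℕ → Bool) (v : ℕ)
    (hd : (F (he v 0)).toNat + (F (he v 1)).toNat + (F (he v 2)).toNat = 0 ∨
      (F (he v 0)).toNat + (F (he v 1)).toNat + (F (he v 2)).toNat = 2) :
    dgI F v = 2 * (if visF F v = true then 1 else 0) := by
  unfold visF dgI xI
  cases h0 : F (he v 0) <;> cases h1 : F (he v 1) <;> cases h2 : F (he v 2) <;>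
    simp [h0, h1, h2] at hd ⊢

def cI (o h : ℕ) : ℤ := if o ≤ h ∧ h < o + 30 then 1 else 0
def eI (b h : ℕ) : ℤ := if b ≤ h ∧ h < b + 84 ∧ h % 2 = 0 then 1 else 0

theorem par (F : ℕ → Bool) (hm : ∀ h < 216, F (mt h) = F h)
    (hd : ∀ v < 72, (F (he v 0)).toNat + (F (he v 1)).toNat + (F (he v 2)).toNat = 0 ∨
      (F (he v 0)).toNat + (F (he v 1)).toNat + (F (he v 2)).toNat = 2)
    (o b t : ℕ) (ht : t + 12 ≤ 216) (ht2 : t % 2 = 0)
    (hC : ∀ h < 216, (cI o (vt h) - 2 * eI b h - ind t h) +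
      (cI o (vt (mt h)) - 2 * eI b (mt h) - ind t (mt h)) = 0) :
    ∃ k : ℤ, ∑ j ∈ Finset.range 6, xI F (t + 2 * j) = 2 * k := by
  have h1 := sum_he F (fun v => cI o v)
  have h2 := sum_anti F hm (fun h => cI o (vt h) - 2 * eI b h - ind t h) hC
  have h3 : ∑ h ∈ Finset.range 216, (cI o (vt h) - 2 * eI b h - ind t h) * xI F h =
      (∑ h ∈ Finset.range 216, cI o (vt h) * xI F h) -
      2 * (∑ h ∈ Finset.range 216, eI b h * xI F h) -
      (∑ h ∈ Finset.range 216, ind t h * xI F h) := by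
    simp only [Finset.mul_sum, ← Finset.sum_sub_distrib]
    apply Finset.sum_congr rfl
    intro h _
    ring
  rw [h3, sum_ind F t ht ht2] at h2
  have h4 : ∑ v ∈ Finset.range 72, cI o v * dgI F v =
      2 * ∑ v ∈ Finset.range 72, cI o v * (if visF F v = true then 1 else 0) := by
    rw [Finset.mul_sum]
    apply Finset.sum_congr rfl
    intro v hv
    rw [Finset.mem_range] at hv
    rw [dg_even F v (hd v hv)]
    ring
  refine ⟨(∑ v ∈ Finset.range 72, cI o v * (if visF F v = true then 1 else 0)) -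
    ∑ h ∈ Finset.range 216, eI b h * xI F h, ?_⟩
  rw [mul_sub, ← h4]
  have h1' : ∑ v ∈ Finset.range 72, cI o v * dgI F v =
    ∑ h ∈ Finset.range 216, cI o (vt h) * xI F h := h1
  rw [h1']
  linarith

/-- cost of a column -/
def ccost (a b s1 s2 t1 t2 l1 l2 : Bool) : ℕ :=
  (if (a || s1 || l1) = true then 0 else 6) + (if (a || s2 || l2) = true then 0 else 6) +
  (if (b || t1 || l1) = true then 0 else 6) + (if (b || t2 || l2) = true then 0 else 6) +
  (if l1 = true then 2 else 0) + (if l2 = true then 2 else 0) +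
  (if a = true then 0 else 2) + (if b = true then 0 else 2)

theorem ccost_low : ∀ a b s1 s2 t1 t2 l1 l2 : Bool,
    (a.toNat + s1.toNat + l1.toNat = 0 ∨ a.toNat + s1.toNat + l1.toNat = 2) →
    (a.toNat + s2.toNat + l2.toNat = 0 ∨ a.toNat + s2.toNat + l2.toNat = 2) →
    (b.toNat + t1.toNat + l1.toNat = 0 ∨ b.toNat + t1.toNat + l1.toNat = 2) →
    (b.toNat + t2.toNat + l2.toNat = 0 ∨ b.toNat + t2.toNat + l2.toNat = 2) →
    (a = false ∨ b = false ∨ l1 = false ∨ l2 = false) →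
    (5 ≤ ccost a b s1 s2 t1 t2 l1 l2 + 3 * (t1.toNat + t2.toNat) ∧
     ((t1.toNat + t2.toNat) % 2 = 0 → 6 ≤ ccost a b s1 s2 t1 t2 l1 l2 + 3 * (t1.toNat + t2.toNat)) ∧
     5 ≤ ccost a b s1 s2 t1 t2 l1 l2 + 3 * (s1.toNat + s2.toNat) ∧
     ((s1.toNat + s2.toNat) % 2 = 0 → 6 ≤ ccost a b s1 s2 t1 t2 l1 l2 + 3 * (s1.toNat + s2.toNat))) := by
  unfold ccost
  decide +kernel

def colc (F : ℕ → Bool) (i : ℕ) : ℕ :=
  ccost (F (168 + 2 * i)) (F (174 + 2 * i)) (F (180 + 2 * i)) (F (186 + 2 * i))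
    (F (192 + 2 * i)) (F (198 + 2 * i)) (F (204 + 2 * i)) (F (210 + 2 * i))

theorem he_col : ∀ i < 3, he i 0 = 168 + 2 * i ∧ he i 1 = mt (180 + 2 * i) ∧ he i 2 = 204 + 2 * i ∧
    he (i + 3) 0 = mt (168 + 2 * i) ∧ he (i + 3) 1 = mt (186 + 2 * i) ∧ he (i + 3) 2 = 210 + 2 * i ∧
    he (i + 6) 0 = 174 + 2 * i ∧ he (i + 6) 1 = mt (192 + 2 * i) ∧ he (i + 6) 2 = mt (204 + 2 * i) ∧
    he (i + 9) 0 = mt (174 + 2 * i) ∧ he (i + 9) 1 = mt (198 + 2 * i) ∧
    he (i + 9) 2 = mt (210 + 2 * i) := by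
  decide +kernel

theorem col_low (F : ℕ → Bool) (hm : ∀ h < 216, F (mt h) = F h)
    (hd : ∀ v < 72, (F (he v 0)).toNat + (F (he v 1)).toNat + (F (he v 2)).toNat = 0 ∨
      (F (he v 0)).toNat + (F (he v 1)).toNat + (F (he v 2)).toNat = 2) (i : ℕ) (hi : i < 3)
    (hc : F (168 + 2 * i) = false ∨ F (174 + 2 * i) = false ∨ F (204 + 2 * i) = false ∨
      F (210 + 2 * i) = false) :
    (5 ≤ colc F i + 3 * ((F (192 + 2 * i)).toNat + (F (198 + 2 * i)).toNat) ∧
     (((F (192 + 2 * i)).toNat + (F (198 + 2 * i)).toNat) % 2 = 0 →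
      6 ≤ colc F i + 3 * ((F (192 + 2 * i)).toNat + (F (198 + 2 * i)).toNat)) ∧
     5 ≤ colc F i + 3 * ((F (180 + 2 * i)).toNat + (F (186 + 2 * i)).toNat) ∧
     (((F (180 + 2 * i)).toNat + (F (186 + 2 * i)).toNat) % 2 = 0 →
      6 ≤ colc F i + 3 * ((F (180 + 2 * i)).toNat + (F (186 + 2 * i)).toNat))) := by
  obtain ⟨e1, e2, e3, e4, e5, e6, e7, e8, e9, e10, e11, e12⟩ := he_col i hi
  have d1 := hd i (by omega)
  have d2 := hd (i + 3) (by omega)
  have d3 := hd (i + 6) (by omega)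
  have d4 := hd (i + 9) (by omega)
  rw [e1, e2, e3, hm (180 + 2 * i) (by omega)] at d1
  rw [e4, e5, e6, hm (168 + 2 * i) (by omega), hm (186 + 2 * i) (by omega)] at d2
  rw [e7, e8, e9, hm (192 + 2 * i) (by omega), hm (204 + 2 * i) (by omega)] at d3
  rw [e10, e11, e12, hm (174 + 2 * i) (by omega), hm (198 + 2 * i) (by omega),
    hm (210 + 2 * i) (by omega)] at d4
  exact ccost_low _ _ _ _ _ _ _ _ d1 d2 d3 d4 hc

theorem visF_col (F : ℕ → Bool) (hm : ∀ h < 216, F (mt h) = F h) (i : ℕ) (hi : i < 3) :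
    visF F i = (F (168 + 2 * i) || F (180 + 2 * i) || F (204 + 2 * i)) ∧
    visF F (i + 3) = (F (168 + 2 * i) || F (186 + 2 * i) || F (210 + 2 * i)) ∧
    visF F (i + 6) = (F (174 + 2 * i) || F (192 + 2 * i) || F (204 + 2 * i)) ∧
    visF F (i + 9) = (F (174 + 2 * i) || F (198 + 2 * i) || F (210 + 2 * i)) := by
  obtain ⟨e1, e2, e3, e4, e5, e6, e7, e8, e9, e10, e11, e12⟩ := he_col i hi
  unfold visF
  rw [e1, e2, e3, e4, e5, e6, e7, e8, e9, e10, e11, e12, hm (180 + 2 * i) (by omega),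
    hm (168 + 2 * i) (by omega), hm (186 + 2 * i) (by omega), hm (192 + 2 * i) (by omega),
    hm (204 + 2 * i) (by omega), hm (174 + 2 * i) (by omega), hm (198 + 2 * i) (by omega),
    hm (210 + 2 * i) (by omega)]
  exact ⟨rfl, rfl, rfl, rfl⟩

theorem qcost_eq (F : ℕ → Bool) (hm : ∀ h < 216, F (mt h) = F h) :
    qcost F = colc F 0 + colc F 1 + colc F 2 := by
  obtain ⟨a1, a2, a3, a4⟩ := visF_col F hm 0 (by norm_num)
  obtain ⟨b1, b2, b3, b4⟩ := visF_col F hm 1 (by norm_num)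
  obtain ⟨c1, c2, c3, c4⟩ := visF_col F hm 2 (by norm_num)
  norm_num at a1 a2 a3 a4 b1 b2 b3 b4 c1 c2 c3 c4
  unfold qcost colc ccost
  simp only [Finset.sum_range_succ, Finset.sum_range_zero]
  norm_num
  rw [a1, a2, a3, a4, b1, b2, b3, b4, c1, c2, c3, c4]
  simp only [Bool.or_eq_true]
  ring

theorem term_low (F : ℕ → Bool) (t : ℕ) :
    (∑ j ∈ Finset.range 6, (if F (t + 2 * j) = true then 3 else 0)) =
      3 * ((F t).toNat + (F (t + 6)).toNat) + 3 * ((F (t + 2)).toNat + (F (t + 8)).toNat) +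
      3 * ((F (t + 4)).toNat + (F (t + 10)).toNat) := by
  simp only [Finset.sum_range_succ, Finset.sum_range_zero]
  have e : ∀ b : Bool, (if b = true then 3 else 0) = 3 * b.toNat := by decide
  simp only [e]
  norm_num
  ring

theorem xI_sum6 (F : ℕ → Bool) (t : ℕ) :
    (∑ j ∈ Finset.range 6, xI F (t + 2 * j)) =
      ((((F t).toNat + (F (t + 6)).toNat) + ((F (t + 2)).toNat + (F (t + 8)).toNat) +
      ((F (t + 4)).toNat + (F (t + 10)).toNat) : ℕ) : ℤ) := by
  simp only [Finset.sum_range_succ, Finset.sum_range_zero, xI]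
  push_cast
  norm_num
  ring

theorem bq_low (F : ℕ → Bool) (hm : ∀ h < 216, F (mt h) = F h)
    (hd : ∀ v < 72, (F (he v 0)).toNat + (F (he v 1)).toNat + (F (he v 2)).toNat = 0 ∨
      (F (he v 0)).toNat + (F (he v 1)).toNat + (F (he v 2)).toNat = 2)
    (hc : ∀ i < 3, F (168 + 2 * i) = false ∨ F (174 + 2 * i) = false ∨ F (204 + 2 * i) = false ∨
      F (210 + 2 * i) = false) : 16 ≤ bcost F + qcost F := by
  obtain ⟨k, hk⟩ := par F hm hd 42 84 192 (by norm_num) (by norm_num) (by decide +kernel)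
  rw [xI_sum6] at hk
  have c0 := (col_low F hm hd 0 (by norm_num) (hc 0 (by norm_num)))
  have c1 := (col_low F hm hd 1 (by norm_num) (hc 1 (by norm_num)))
  have c2 := (col_low F hm hd 2 (by norm_num) (hc 2 (by norm_num)))
  norm_num at c0 c1 c2 hk
  have hb : (∑ j ∈ Finset.range 6, (if F (192 + 2 * j) = true then 3 else 0)) ≤ bcost F := by
    unfold bcost; exact Nat.le_add_left _ _
  rw [term_low] at hb
  norm_num at hb
  rw [qcost_eq F hm]
  obtain ⟨p1, p2, -, -⟩ := c0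
  obtain ⟨q1, q2, -, -⟩ := c1
  obtain ⟨r1, r2, -, -⟩ := c2
  omega

theorem aq_low (F : ℕ → Bool) (hm : ∀ h < 216, F (mt h) = F h)
    (hd : ∀ v < 72, (F (he v 0)).toNat + (F (he v 1)).toNat + (F (he v 2)).toNat = 0 ∨
      (F (he v 0)).toNat + (F (he v 1)).toNat + (F (he v 2)).toNat = 2)
    (hc : ∀ i < 3, F (168 + 2 * i) = false ∨ F (174 + 2 * i) = false ∨ F (204 + 2 * i) = false ∨
      F (210 + 2 * i) = false) : 16 ≤ acost F + qcost F := by
  obtain ⟨k, hk⟩ := par F hm hd 12 0 180 (by norm_num) (by norm_num) (by decide +kernel)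
  rw [xI_sum6] at hk
  have c0 := (col_low F hm hd 0 (by norm_num) (hc 0 (by norm_num)))
  have c1 := (col_low F hm hd 1 (by norm_num) (hc 1 (by norm_num)))
  have c2 := (col_low F hm hd 2 (by norm_num) (hc 2 (by norm_num)))
  norm_num at c0 c1 c2 hk
  have hb : (∑ j ∈ Finset.range 6, (if F (180 + 2 * j) = true then 3 else 0)) ≤ acost F := by
    unfold acost; exact Nat.le_add_left _ _
  rw [term_low] at hb
  norm_num at hb
  rw [qcost_eq F hm]
  obtain ⟨-, -, p1, p2⟩ := c0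
  obtain ⟨-, -, q1, q2⟩ := c1
  obtain ⟨-, -, r1, r2⟩ := c2
  omega

/-- if no block-A vertex or no block-B vertex is used, the cost is large -/
theorem acost_big (F : ℕ → Bool) (hm : ∀ h < 216, F (mt h) = F h)
    (hd : ∀ v < 72, (F (he v 0)).toNat + (F (he v 1)).toNat + (F (he v 2)).toNat = 0 ∨
      (F (he v 0)).toNat + (F (he v 1)).toNat + (F (he v 2)).toNat = 2)
    (h : ∀ w < 30, visF F (12 + w) = false) : 240 ≤ acost F := by
  unfold acost
  have e1 : ∀ w ∈ Finset.range 30, (if visF F (12 + w) = true then 0 else 8) = 8 := by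
    intro w hw
    rw [Finset.mem_range] at hw
    rw [h w hw]
    simp
  rw [Finset.sum_congr rfl e1]
  simp

theorem bcost_big (F : ℕ → Bool) (hm : ∀ h < 216, F (mt h) = F h)
    (hd : ∀ v < 72, (F (he v 0)).toNat + (F (he v 1)).toNat + (F (he v 2)).toNat = 0 ∨
      (F (he v 0)).toNat + (F (he v 1)).toNat + (F (he v 2)).toNat = 2)
    (h : ∀ w < 30, visF F (42 + w) = false) : 240 ≤ bcost F := by
  unfold bcost
  have e1 : ∀ w ∈ Finset.range 30, (if visF F (42 + w) = true then 0 else 8) = 8 := by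
    intro w hw
    rw [Finset.mem_range] at hw
    rw [h w hw]
    simp
  rw [Finset.sum_congr rfl e1]
  simp

end Pool.Agent.Helper231.LC

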