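import Pool.Agent.Helper245.Dif

/-!
Orbit analysis: every orbit either converges or shadows the horseshoe on long windows.
-/

open Filter Topology Finset

namespace Pool.Agent.Helper245.Orb

open Pool.Agent.Helper245.Sub Pool.Agent.Helper245.Cod Pool.Agent.Helper245.Geo
open Pool.Agent.Helper245.Dif

/-! ### Averages -/

/-- sums over long windows control averages -/
lemma avg_of_windows {s : ℕ → ℂ} {C : ℝ} (hs : ∀ n, ‖s n‖ ≤ C)
    (h : ∀ ε > 0, ∃ n₀ : ℕ, ∀ n ≥ n₀, ∃ L : ℕ, 1 ≤ L ∧ (L : ℝ) ≤ ε * n + 1 ∧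
      ‖∑ i ∈ range L, s (n + i)‖ ≤ ε * L) :
    Tendsto (fun N : ℕ => (∑ n ∈ range N, s n) / (N : ℂ)) atTop (𝓝 0) := by
  have hC : 0 ≤ C := (norm_nonneg _).trans (hs 0)
  rw [Metric.tendsto_atTop]
  intro ε hε
  set δ : ℝ := ε / (2 * (C + 2)) with hδ
  have hδ0 : 0 < δ := by positivity
  obtain ⟨n₀, hn₀⟩ := h δ hδ0
  -- windows from n to N
  have key : ∀ k : ℕ, ∀ n N : ℕ, n₀ ≤ n → n ≤ N → N - n ≤ k →
      ‖∑ i ∈ range (N - n), s (n + i)‖ ≤ δ * (N - n : ℕ) + C * (δ * N + 1) := by
    intro k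
    induction k with
    | zero =>
      intro n N _ _ hk
      have : N - n = 0 := by omega
      rw [this]
      simp only [range_zero, sum_empty, norm_zero, Nat.cast_zero, mul_zero, zero_add]
      positivity
    | succ k ih =>
      intro n N hn hnN hk
      obtain ⟨L, hL1, hL2, hL3⟩ := hn₀ n hn
      have hnN' : (n : ℝ) ≤ N := by exact_mod_cast hnN
      rcases lt_or_ge (N - n) L with hlt | hge
      · have h1 : ‖∑ i ∈ range (N - n), s (n + i)‖ ≤ (N - n : ℕ) * C := by
          refine (norm_sum_le _ _).trans ((sum_le_sum fun i _ => hs _).trans ?_)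
          simp
        have h2 : ((N - n : ℕ) : ℝ) ≤ L := by exact_mod_cast hlt.le
        have h3 : (L : ℝ) ≤ δ * N + 1 := hL2.trans (by gcongr)
        have h4 : ((N - n : ℕ) : ℝ) * C ≤ C * (δ * N + 1) := by
          rw [mul_comm]; exact mul_le_mul_of_nonneg_left (h2.trans h3) hC
        have h5 : 0 ≤ δ * ((N - n : ℕ) : ℝ) := by positivity
        linarith
      · have h1 : N - n = L + (N - (n + L)) := by omega
        have h2 := ih (n + L) N (by omega) (by omega) (by omega)
        rw [h1, sum_range_add]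
        have h3 : ∑ x ∈ range (N - (n + L)), s (n + (L + x)) =
            ∑ x ∈ range (N - (n + L)), s (n + L + x) :=
          sum_congr rfl fun x _ => by rw [add_assoc]
        rw [h3]
        refine (norm_add_le _ _).trans ?_
        push_cast
        have h4 : ((N - (n + L) : ℕ) : ℝ) = ((N - (n + L) : ℕ) : ℝ) := rfl
        linarith
  obtain ⟨N₁, hN₁⟩ := exists_nat_ge ((n₀ * C + C) / (ε / 4))
  refine ⟨max (max n₀ 1) (N₁ + 1), fun N hN => ?_⟩
  have hNn : n₀ ≤ N := ((le_max_left _ _).trans (le_max_left _ _)).trans hN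
  have hN1 : 1 ≤ N := ((le_max_right _ _).trans (le_max_left _ _)).trans hN
  have hN2 : N₁ + 1 ≤ N := (le_max_right _ _).trans hN
  have hNp : (0 : ℝ) < N := by exact_mod_cast hN1
  rw [dist_zero_right, norm_div, Complex.norm_natCast, div_lt_iff₀ hNp]
  have h1 := key (N - n₀) n₀ N le_rfl hNn le_rfl
  have h2 : ∑ n ∈ range N, s n = ∑ n ∈ range n₀, s n + ∑ i ∈ range (N - n₀), s (n₀ + i) := by
    rw [← sum_range_add]
    congr 2
    omega
  have h3 : ‖∑ n ∈ range n₀, s n‖ ≤ n₀ * C := by
    refine (norm_sum_le _ _).trans ((sum_le_sum fun i _ => hs _).trans ?_)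
    simp
  rw [h2]
  have h4 : ((N - n₀ : ℕ) : ℝ) ≤ N := by exact_mod_cast Nat.sub_le _ _
  have h5 : δ * ((N - n₀ : ℕ) : ℝ) ≤ δ * N := by gcongr
  have h6 : (n₀ : ℝ) * C + C < ε / 4 * N := by
    have h7 : (N₁ : ℝ) < N := by exact_mod_cast hN2
    have h8 := lt_of_le_of_lt hN₁ h7
    rw [div_lt_iff₀ (by positivity)] at h8
    linarith
  have h7 : δ * N + C * (δ * N) ≤ ε / 2 * N := by
    have : δ * N + C * (δ * N) = (C + 1) / (C + 2) * (ε / 2 * N) := by
      rw [hδ]; field_simp; ring
    rw [this]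
    have h8 : (C + 1) / (C + 2) ≤ 1 := by
      rw [div_le_one (by positivity)]; linarith
    have h9 : 0 ≤ ε / 2 * N := by positivity
    nlinarith
  have h8 := norm_add_le (∑ n ∈ range n₀, s n) (∑ i ∈ range (N - n₀), s (n₀ + i))
  have h9 : 0 < ε * N := by positivity
  linarith

/-- convergent sequences -/
lemma avg_of_tendsto {u : ℕ → ℝ} (hu : ∀ n, |u n| ≤ 1)
    (hu0 : Tendsto (fun N : ℕ => (∑ n ∈ range N, u n) / N) atTop (𝓝 0)) {v : ℕ → ℂ} {l : ℂ}
    (hv : Tendsto v atTop (𝓝 l)) :
    Tendsto (fun N : ℕ => (∑ n ∈ range N, (u n : ℂ) * v n) / (N : ℂ)) atTop (𝓝 0) := by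
  have h1 : Tendsto (fun n => (u n : ℂ) * (v n - l)) atTop (𝓝 0) := by
    have h2 : Tendsto (fun n => ‖v n - l‖) atTop (𝓝 0) := by
      have := (hv.sub_const l).norm
      simpa using this
    refine squeeze_zero_norm (fun n => ?_) h2
    rw [norm_mul, Complex.norm_real]
    exact mul_le_of_le_one_left (norm_nonneg _) (hu n)
  have h2 := h1.cesaro_smul
  have h3 : Tendsto (fun N : ℕ => (((∑ n ∈ range N, u n) / N : ℝ) : ℂ) * l) atTop (𝓝 0) := by
    have := ((Complex.continuous_ofReal.tendsto 0).comp hu0).mul_const l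
    simpa using this
  have h4 := h2.add h3
  rw [add_zero] at h4
  refine h4.congr fun N => ?_
  rw [Complex.real_smul]
  push_cast
  simp_rw [mul_sub]
  rw [sum_sub_distrib, ← sum_mul]
  rcases Nat.eq_zero_or_pos N with h | h
  · subst h; simp
  · have : (N : ℂ) ≠ 0 := by exact_mod_cast h.ne'
    field_simp
    ring

/-! ### the chart at infinity -/

lemma continuous_cay : Continuous cay := by
  have h : Continuous (fun t : ℝ => mobF t (1 : Circle)) := by
    unfold mobF
    refine Continuous.div ?_ ?_ (fun t => den_ne t 1)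
    · exact continuous_const.add
        ((continuous_const.mul Complex.continuous_ofReal).mul continuous_const)
    · exact continuous_const.sub
        ((continuous_const.mul Complex.continuous_ofReal).mul continuous_const)
  rw [Metric.continuous_iff]
  intro t ε hε
  obtain ⟨δ, hδ, hd⟩ := Metric.continuous_iff.1 h t ε hε
  refine ⟨δ, hδ, fun s hs => ?_⟩
  have := hd s hs
  rw [dist_eq_norm] at this
  rw [dist_coe]
  exact this

lemma tendsto_cay_atTop : Tendsto cay atTop (𝓝 inft) := by
  rw [tendsto_iff_dist_tendsto_zero]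
  have h1 : ∀ᶠ t : ℝ in atTop, dist (cay t) inft ≤ 2 / t := by
    filter_upwards [eventually_gt_atTop 0] with t ht
    rw [dist_coe, coe_inft]
    have h2 : ((cay t : Circle) : ℂ) - -1 = 4 / (2 - Complex.I * t * (1 + ((1 : Circle) : ℂ))) := by
      have h3 := den_ne t 1
      show mobF t ((1 : Circle) : ℂ) - -1 = _
      unfold mobF
      rw [sub_neg_eq_add, div_add_one h3]
      congr 1
      simp
      ring
    rw [h2, norm_div]
    have h3 : 2 * t ≤ ‖2 - Complex.I * t * (1 + ((1 : Circle) : ℂ))‖ := by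
      refine le_trans ?_ (Complex.abs_im_le_norm _)
      simp
      rw [abs_of_pos (by positivity)]
      norm_num
      linarith
    have h4 : ‖(4 : ℂ)‖ = 4 := by simp
    rw [h4, div_le_div_iff₀ (lt_of_lt_of_le (by positivity) h3) ht]
    linarith
  refine squeeze_zero' (Eventually.of_forall fun t => dist_nonneg) h1 ?_
  exact tendsto_const_nhds.div_atTop tendsto_id

/-! ### orbits -/

section orbit

variable {q : ℝ → ℝ} {φ : T2 → ℝ} {x : ℕ → T3}

lemma orbit_ne (hx : ∀ n, x (n + 1) = FF q φ (x n)) (h0 : (x 0).2 ≠ inft) (n : ℕ) :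
    (x n).2 ≠ inft := by
  induction n with
  | zero => exact h0
  | succ n ih => rw [hx]; exact FF_ne ih

lemma orbit_tau (hx : ∀ n, x (n + 1) = FF q φ (x n)) (h0 : (x 0).2 ≠ inft) (n : ℕ) :
    tau (x (n + 1)).2 = tau (x n).2 + q (tau (x n).2) + φ (x (n + 1)).1 := by
  rw [hx n, tau_FF (orbit_ne hx h0 n)]

lemma orbit_const {x : ℕ → T3} {m : ℕ} (h : ∀ n ≥ m, (x (n + 1)).1 = (x n).1) :
    Tendsto (fun n => (x n).1) atTop (𝓝 (x m).1) := by
  have h1 : ∀ n ≥ m, (x n).1 = (x m).1 := by
    intro n hn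
    induction n, hn using Nat.le_induction with
    | base => rfl
    | succ n hn ih => rw [h n hn, ih]
  exact tendsto_const_nhds.congr' (by
    filter_upwards [eventually_ge_atTop m] with n hn using (h1 n hn).symm)

lemma orbit_conv (hx : ∀ n, x (n + 1) = FF q φ (x n)) (h0 : (x 0).2 ≠ inft) {l : Circle}
    (hl : Tendsto (fun n => cay (tau (x n).2)) atTop (𝓝 l)) {m : ℕ}
    (hm : ∀ n ≥ m, 2 ≤ |tau (x n).2|) : Tendsto x atTop (𝓝 ((x m).1, l)) := by
  refine Tendsto.prodMk_nhds (orbit_const fun n hn => ?_) ?_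
  · rw [hx n, FF_far (orbit_ne hx h0 n) (hm n hn)]
  · exact hl.congr fun n => cay_tau (orbit_ne hx h0 n)

/-- trichotomy for orbits -/
lemma orbit_cases (hqc : Continuous q) (hq0 : ∀ t, 0 ≤ q t) (hqz : ∀ t, q t = 0 → t = 0 ∨ 3 ≤ |t|)
    (hφ0 : ∀ z, 0 ≤ φ z) (hx : ∀ n, x (n + 1) = FF q φ (x n)) :
    (∃ l, Tendsto x atTop (𝓝 l)) ∨
      ((x 0).2 ≠ inft ∧ Tendsto (fun n => tau (x n).2) atTop (𝓝 0) ∧ ∀ n, tau (x n).2 ≤ 0) := by
  by_cases h0 : (x 0).2 = inft
  · left
    refine ⟨x 0, ?_⟩
    have h1 : ∀ n, x n = x 0 := by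
      intro n
      induction n with
      | zero => rfl
      | succ n ih =>
        rw [hx, ih]
        have : x 0 = ((x 0).1, inft) := by rw [← h0]
        rw [this, FF_inft]
    exact tendsto_const_nhds.congr fun n => (h1 n).symm
  · have hmono : Monotone (fun n => tau (x n).2) := by
      refine monotone_nat_of_le_succ fun n => ?_
      rw [orbit_tau hx h0 n]
      have := hq0 (tau (x n).2)
      have := hφ0 (x (n + 1)).1
      linarith
    rcases tendsto_atTop_of_monotone hmono with ht | ⟨L, hL⟩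
    · left
      obtain ⟨m, hm⟩ := eventually_atTop.1 (ht.eventually_ge_atTop 2)
      exact ⟨_, orbit_conv hx h0 (tendsto_cay_atTop.comp ht) (m := m) fun n hn =>
        (hm n hn).trans (le_abs_self _)⟩
    · have hle : ∀ n, tau (x n).2 ≤ L := fun n => hmono.ge_of_tendsto hL n
      have hqL : q L = 0 := by
        have h1 : Tendsto (fun n => tau (x (n + 1)).2 - tau (x n).2) atTop (𝓝 (L - L)) :=
          (hL.comp (tendsto_add_atTop_nat 1)).sub hL
        rw [sub_self] at h1
        have h2 : Tendsto (fun n => q (tau (x n).2)) atTop (𝓝 (q L)) :=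
          (hqc.tendsto L).comp hL
        have h3 : q L ≤ 0 := by
          refine le_of_tendsto_of_tendsto' h2 h1 fun n => ?_
          rw [orbit_tau hx h0 n]
          have := hφ0 (x (n + 1)).1
          linarith
        exact le_antisymm h3 (hq0 L)
      have hcay : Tendsto (fun n => cay (tau (x n).2)) atTop (𝓝 (cay L)) :=
        (continuous_cay.tendsto L).comp hL
      rcases hqz L hqL with h | h
      · right
        subst h
        exact ⟨h0, hL, hle⟩
      · left
        rcases le_abs.1 h with h1 | h1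
        · obtain ⟨m, hm⟩ := eventually_atTop.1 (hL.eventually_const_lt (by linarith : (2:ℝ) < L))
          exact ⟨_, orbit_conv hx h0 hcay (m := m) fun n hn =>
            (hm n hn).le.trans (le_abs_self _)⟩
        · exact ⟨_, orbit_conv hx h0 hcay (m := 0) fun n _ => by
            have := hle n
            rw [abs_of_nonpos (by linarith)]
            linarith⟩

end orbit

end Pool.Agent.Helper245.Orb
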