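import Pool.Agent.Helper245.Orb

/-!
Orbits which converge to the level of the horseshoe shadow it on long windows.
-/

open Filter Topology Finset

namespace Pool.Agent.Helper245.Sha

open Pool.Agent.Helper245.Sub Pool.Agent.Helper245.Cod Pool.Agent.Helper245.Geo
open Pool.Agent.Helper245.Dif Pool.Agent.Helper245.Orb

/-- inclusion of the torus -/
noncomputable def incl (z : T2) : ℂ × ℂ := ((z.1 : ℂ), (z.2 : ℂ))

lemma dist_incl (z w : T2) : dist (incl z) (incl w) = dist z w := by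
  unfold incl
  rw [Prod.dist_eq, Prod.dist_eq, dist_coe, dist_coe, dist_eq_norm, dist_eq_norm]

lemma norm_incl (z : T2) : ‖incl z‖ ≤ 1 := by
  unfold incl
  rw [Prod.norm_def, Circle.norm_coe, Circle.norm_coe, max_self]

lemma continuous_incl : Continuous incl := by
  rw [Metric.continuous_iff]
  intro z ε hε
  exact ⟨ε, hε, fun w hw => by rw [dist_incl]; exact hw⟩

/-- the target rate -/
noncomputable def rate (p : ℕ) (Λ : ℝ) (b : ℕ → ℝ) (n : ℕ) : ℝ :=
  2 * p * Real.log Λ * b (n + 1) + 1 / √((n : ℝ) + 1)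

lemma tendsto_rate (p : ℕ) (Λ : ℝ) {b : ℕ → ℝ} (hb : Tendsto b atTop (𝓝 0)) :
    Tendsto (rate p Λ b) atTop (𝓝 0) := by
  unfold rate
  have h1 : Tendsto (fun n : ℕ => 2 * p * Real.log Λ * b (n + 1)) atTop (𝓝 0) := by
    have := (hb.comp (tendsto_add_atTop_nat 1)).const_mul (2 * p * Real.log Λ)
    simpa using this
  have h2 : Tendsto (fun n : ℕ => 1 / √((n : ℝ) + 1)) atTop (𝓝 0) := by
    refine tendsto_const_nhds.div_atTop ?_
    exact Real.tendsto_sqrt_atTop.comp (tendsto_atTop_add_const_right _ _ tendsto_natCast_atTop_atTop)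
  simpa using h1.add h2

section shadow

variable {q : ℝ → ℝ} {φ : T2 → ℝ} {x : ℕ → T3} {X : Set (ℤ → Bool)} {b : ℕ → ℝ} {Λ c : ℝ}
  {p n₀ : ℕ}

theorem shadow (hXc : IsClosed X) (hXne : X.Nonempty)
    (hq0 : ∀ t, 0 ≤ q t) (hφ0 : ∀ z, 0 ≤ φ z)
    (hp : 0 < p) (hc : 0 < c)
    (hφ : ∀ z, c * Metric.infDist (incl z) (incl '' (cod '' X)) ^ p ≤ φ z)
    (hΛ : 1 ≤ Λ) (hlip : ∀ z w : T2, dist (gg z) (gg w) ≤ Λ * dist z w)
    (hb : ∀ n, 0 < b n)
    (hdr : ∀ (t : ℕ → ℝ) (m : ℕ), (∀ n, m ≤ n → t n ∈ Set.Icc (-1 : ℝ) 0) →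
        (∀ n, m ≤ n → t n + q (t n) ≤ t (n + 1)) →
        ∀ n, m ≤ n → n₀ ≤ n → |t n| ≤ Real.exp (-(((n : ℝ) - m) * rate p Λ b n)))
    (hx : ∀ n, x (n + 1) = FF q φ (x n)) (h0 : (x 0).2 ≠ inft)
    (hlim : Tendsto (fun n => tau (x n).2) atTop (𝓝 0)) (hle : ∀ n, tau (x n).2 ≤ 0)
    {ε : ℝ} (hε : 0 < ε) :
    ∃ n₁ : ℕ, ∀ n ≥ n₁, ∃ y ∈ X, ∀ i : ℕ, (i : ℝ) ≤ b n * n + 1 →
      dist (x (n + i)) (cod (sh (i : ℤ) y), 1) ≤ ε := by
  obtain ⟨m, hm⟩ := eventually_atTop.1 (hlim.eventually_const_le (by norm_num : (-1 : ℝ) < 0))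
  have hgg : ∀ n ≥ m, (x (n + 1)).1 = gg (x n).1 := by
    intro n hn
    rw [hx n, FF_near (orbit_ne hx h0 n)]
    rw [abs_of_nonpos (hle n)]
    linarith [hm n hn]
  have hφt : ∀ n, φ (x (n + 1)).1 ≤ |tau (x n).2| := by
    intro n
    have h1 := orbit_tau hx h0 n
    have h2 := hle (n + 1)
    have h3 := hq0 (tau (x n).2)
    rw [abs_of_nonpos (hle n)]
    linarith
  have hexp := hdr (fun n => tau (x n).2) m (fun n hn => ⟨hm n hn, hle n⟩) (fun n _ => by
    have h1 := orbit_tau hx h0 n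
    have h3 := hφ0 (x (n + 1)).1
    linarith)
  -- the third coordinate
  have hthird : Tendsto (fun n => (x n).2) atTop (𝓝 1) := by
    have h1 : Tendsto (fun n => cay (tau (x n).2)) atTop (𝓝 (cay 0)) :=
      (continuous_cay.tendsto 0).comp hlim
    rw [cay_zero] at h1
    exact h1.congr fun n => cay_tau (orbit_ne hx h0 n)
  obtain ⟨n₂, hn₂⟩ := eventually_atTop.1 ((Metric.tendsto_nhds.1 hthird) ε hε)
  -- the bound tends to zero
  have hbd : Tendsto (fun n : ℕ => Real.exp (p * Real.log Λ - √((n : ℝ) + 1) / 2) / c) atTop (𝓝 0) := by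
    have h1 : Tendsto (fun n : ℕ => √((n : ℝ) + 1) / 2) atTop atTop :=
      (Real.tendsto_sqrt_atTop.comp (tendsto_atTop_add_const_right _ _
        tendsto_natCast_atTop_atTop)).atTop_div_const (by norm_num)
    have h2 : Tendsto (fun n : ℕ => p * Real.log Λ - √((n : ℝ) + 1) / 2) atTop atBot := by
      have := tendsto_atBot_add_const_left atTop (p * Real.log Λ) (tendsto_neg_atTop_atBot.comp h1)
      exact this
    have := (Real.tendsto_exp_atBot.comp h2).div_const c
    simpa using this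
  obtain ⟨n₃, hn₃⟩ := eventually_atTop.1
    (hbd.eventually_le_const (by positivity : (0:ℝ) < ε ^ p))
  have hKc : IsCompact (incl '' (cod '' X)) :=
    ((hXc.isCompact).image continuous_cod).image continuous_incl
  have hKne : (incl '' (cod '' X)).Nonempty := (hXne.image _).image _
  have hlogΛ : 0 ≤ Real.log Λ := Real.log_nonneg hΛ
  refine ⟨max (max n₂ (n₃ + 1)) (max (2 * m + 2) (n₀ + 1)), fun n' hn' => ?_⟩
  obtain ⟨n, rfl⟩ : ∃ n, n' = n + 1 := ⟨n' - 1, by
    have : 2 * m + 2 ≤ n' := ((le_max_left _ _).trans (le_max_right _ _)).trans hn'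
    omega⟩
  have e1 : n₂ ≤ n + 1 := ((le_max_left _ _).trans (le_max_left _ _)).trans hn'
  have e2 : n₃ ≤ n := by
    have : n₃ + 1 ≤ n + 1 := ((le_max_right _ _).trans (le_max_left _ _)).trans hn'
    omega
  have e3 : 2 * m + 1 ≤ n := by
    have : 2 * m + 2 ≤ n + 1 := ((le_max_left _ _).trans (le_max_right _ _)).trans hn'
    omega
  have e4 : n₀ ≤ n := by
    have : n₀ + 1 ≤ n + 1 := ((le_max_right _ _).trans (le_max_right _ _)).trans hn'
    omega
  obtain ⟨w, hw, hdist⟩ := hKc.exists_infDist_eq_dist hKne (incl (x (n + 1)).1)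
  obtain ⟨_, ⟨y, hy, rfl⟩, rfl⟩ := hw
  refine ⟨y, hy, fun i hi => ?_⟩
  set d := dist (x (n + 1)).1 (cod y) with hd
  have hd' : Metric.infDist (incl (x (n + 1)).1) (incl '' (cod '' X)) = d := by
    rw [hdist, dist_incl]
  have hd0 : 0 ≤ d := dist_nonneg
  -- the induction
  have hind : ∀ j : ℕ, dist (x (n + 1 + j)).1 (cod (sh (j : ℤ) y)) ≤ Λ ^ j * d := by
    intro j
    induction j with
    | zero => simp [sh_zero, hd]
    | succ j ih =>
      have h1 : (x (n + 1 + (j + 1))).1 = gg (x (n + 1 + j)).1 := hgg (n + 1 + j) (by omega)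
      have h2 : cod (sh ((j + 1 : ℕ) : ℤ) y) = gg (cod (sh (j : ℤ) y)) := by
        rw [gg_cod, sh_add]
        congr 2
        push_cast
        ring
      rw [h1, h2]
      refine (hlip _ _).trans ?_
      rw [pow_succ]
      have h3 : 0 ≤ Λ := by linarith
      calc Λ * dist (x (n + 1 + j)).1 (cod (sh (j : ℤ) y)) ≤ Λ * (Λ ^ j * d) := by gcongr
        _ = Λ ^ j * Λ * d := by ring
  -- the estimate
  have hest : Λ ^ i * d ≤ ε := by
    have h1 : c * d ^ p ≤ Real.exp (-(((n : ℝ) - m) * rate p Λ b n)) := by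
      rw [← hd']
      exact (hφ _).trans ((hφt n).trans (hexp n (by omega) e4))
    have hΛ0 : 0 < Λ := by linarith
    have h2 : (Λ ^ i * d) ^ p ≤ Real.exp (p * Real.log Λ - √((n : ℝ) + 1) / 2) / c := by
      rw [mul_pow, le_div_iff₀ hc]
      have h3 : (Λ ^ i) ^ p = Real.exp (p * i * Real.log Λ) := by
        rw [← pow_mul, ← Real.rpow_natCast, Real.rpow_def_of_pos hΛ0]
        congr 1
        push_cast
        ring
      rw [h3]
      calc Real.exp (p * i * Real.log Λ) * d ^ p * c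
          = Real.exp (p * i * Real.log Λ) * (c * d ^ p) := by ring
        _ ≤ Real.exp (p * i * Real.log Λ) * Real.exp (-(((n : ℝ) - m) * rate p Λ b n)) := by
            gcongr
        _ = Real.exp (p * i * Real.log Λ - ((n : ℝ) - m) * rate p Λ b n) := by
            rw [← Real.exp_add]; ring_nf
        _ ≤ Real.exp (p * Real.log Λ - √((n : ℝ) + 1) / 2) := by
            apply Real.exp_le_exp.2
            unfold rate
            have hs : 0 < √((n : ℝ) + 1) := by positivity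
            have hs2 : √((n : ℝ) + 1) * √((n : ℝ) + 1) = n + 1 := Real.mul_self_sqrt (by positivity)
            have hnm : (n : ℝ) + 1 ≤ 2 * (n - m) := by
              have : (2 * m + 1 : ℝ) ≤ n := by exact_mod_cast e3
              linarith
            have h4 : √((n : ℝ) + 1) / 2 ≤ ((n : ℝ) - m) * (1 / √((n : ℝ) + 1)) := by
              rw [mul_one_div, le_div_iff₀ hs]
              linarith
            have h5 : (p : ℝ) * i * Real.log Λ ≤ p * (b (n + 1) * ((n : ℝ) + 1) + 1) * Real.log Λ := by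
              push_cast at hi
              gcongr
            have h6 : (0 : ℝ) ≤ p * Real.log Λ * b (n + 1) := by
              have := (hb (n + 1)).le
              positivity
            have h7 : (p : ℝ) * Real.log Λ * b (n + 1) * (n + 1) ≤
                p * Real.log Λ * b (n + 1) * (2 * (n - m)) := by gcongr
            linarith
    have h3 := h2.trans (hn₃ n e2)
    exact (pow_le_pow_iff_left₀ (by positivity) hε.le hp.ne').1 h3
  rw [Prod.dist_eq]
  refine max_le ((hind i).trans hest) ?_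
  exact (hn₂ (n + 1 + i) (by omega)).le

/-- averages along shadowing orbits -/
theorem avg_shadow {u : ℕ → ℝ} (hu : ∀ n, |u n| ≤ 1) (hb : ∀ n, 0 < b n)
    (hb0 : Tendsto b atTop (𝓝 0))
    (hrate : ∀ Φ : (ℤ → Bool) → ℂ, Continuous Φ → ∀ ε > 0, ∃ n₀ : ℕ, ∀ n ≥ n₀, ∀ L : ℕ,
        b n * n ≤ L → ∀ y ∈ X, ‖∑ i ∈ range L, (u (n + i) : ℂ) * Φ (sh (i : ℤ) y)‖ ≤ ε * L)
    (hsh : ∀ ε > 0, ∃ n₁ : ℕ, ∀ n ≥ n₁, ∃ y ∈ X, ∀ i : ℕ, (i : ℝ) ≤ b n * n + 1 →
      dist (x (n + i)) (cod (sh (i : ℤ) y), 1) ≤ ε) {f : T3 → ℂ} (hf : Continuous f) :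
    Tendsto (fun N : ℕ => (∑ n ∈ range N, (u n : ℂ) * f (x n)) / (N : ℂ)) atTop (𝓝 0) := by
  obtain ⟨C, hC⟩ := isCompact_univ.exists_bound_of_continuousOn (f := f) hf.continuousOn
  refine avg_of_windows (C := C) (fun n => ?_) fun ε hε => ?_
  · rw [norm_mul, Complex.norm_real]
    have h1 := hC (x n) (Set.mem_univ _)
    calc |u n| * ‖f (x n)‖ ≤ 1 * C := mul_le_mul (hu n) h1 (norm_nonneg _) zero_le_one
      _ = C := one_mul _
  · have huc := CompactSpace.uniformContinuous_of_continuous hf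
    obtain ⟨δ, hδ, hδf⟩ := Metric.uniformContinuous_iff.1 huc (ε / 2) (by positivity)
    obtain ⟨n₁, hn₁⟩ := hsh (δ / 2) (by positivity)
    obtain ⟨n₂, hn₂⟩ := hrate (fun y => f (cod y, 1))
      (hf.comp (continuous_cod.prodMk continuous_const)) (ε / 2) (by positivity)
    obtain ⟨n₃, hn₃⟩ := eventually_atTop.1 (hb0.eventually_le_const hε)
    refine ⟨max (max n₁ n₂) (max n₃ 1), fun n hn => ?_⟩
    have e1 : n₁ ≤ n := ((le_max_left _ _).trans (le_max_left _ _)).trans hn
    have e2 : n₂ ≤ n := ((le_max_right _ _).trans (le_max_left _ _)).trans hn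
    have e3 : n₃ ≤ n := ((le_max_left _ _).trans (le_max_right _ _)).trans hn
    have e4 : 1 ≤ n := ((le_max_right _ _).trans (le_max_right _ _)).trans hn
    have hn0 : (0 : ℝ) < n := by exact_mod_cast e4
    have hbn : 0 < b n * n := mul_pos (hb n) hn0
    refine ⟨⌈b n * n⌉₊, Nat.one_le_iff_ne_zero.2 (Nat.ceil_pos.2 hbn).ne', ?_, ?_⟩
    · refine (Nat.ceil_lt_add_one hbn.le).le.trans ?_
      have := hn₃ n e3
      gcongr
    · set L := ⌈b n * n⌉₊ with hL
      have hL1 : b n * n ≤ L := Nat.le_ceil _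
      have hL2 : (L : ℝ) ≤ b n * n + 1 := (Nat.ceil_lt_add_one hbn.le).le
      obtain ⟨y, hy, hyd⟩ := hn₁ n e1
      have h1 := hn₂ n e2 L hL1 y hy
      have h2 : ∑ i ∈ range L, (u (n + i) : ℂ) * f (x (n + i)) =
          ∑ i ∈ range L, (u (n + i) : ℂ) * (f (x (n + i)) - f (cod (sh (i : ℤ) y), 1)) +
          ∑ i ∈ range L, (u (n + i) : ℂ) * f (cod (sh (i : ℤ) y), 1) := by
        rw [← sum_add_distrib]
        exact sum_congr rfl fun i _ => by ring
      rw [h2]
      refine (norm_add_le _ _).trans ?_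
      have h3 : ‖∑ i ∈ range L, (u (n + i) : ℂ) * (f (x (n + i)) - f (cod (sh (i : ℤ) y), 1))‖ ≤
          ε / 2 * L := by
        refine (norm_sum_le _ _).trans ?_
        have h4 : ∀ i ∈ range L, ‖(u (n + i) : ℂ) * (f (x (n + i)) -
            f (cod (sh (i : ℤ) y), 1))‖ ≤ ε / 2 := by
          intro i hi
          have hi' : (i : ℝ) ≤ b n * n + 1 := by
            have : (i : ℝ) ≤ L := by exact_mod_cast (mem_range.1 hi).le
            linarith
          have h5 := hyd i hi'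
          have h6 := hδf (lt_of_le_of_lt h5 (by linarith))
          rw [dist_eq_norm] at h6
          rw [norm_mul, Complex.norm_real]
          calc _ ≤ 1 * (ε / 2) := mul_le_mul (hu _) h6.le (norm_nonneg _) zero_le_one
            _ = ε / 2 := one_mul _
        refine (sum_le_sum h4).trans ?_
        simp [mul_comm]
      linarith

end shadow

end Pool.Agent.Helper245.Sha
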