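import Mathlib

/-!
Large deviations for finite product spaces, by exponential moments.
-/

open Finset

namespace Pool.Agent.Helper245.Sub

lemma exp_le_quad {x : ℝ} (hx : |x| ≤ 1) : Real.exp x ≤ 1 + x + x ^ 2 := by
  have := (abs_le.1 (Real.abs_exp_sub_one_sub_id_le hx)).2
  linarith

set_option linter.unusedSectionVars false

variable {β : Type*} [DecidableEq β]

lemma sum_exp_le (B : Finset β) (Y : β → ℝ) (hY : ∀ b ∈ B, |Y b| ≤ 1)
    (h0 : ∑ b ∈ B, Y b = 0) {l : ℝ} (hl0 : 0 ≤ l) (hl1 : l ≤ 1) :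
    ∑ b ∈ B, Real.exp (l * Y b) ≤ #B * Real.exp (l ^ 2) := by
  have h1 : ∀ b ∈ B, Real.exp (l * Y b) ≤ 1 + l * Y b + l ^ 2 := by
    intro b hb
    have hYb := hY b hb
    have h2 : |l * Y b| ≤ 1 := by
      rw [abs_mul, abs_of_nonneg hl0]
      exact mul_le_one₀ hl1 (abs_nonneg _) hYb
    refine (exp_le_quad h2).trans ?_
    have h3 : (l * Y b) ^ 2 ≤ l ^ 2 := by
      rw [mul_pow]
      have : (Y b) ^ 2 ≤ 1 := by
        rw [← sq_abs]; exact pow_le_one₀ (abs_nonneg _) hYb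
      nlinarith [sq_nonneg l]
    linarith
  calc ∑ b ∈ B, Real.exp (l * Y b) ≤ ∑ b ∈ B, (1 + l * Y b + l ^ 2) := sum_le_sum h1
    _ = #B * (1 + l ^ 2) := by
        rw [sum_add_distrib, sum_add_distrib, ← mul_sum, h0]
        simp; ring
    _ ≤ #B * Real.exp (l ^ 2) := by
        gcongr
        linarith [Real.add_one_le_exp (l ^ 2)]

lemma card_upper (K : ℕ) (B : Finset β) (Y : Fin K → β → ℝ) (hY : ∀ t, ∀ b ∈ B, |Y t b| ≤ 1)
    (h0 : ∀ t, ∑ b ∈ B, Y t b = 0) {d : ℝ} (hd0 : 0 ≤ d) (hd1 : d ≤ 2) :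
    (#{b ∈ Fintype.piFinset (fun _ : Fin K => B) | d * K < ∑ t, Y t (b t)} : ℝ) ≤
      Real.exp (-(d ^ 2 / 4 * K)) * (#B : ℝ) ^ K := by
  set l : ℝ := d / 2 with hl
  have hl0 : 0 ≤ l := by positivity
  have hl1 : l ≤ 1 := by rw [hl]; linarith
  have h1 : ∑ b ∈ Fintype.piFinset (fun _ : Fin K => B), Real.exp (l * ∑ t, Y t (b t)) ≤
      (#B : ℝ) ^ K * Real.exp (l ^ 2 * K) := by
    have h2 : ∑ b ∈ Fintype.piFinset (fun _ : Fin K => B), Real.exp (l * ∑ t, Y t (b t)) =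
        ∏ t : Fin K, ∑ b ∈ B, Real.exp (l * Y t b) := by
      rw [Finset.prod_univ_sum]
      refine sum_congr rfl fun b _ => ?_
      rw [mul_sum, Real.exp_sum]
    rw [h2]
    calc ∏ t : Fin K, ∑ b ∈ B, Real.exp (l * Y t b)
        ≤ ∏ t : Fin K, (#B * Real.exp (l ^ 2)) := by
          refine prod_le_prod (fun t _ => sum_nonneg fun b _ => (Real.exp_pos _).le) fun t _ => ?_
          exact sum_exp_le B (Y t) (hY t) (h0 t) hl0 hl1
      _ = (#B : ℝ) ^ K * Real.exp (l ^ 2 * K) := by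
          rw [prod_const, mul_pow, ← Real.exp_nat_mul]
          simp [mul_comm]
  have h3 : (#{b ∈ Fintype.piFinset (fun _ : Fin K => B) | d * K < ∑ t, Y t (b t)} : ℝ) *
      Real.exp (l * (d * K)) ≤
      ∑ b ∈ Fintype.piFinset (fun _ : Fin K => B), Real.exp (l * ∑ t, Y t (b t)) := by
    rw [← nsmul_eq_mul, ← sum_const]
    refine (sum_le_sum (fun b hb => ?_)).trans
      (sum_le_sum_of_subset_of_nonneg (filter_subset _ _) fun b _ _ => (Real.exp_pos _).le)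
    have := (mem_filter.1 hb).2
    exact Real.exp_le_exp.2 (mul_le_mul_of_nonneg_left this.le hl0)
  have h4 := h3.trans h1
  have h5 : (#{b ∈ Fintype.piFinset (fun _ : Fin K => B) | d * K < ∑ t, Y t (b t)} : ℝ) ≤
      (#B : ℝ) ^ K * Real.exp (l ^ 2 * K) * Real.exp (-(l * (d * K))) := by
    rw [Real.exp_neg, ← div_eq_mul_inv, le_div_iff₀ (Real.exp_pos _)]
    exact h4
  refine h5.trans (le_of_eq ?_)
  rw [mul_assoc, ← Real.exp_add, mul_comm]
  congr 2
  rw [hl]; ring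

lemma card_bad (K : ℕ) (B : Finset β) (Y : Fin K → β → ℝ) (hY : ∀ t, ∀ b ∈ B, |Y t b| ≤ 1)
    (h0 : ∀ t, ∑ b ∈ B, Y t b = 0) {d : ℝ} (hd0 : 0 ≤ d) (hd1 : d ≤ 2) :
    (#{b ∈ Fintype.piFinset (fun _ : Fin K => B) | d * K < |∑ t, Y t (b t)|} : ℝ) ≤
      2 * Real.exp (-(d ^ 2 / 4 * K)) * (#B : ℝ) ^ K := by
  have h1 := card_upper K B Y hY h0 hd0 hd1
  have h2 := card_upper K B (fun t b => - Y t b) (fun t b hb => by simpa using hY t b hb)
    (fun t => by simpa using h0 t) hd0 hd1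
  have h3 : #{b ∈ Fintype.piFinset (fun _ : Fin K => B) | d * K < |∑ t, Y t (b t)|} ≤
      #{b ∈ Fintype.piFinset (fun _ : Fin K => B) | d * K < ∑ t, Y t (b t)} +
      #{b ∈ Fintype.piFinset (fun _ : Fin K => B) | d * K < ∑ t, - Y t (b t)} := by
    refine le_trans (card_le_card ?_) (card_union_le _ _)
    intro b hb
    rw [mem_filter] at hb
    rw [mem_union, mem_filter, mem_filter]
    rcases lt_abs.1 hb.2 with h | h
    · exact Or.inl ⟨hb.1, h⟩
    · right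
      refine ⟨hb.1, ?_⟩
      rw [sum_neg_distrib]; exact h
  have h4 : ((#{b ∈ Fintype.piFinset (fun _ : Fin K => B) | d * K < |∑ t, Y t (b t)|} : ℕ) : ℝ) ≤
      #{b ∈ Fintype.piFinset (fun _ : Fin K => B) | d * K < ∑ t, Y t (b t)} +
      #{b ∈ Fintype.piFinset (fun _ : Fin K => B) | d * K < ∑ t, - Y t (b t)} := by
    exact_mod_cast h3
  linarith

/-- marginals of the uniform measure on a product -/
lemma sum_marginal (K : ℕ) (B : Finset β) (h : β → ℝ) (t : Fin K) :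
    (∑ b ∈ Fintype.piFinset (fun _ : Fin K => B), h (b t)) * #B =
      (∑ b ∈ B, h b) * (#B : ℝ) ^ K := by
  have h1 : ∑ b ∈ Fintype.piFinset (fun _ : Fin K => B), h (b t) =
      ∏ s : Fin K, ∑ b ∈ B, (if s = t then h b else 1) := by
    rw [Finset.prod_univ_sum]
    refine sum_congr rfl fun b _ => ?_
    rw [Finset.prod_ite_eq' univ t (fun s => h (b s))]
    simp
  rw [h1]
  have h2 : ∀ s : Fin K, ∑ b ∈ B, (if s = t then h b else 1) =
      if s = t then ∑ b ∈ B, h b else (#B : ℝ) := by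
    intro s
    split_ifs <;> simp
  rw [Finset.prod_congr rfl fun s _ => h2 s]
  rw [← Finset.mul_prod_erase univ _ (mem_univ t)]
  rw [if_pos rfl]
  have h3 : ∏ s ∈ univ.erase t, (if s = t then ∑ b ∈ B, h b else (#B : ℝ)) = (#B : ℝ) ^ (K - 1) := by
    rw [prod_congr rfl (fun s hs => if_neg (ne_of_mem_erase hs)), prod_const]
    simp [card_erase_of_mem]
  rw [h3, mul_assoc, ← pow_succ]
  congr 2
  have := t.2
  omega

/-- average -/
noncomputable def avg (B : Finset β) (h : β → ℝ) : ℝ := (∑ b ∈ B, h b) / #B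

lemma avg_marginal (K : ℕ) {B : Finset β} (hB : B.Nonempty) (h : β → ℝ) (t : Fin K) :
    avg (Fintype.piFinset (fun _ : Fin K => B)) (fun b => h (b t)) = avg B h := by
  unfold avg
  have hB' : (0 : ℝ) < #B := by exact_mod_cast hB.card_pos
  have := sum_marginal K B h t
  rw [Fintype.card_piFinset]
  simp only [prod_const, card_univ, Fintype.card_fin, Nat.cast_pow]
  rw [div_eq_div_iff (by positivity) (by positivity)]
  exact this

lemma abs_avg_le {B : Finset β} {h : β → ℝ} {C : ℝ} (hC : 0 ≤ C) (hh : ∀ b ∈ B, |h b| ≤ C) :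
    |avg B h| ≤ C := by
  unfold avg
  rw [abs_div, Nat.abs_cast]
  refine div_le_of_le_mul₀ (Nat.cast_nonneg _) hC ?_
  refine (abs_sum_le_sum_abs _ _).trans ((sum_le_sum hh).trans ?_)
  simp [mul_comm]

lemma avg_sub_avg {S T : Finset β} (hST : S ⊆ T) {h : β → ℝ} (hh : ∀ b, |h b| ≤ 1) {r : ℝ}
    (hr : (1 - r) * #T ≤ #S) (hS : S.Nonempty) : |avg S h - avg T h| ≤ 2 * r := by
  have hS' : (0 : ℝ) < #S := by exact_mod_cast hS.card_pos
  have hT' : (0 : ℝ) < #T := by exact_mod_cast (hS.mono hST).card_pos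
  have hcard : (#(T \ S) : ℝ) = #T - #S := by
    rw [card_sdiff_of_subset hST, Nat.cast_sub (card_le_card hST)]
  have hsum : ∑ b ∈ T, h b = ∑ b ∈ S, h b + ∑ b ∈ T \ S, h b := by
    rw [add_comm]; exact (sum_sdiff hST).symm
  have h1 : |∑ b ∈ S, h b| ≤ #S := by
    refine (abs_sum_le_sum_abs _ _).trans ((sum_le_sum fun b _ => hh b).trans ?_)
    simp
  have h2 : |∑ b ∈ T \ S, h b| ≤ #T - #S := by
    rw [← hcard]
    refine (abs_sum_le_sum_abs _ _).trans ((sum_le_sum fun b _ => hh b).trans ?_)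
    simp
  have hle : (#S : ℝ) ≤ #T := by exact_mod_cast card_le_card hST
  unfold avg
  rw [hsum]
  have h3 : (∑ b ∈ S, h b) / #S - (∑ b ∈ S, h b + ∑ b ∈ T \ S, h b) / #T =
      (∑ b ∈ S, h b) / #S * ((#T - #S) / #T) - (∑ b ∈ T \ S, h b) / #T := by
    field_simp
    ring
  rw [h3]
  have h4 : |(∑ b ∈ S, h b) / #S| ≤ 1 := by
    rw [abs_div, abs_of_pos hS', div_le_one hS']; exact h1
  have h5 : (#T - #S : ℝ) / #T ≤ r := by
    rw [div_le_iff₀ hT']; linarith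
  have h6 : (0:ℝ) ≤ (#T - #S : ℝ) / #T := div_nonneg (by linarith) hT'.le
  have h7 : |(∑ b ∈ T \ S, h b) / #T| ≤ (#T - #S : ℝ) / #T := by
    rw [abs_div, abs_of_pos hT']
    gcongr
  calc |(∑ b ∈ S, h b) / #S * ((#T - #S) / #T) - (∑ b ∈ T \ S, h b) / #T|
      ≤ |(∑ b ∈ S, h b) / #S * ((#T - #S) / #T)| + |(∑ b ∈ T \ S, h b) / #T| := abs_sub _ _
    _ ≤ 1 * ((#T - #S) / #T) + (#T - #S) / #T := by
        rw [abs_mul, abs_of_nonneg h6]
        gcongr
    _ ≤ 2 * r := by linarith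

end Pool.Agent.Helper245.Sub
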