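import Pool.Agent.Helper245.SubA

/-!
One step of the block construction.
-/

open Finset

namespace Pool.Agent.Helper245.Sub

set_option linter.unusedSectionVars false

/-- the word seen from position `m` inside the block `b`, continued by `false` -/
def wd {l : ℕ} (b : Fin l → Bool) (m : ℕ) : ℕ → Bool :=
  fun i => if h : m + i < l then b ⟨m + i, h⟩ else false

/-- the right half line of `x` from `n` on -/
def sf (x : ℤ → Bool) (n : ℤ) : ℕ → Bool := fun i => x (n + i)

/-- the block of `x` of length `l` at position `a` -/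
def blk (x : ℤ → Bool) (a : ℤ) (l : ℕ) : Fin l → Bool := fun i => x (a + (i : ℕ))

/-- concatenation of blocks -/
def cat {K l : ℕ} (b : Fin K → Fin l → Bool) : Fin (K * l) → Bool := fun i => b i.divNat i.modNat

lemma cat_apply {K l : ℕ} (b : Fin K → Fin l → Bool) (t : Fin K) (m : Fin l)
    (h : (t : ℕ) * l + m < K * l) : cat b ⟨t * l + m, h⟩ = b t m := by
  unfold cat
  have hl : 0 < l := lt_of_le_of_lt (Nat.zero_le _) m.2
  have h1 : (⟨t * l + m, h⟩ : Fin (K * l)).divNat = t := by
    apply Fin.ext
    simp only [Fin.coe_divNat]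
    rw [mul_comm, Nat.mul_add_div hl, Nat.div_eq_of_lt m.2, add_zero]
  have h2 : (⟨t * l + m, h⟩ : Fin (K * l)).modNat = m := by
    apply Fin.ext
    simp only [Fin.coe_modNat]
    rw [mul_comm, Nat.mul_add_mod, Nat.mod_eq_of_lt m.2]
  rw [h1, h2]

lemma idx_lt {K l : ℕ} (t : Fin K) {m : ℕ} (hm : m < l) : (t : ℕ) * l + m < K * l := by
  have h1 : (t : ℕ) + 1 ≤ K := t.2
  calc (t : ℕ) * l + m < t * l + l := by omega
    _ = (t + 1) * l := by ring
    _ ≤ K * l := Nat.mul_le_mul_right l h1

lemma cat_injective {K l : ℕ} : Function.Injective (cat : (Fin K → Fin l → Bool) → _) := by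
  intro b b' h
  funext t m
  have h1 := cat_apply b t m (idx_lt t m.2)
  have h2 := cat_apply b' t m (idx_lt t m.2)
  rw [← h1, ← h2, h]

/-- a countable family of local test functions -/
structure Tests where
  /-- the functions -/
  f : ℕ → (ℕ → Bool) → ℝ
  /-- the window lengths -/
  r : ℕ → ℕ
  bd : ∀ i y, |f i y| ≤ 1
  loc : ∀ i y y', (∀ j < r i, y j = y' j) → f i y = f i y'

/-- a length and a finite set of words of this length -/
structure Lev where
  /-- the length -/
  len : ℕ
  /-- the words -/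
  B : Finset (Fin len → Bool)

/-- average of a test function at position `m` of a block -/
noncomputable def cc (T : Tests) (L : Lev) (i m : ℕ) : ℝ := avg L.B (fun b => T.f i (wd b m))

lemma abs_cc_le (T : Tests) (L : Lev) (i m : ℕ) : |cc T L i m| ≤ 1 :=
  abs_avg_le zero_le_one fun b _ => T.bd i _

lemma wd_cat {K l : ℕ} (b : Fin K → Fin l → Bool) (t : Fin K) {m i : ℕ} (h : m + i < l) :
    wd (cat b) (t * l + m) i = wd (b t) m i := by
  unfold wd
  have h1 : (t : ℕ) * l + (m + i) < K * l := idx_lt t h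
  rw [dif_pos h, dif_pos (by rw [add_assoc]; exact h1)]
  have := cat_apply b t ⟨m + i, h⟩ h1
  rw [← this]
  congr 1
  apply Fin.ext
  simp [add_assoc]

lemma blk_cat {K l : ℕ} {x : ℤ → Bool} {a : ℤ} {b : Fin K → Fin l → Bool}
    (h : blk x a (K * l) = cat b) (t : Fin K) : blk x (a + t * l) l = b t := by
  funext m
  have h1 := congrFun h ⟨t * l + m, idx_lt t m.2⟩
  rw [cat_apply] at h1
  rw [← h1]
  unfold blk
  congr 1
  push_cast
  ring

lemma sf_blk {l : ℕ} {x : ℤ → Bool} {a : ℤ} {b : Fin l → Bool} (h : blk x a l = b) {m i : ℕ}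
    (hm : m + i < l) : sf x (a + m) i = wd b m i := by
  unfold sf wd
  rw [dif_pos hm, ← h]
  unfold blk
  congr 1
  push_cast
  ring

section step

variable (T : Tests) (u : ℕ → ℝ) (L : Lev) (k K R : ℕ) (e : ℝ)

/-- admissible concatenations -/
def Good (b : Fin K → Fin L.len → Bool) : Prop :=
  ∀ i < k, ∀ A < R, |∑ t : Fin K, ∑ m ∈ range L.len,
    u (A + t * L.len + m) * (T.f i (wd (b t) m) - cc T L i m)| ≤ e * (K * L.len)

open Classical in
/-- the set of good sequences of blocks -/
noncomputable def goods : Finset (Fin K → Fin L.len → Bool) :=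
  {b ∈ Fintype.piFinset (fun _ : Fin K => L.B) | Good T u L k K R e b}

/-- the next level -/
noncomputable def step : Lev := ⟨K * L.len, (goods T u L k K R e).image cat⟩

/-- the fraction of removed words -/
noncomputable def rho (k K R : ℕ) (e : ℝ) : ℝ := k * R * (2 * Real.exp (-(e ^ 2 / 16 * K)))

variable {T u L k K R e}

lemma goods_subset : goods T u L k K R e ⊆ Fintype.piFinset (fun _ : Fin K => L.B) := by
  classical
  exact filter_subset _ _

lemma sum_centered (hB : L.B.Nonempty) (i m : ℕ) :
    ∑ b ∈ L.B, (T.f i (wd b m) - cc T L i m) = 0 := by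
  rw [sum_sub_distrib, sum_const, nsmul_eq_mul]
  unfold cc avg
  have : (0 : ℝ) < #L.B := by exact_mod_cast hB.card_pos
  field_simp
  ring

lemma card_one_bad (hu : ∀ n, |u n| ≤ 1) (hB : L.B.Nonempty) (hl : 0 < L.len) (he0 : 0 ≤ e)
    (he : e ≤ 4) (i A : ℕ) :
    (#{b ∈ Fintype.piFinset (fun _ : Fin K => L.B) | e * (K * L.len) < |∑ t : Fin K,
      ∑ m ∈ range L.len, u (A + t * L.len + m) * (T.f i (wd (b t) m) - cc T L i m)|} : ℝ) ≤
      2 * Real.exp (-(e ^ 2 / 16 * K)) * (#L.B : ℝ) ^ K := by
  have hl' : (0 : ℝ) < L.len := by exact_mod_cast hl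
  set Y : Fin K → (Fin L.len → Bool) → ℝ := fun t b =>
    (∑ m ∈ range L.len, u (A + t * L.len + m) * (T.f i (wd b m) - cc T L i m)) / (2 * L.len)
    with hYdef
  have hY : ∀ t, ∀ b ∈ L.B, |Y t b| ≤ 1 := by
    intro t b _
    simp only [hYdef]
    rw [abs_div, abs_of_pos (by positivity : (0:ℝ) < 2 * L.len), div_le_one (by positivity)]
    refine (abs_sum_le_sum_abs _ _).trans ?_
    have : ∀ m ∈ range L.len, |u (A + t * L.len + m) * (T.f i (wd b m) - cc T L i m)| ≤ 2 := by
      intro m _
      rw [abs_mul]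
      have h1 := hu (A + t * L.len + m)
      have h2 : |T.f i (wd b m) - cc T L i m| ≤ 2 := by
        refine (abs_sub _ _).trans ?_
        linarith [T.bd i (wd b m), abs_cc_le T L i m]
      calc _ ≤ 1 * 2 := mul_le_mul h1 h2 (abs_nonneg _) zero_le_one
        _ = 2 := by norm_num
    refine (sum_le_sum this).trans ?_
    simp [mul_comm]
  have h0 : ∀ t, ∑ b ∈ L.B, Y t b = 0 := by
    intro t
    simp only [hYdef]
    rw [← sum_div, sum_comm]
    rw [sum_eq_zero, zero_div]
    intro m _
    rw [← mul_sum, sum_centered hB, mul_zero]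
  have key := card_bad K L.B Y hY h0 (d := e / 2) (by positivity) (by linarith)
  have heq : ∀ b : Fin K → Fin L.len → Bool, (e * (K * L.len) < |∑ t : Fin K,
      ∑ m ∈ range L.len, u (A + t * L.len + m) * (T.f i (wd (b t) m) - cc T L i m)|) ↔
      (e / 2 * K < |∑ t, Y t (b t)|) := by
    intro b
    simp only [hYdef]
    rw [← sum_div, abs_div, abs_of_pos (by positivity : (0:ℝ) < 2 * L.len),
      lt_div_iff₀ (by positivity)]
    constructor <;> intro h <;> linarith
  simp only [heq]
  refine key.trans (le_of_eq ?_)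
  congr 4
  ring

lemma card_goods (hu : ∀ n, |u n| ≤ 1) (hB : L.B.Nonempty) (hl : 0 < L.len) (he0 : 0 ≤ e)
    (he : e ≤ 4) :
    (1 - rho k K R e) * (#L.B : ℝ) ^ K ≤ #(goods T u L k K R e) := by
  classical
  have h1 : (Fintype.piFinset (fun _ : Fin K => L.B)) \ goods T u L k K R e ⊆
      (range k ×ˢ range R).biUnion (fun p =>
        {b ∈ Fintype.piFinset (fun _ : Fin K => L.B) | e * (K * L.len) < |∑ t : Fin K,
      ∑ m ∈ range L.len, u (p.2 + t * L.len + m) * (T.f p.1 (wd (b t) m) - cc T L p.1 m)|}) := by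
    intro b hb
    rw [mem_sdiff] at hb
    unfold goods at hb
    rw [mem_filter] at hb
    have h2 : ¬ Good T u L k K R e b := fun h => hb.2 ⟨hb.1, h⟩
    unfold Good at h2
    push Not at h2
    obtain ⟨i, hi, A, hA, h3⟩ := h2
    rw [mem_biUnion]
    refine ⟨(i, A), ?_, ?_⟩
    · simp [hi, hA]
    · rw [mem_filter]; exact ⟨hb.1, h3⟩
  have h2 : (#((Fintype.piFinset (fun _ : Fin K => L.B)) \ goods T u L k K R e) : ℝ) ≤
      rho k K R e * (#L.B : ℝ) ^ K := by
    have h3 := (card_le_card h1).trans card_biUnion_le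
    have h4 : (#((Fintype.piFinset (fun _ : Fin K => L.B)) \ goods T u L k K R e) : ℝ) ≤
        ∑ p ∈ range k ×ˢ range R, (#{b ∈ Fintype.piFinset (fun _ : Fin K => L.B) |
          e * (K * L.len) < |∑ t : Fin K, ∑ m ∈ range L.len,
          u (p.2 + t * L.len + m) * (T.f p.1 (wd (b t) m) - cc T L p.1 m)|} : ℝ) := by
      exact_mod_cast h3
    refine h4.trans ((sum_le_sum fun p _ => card_one_bad hu hB hl he0 he p.1 p.2).trans ?_)
    rw [sum_const, card_product, card_range, card_range, nsmul_eq_mul]
    unfold rho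
    push_cast
    exact le_of_eq (by ring)
  have h5 : (#((Fintype.piFinset (fun _ : Fin K => L.B)) \ goods T u L k K R e) : ℝ) =
      (#L.B : ℝ) ^ K - #(goods T u L k K R e) := by
    have hsub : goods T u L k K R e ⊆ Fintype.piFinset (fun _ : Fin K => L.B) := filter_subset _ _
    rw [card_sdiff_of_subset hsub, Nat.cast_sub (card_le_card hsub), Fintype.card_piFinset]
    simp
  rw [h5] at h2
  linarith

lemma step_len : (step T u L k K R e).len = K * L.len := rfl

lemma card_step : #(step T u L k K R e).B = #(goods T u L k K R e) := by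
  unfold step
  exact card_image_of_injective _ cat_injective

/-- comparison of averages between consecutive levels -/
lemma cc_step (hu : ∀ n, |u n| ≤ 1) (hB : L.B.Nonempty) (hl : 0 < L.len) (he0 : 0 ≤ e)
    (he : e ≤ 4) (hr : rho k K R e < 1) (i : ℕ) (t : Fin K) {m : ℕ} (hm : m + T.r i ≤ L.len) :
    |cc T (step T u L k K R e) i (t * L.len + m) - cc T L i m| ≤ 2 * rho k K R e := by
  have hc := card_goods (T := T) (k := k) (K := K) (R := R) hu hB hl he0 he
  have hBp : (0 : ℝ) < #L.B := by exact_mod_cast hB.card_pos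
  have hne : (goods T u L k K R e).Nonempty := by
    rw [← card_pos]
    have : (0 : ℝ) < #(goods T u L k K R e) := by
      refine lt_of_lt_of_le ?_ hc
      have : (0 : ℝ) < 1 - rho k K R e := by linarith
      positivity
    exact_mod_cast this
  have h1 : cc T (step T u L k K R e) i (t * L.len + m) =
      avg (goods T u L k K R e) (fun b => T.f i (wd (b t) m)) := by
    unfold cc avg
    rw [card_step]
    congr 1
    unfold step
    simp only
    rw [sum_image (fun _ _ _ _ h => cat_injective h)]
    refine sum_congr rfl fun b _ => ?_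
    apply T.loc
    intro j hj
    exact wd_cat b t (by omega)
  have h2 : cc T L i m = avg (Fintype.piFinset (fun _ : Fin K => L.B))
      (fun b => T.f i (wd (b t) m)) := by
    rw [avg_marginal K hB (fun b => T.f i (wd b m)) t]
    rfl
  rw [h1, h2]
  refine avg_sub_avg goods_subset (fun b => T.bd i _) ?_ hne
  rw [Fintype.card_piFinset]
  simpa using hc

end step

end Pool.Agent.Helper245.Sub
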