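import Pool.Agent.Helper245.SubB

/-!
The hierarchy of blocks: parameters, cardinality and comparison of averages.
-/

open Finset

namespace Pool.Agent.Helper245.Sub

/-- number of blocks of level `k` in a block of level `k + 1` -/
def KK (k : ℕ) : ℕ := 16 ^ (k + 10)
/-- range of starting times controlled at level `k` -/
def RR (k : ℕ) : ℕ := 16 ^ ((k + 14) ^ 2)
/-- precision at level `k` -/
noncomputable def ee (k : ℕ) : ℝ := (1 / 2) ^ (k + 10)

lemma KK_pos (k : ℕ) : 0 < KK k := by unfold KK; positivity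
lemma ee_pos (k : ℕ) : 0 < ee k := by unfold ee; positivity
lemma ee_le (k : ℕ) : ee k ≤ 1 := pow_le_one₀ (by norm_num) (by norm_num)

lemma pow_ineq (k : ℕ) : 4 * (k + 14) ^ 2 + 2 * k + 5 ≤ 4 ^ (k + 8) := by
  induction k with
  | zero => norm_num
  | succ n ih =>
    have h1 : 4 ^ (n + 1 + 8) = 4 * 4 ^ (n + 8) := by rw [show n + 1 + 8 = (n + 8) + 1 by ring, pow_succ]; ring
    rw [h1]
    nlinarith

lemma two_pow_le_exp (n : ℕ) : (2 : ℝ) ^ n ≤ Real.exp n := by
  have h1 : (2 : ℝ) ≤ Real.exp 1 := by have := Real.add_one_le_exp (1:ℝ); linarith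
  calc (2 : ℝ) ^ n ≤ (Real.exp 1) ^ n := by gcongr
    _ = Real.exp n := by rw [← Real.exp_nat_mul, mul_one]

lemma rho_le (k : ℕ) : rho k (KK k) (RR k) (ee k) ≤ (1 / 2) ^ (k + 4) := by
  unfold rho
  have h1 : (ee k) ^ 2 / 16 * (KK k : ℕ) = ((4 ^ (k + 8) : ℕ) : ℝ) := by
    unfold ee KK
    push_cast
    have h2 : (16 : ℝ) ^ (k + 10) = 4 ^ (k + 10) * 4 ^ (k + 10) := by
      rw [← mul_pow]; norm_num
    have h3 : ((1 / 2 : ℝ) ^ (k + 10)) ^ 2 = 1 / 4 ^ (k + 10) := by
      rw [← pow_mul, mul_comm, pow_mul, one_div_pow, one_div_pow]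
      norm_num
    rw [h2, h3]
    have h4 : (4 : ℝ) ^ (k + 10) = 4 ^ (k + 8) * 16 := by
      rw [show k + 10 = (k + 8) + 2 by ring, pow_add]; norm_num
    rw [h4]
    field_simp
  rw [h1, Real.exp_neg]
  have h5 := two_pow_le_exp (4 ^ (k + 8))
  have h6 : (2 : ℝ) ^ (4 * (k + 14) ^ 2 + 2 * k + 5) ≤ 2 ^ (4 ^ (k + 8)) :=
    pow_le_pow_right₀ (by norm_num) (pow_ineq k)
  have h7 : (2 : ℝ) ^ (4 * (k + 14) ^ 2 + 2 * k + 5) ≤ Real.exp ((4 ^ (k + 8) : ℕ) : ℝ) := h6.trans h5
  have h8 : (RR k : ℝ) = 2 ^ (4 * (k + 14) ^ 2) := by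
    unfold RR
    push_cast
    rw [pow_mul]; norm_num
  have h9 : (k : ℝ) ≤ 2 ^ k := by exact_mod_cast (Nat.lt_two_pow_self).le
  have h10 : (k : ℝ) * RR k * 2 * 2 ^ (k + 4) ≤ Real.exp ((4 ^ (k + 8) : ℕ) : ℝ) := by
    refine le_trans ?_ h7
    rw [h8]
    calc (k : ℝ) * 2 ^ (4 * (k + 14) ^ 2) * 2 * 2 ^ (k + 4)
        ≤ 2 ^ k * 2 ^ (4 * (k + 14) ^ 2) * 2 * 2 ^ (k + 4) := by gcongr
      _ = 2 ^ (4 * (k + 14) ^ 2 + 2 * k + 5) :=
        (fun A : ℕ => (by ring : (2:ℝ) ^ k * 2 ^ A * 2 * 2 ^ (k + 4) = 2 ^ (A + 2 * k + 5))) _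
  have h11 : (1 / 2 : ℝ) ^ (k + 4) = 1 / 2 ^ (k + 4) := by rw [one_div_pow]
  rw [h11, le_div_iff₀ (by positivity)]
  have h12 := Real.exp_pos ((4 ^ (k + 8) : ℕ) : ℝ)
  calc (k : ℝ) * RR k * (2 * (Real.exp ((4 ^ (k + 8) : ℕ) : ℝ))⁻¹) * 2 ^ (k + 4)
      = ((k : ℝ) * RR k * 2 * 2 ^ (k + 4)) * (Real.exp ((4 ^ (k + 8) : ℕ) : ℝ))⁻¹ := by ring
    _ ≤ 1 := by
      rw [← div_eq_mul_inv, div_le_one h12]; exact h10

section hier

variable (T : Tests) (u : ℕ → ℝ)

/-- the hierarchy -/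
noncomputable def lev : ℕ → Lev
  | 0 => ⟨1, univ⟩
  | k + 1 => step T u (lev k) k (KK k) (RR k) (ee k)

lemma lev_succ (k : ℕ) : lev T u (k + 1) = step T u (lev T u k) k (KK k) (RR k) (ee k) := rfl
lemma lev_len_zero : (lev T u 0).len = 1 := rfl
lemma lev_len_succ (k : ℕ) : (lev T u (k + 1)).len = KK k * (lev T u k).len := rfl

lemma lev_len_pos (k : ℕ) : 0 < (lev T u k).len := by
  induction k with
  | zero => rw [lev_len_zero]; norm_num
  | succ n ih => rw [lev_len_succ]; exact Nat.mul_pos (KK_pos n) ih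

lemma lev_len_le (k : ℕ) : (lev T u k).len ≤ 16 ^ ((k + 10) ^ 2) := by
  induction k with
  | zero => rw [lev_len_zero]; exact Nat.one_le_pow _ _ (by norm_num)
  | succ n ih =>
    rw [lev_len_succ]
    unfold KK
    calc 16 ^ (n + 10) * (lev T u n).len ≤ 16 ^ (n + 10) * 16 ^ ((n + 10) ^ 2) := by gcongr
      _ = 16 ^ (n + 10 + (n + 10) ^ 2) := (pow_add _ _ _).symm
      _ ≤ 16 ^ ((n + 1 + 10) ^ 2) := by
        refine Nat.pow_le_pow_right (by norm_num) ?_
        nlinarith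

lemma le_lev_len (k : ℕ) : 2 ^ k ≤ (lev T u k).len := by
  induction k with
  | zero => rw [lev_len_zero]; norm_num
  | succ n ih =>
    rw [lev_len_succ, pow_succ, mul_comm]
    refine Nat.mul_le_mul ?_ ih
    unfold KK
    calc 2 ≤ 16 ^ 1 := by norm_num
      _ ≤ 16 ^ (n + 10) := Nat.pow_le_pow_right (by norm_num) (by omega)

lemma lev_len_dvd {j k : ℕ} (h : j ≤ k) : (lev T u j).len ∣ (lev T u k).len := by
  induction k, h using Nat.le_induction with
  | base => exact dvd_rfl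
  | succ n _ ih => rw [lev_len_succ]; exact ih.mul_left _

variable {T u}

lemma lev_card (hu : ∀ n, |u n| ≤ 1) (k : ℕ) : (lev T u k).B.Nonempty ∧
    ((lev T u k).len : ℝ) * (2 / 5 + (1 / 2) ^ k / 4) ≤ Real.log #(lev T u k).B := by
  induction k with
  | zero =>
    refine ⟨Finset.univ_nonempty, ?_⟩
    have h1 : #(lev T u 0).B = 2 := by
      show Fintype.card (Fin 1 → Bool) = 2
      simp
    rw [h1, lev_len_zero]
    have := Real.log_two_gt_d9
    norm_num at this ⊢
    linarith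
  | succ n ih =>
    obtain ⟨hne, hlog⟩ := ih
    have hr := rho_le n
    have hr2 : rho n (KK n) (RR n) (ee n) ≤ 1 / 16 := by
      refine hr.trans ?_
      have : (1 / 2 : ℝ) ^ (n + 4) ≤ (1 / 2) ^ 4 :=
        pow_le_pow_of_le_one (by norm_num) (by norm_num) (by omega)
      refine this.trans (by norm_num)
    have hc := card_goods (T := T) (k := n) (K := KK n) (R := RR n) hu hne (lev_len_pos T u n)
      (ee_pos n).le (by linarith [ee_le n])
    have hBp : (0 : ℝ) < #(lev T u n).B := by exact_mod_cast hne.card_pos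
    have hcard : #(lev T u (n + 1)).B = #(goods T u (lev T u n) n (KK n) (RR n) (ee n)) := card_step
    have hpos : (0 : ℝ) < (1 - rho n (KK n) (RR n) (ee n)) * (#(lev T u n).B : ℝ) ^ (KK n) := by
      have : (0 : ℝ) < 1 - rho n (KK n) (RR n) (ee n) := by linarith
      positivity
    have hgp : (0 : ℝ) < #(lev T u (n + 1)).B := by rw [hcard]; exact hpos.trans_le hc
    refine ⟨by rw [← card_pos]; exact_mod_cast hgp, ?_⟩
    have h1 : Real.log ((1 - rho n (KK n) (RR n) (ee n)) * (#(lev T u n).B : ℝ) ^ (KK n)) ≤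
        Real.log #(lev T u (n + 1)).B := by
      rw [hcard]; exact Real.log_le_log hpos hc
    rw [Real.log_mul (by linarith) (by positivity), Real.log_pow] at h1
    have h2 : -(2 * (1 / 2) ^ (n + 4)) ≤ Real.log (1 - rho n (KK n) (RR n) (ee n)) := by
      have h3 : 1 - (1 - rho n (KK n) (RR n) (ee n))⁻¹ ≤ Real.log (1 - rho n (KK n) (RR n) (ee n)) :=
        Real.one_sub_inv_le_log_of_pos (by linarith)
      refine le_trans ?_ h3
      have h4 : (1 - rho n (KK n) (RR n) (ee n))⁻¹ ≤ 1 + 2 * (1 / 2) ^ (n + 4) := by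
        rw [inv_le_comm₀ (by linarith) (by positivity)]
        rw [inv_le_iff_one_le_mul₀ (by positivity)]
        have h5 : (0 : ℝ) < (1 / 2) ^ (n + 4) := by positivity
        have h6 : (1 / 2 : ℝ) ^ (n + 4) ≤ 1 / 16 := by
          have : (1 / 2 : ℝ) ^ (n + 4) ≤ (1 / 2) ^ 4 :=
            pow_le_pow_of_le_one (by norm_num) (by norm_num) (by omega)
          refine this.trans (by norm_num)
        nlinarith
      linarith
    have hl1 : (1 : ℝ) ≤ (lev T u (n + 1)).len := by exact_mod_cast lev_len_pos T u (n + 1)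
    have hlen : ((lev T u (n + 1)).len : ℝ) = KK n * (lev T u n).len := by
      rw [lev_len_succ]; push_cast; rfl
    have h7 : (KK n : ℝ) * ((lev T u n).len * (2 / 5 + (1 / 2) ^ n / 4)) ≤
        KK n * Real.log #(lev T u n).B := by gcongr
    have h8 : (1 / 2 : ℝ) ^ (n + 4) = (1 / 2) ^ n / 16 := by rw [pow_add]; norm_num; ring
    have h9 : (1 / 2 : ℝ) ^ (n + 1) = (1 / 2) ^ n / 2 := by rw [pow_succ]; ring
    rw [h8] at h2
    rw [h9]
    have h10 : (0 : ℝ) < (1 / 2) ^ n := by positivity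
    have h11 : ((lev T u (n + 1)).len : ℝ) * (2 / 5 + (1 / 2) ^ n / 2 / 4) ≤
        (lev T u (n + 1)).len * (2 / 5 + (1 / 2) ^ n / 4) - (1 / 2) ^ n / 8 := by
      nlinarith
    have h12 : (KK n : ℝ) * ((lev T u n).len * (2 / 5 + (1 / 2) ^ n / 4)) =
        (lev T u (n + 1)).len * (2 / 5 + (1 / 2) ^ n / 4) := by rw [hlen]; ring
    linarith

lemma rho_lt_one (k : ℕ) : rho k (KK k) (RR k) (ee k) < 1 := by
  refine (rho_le k).trans_lt ?_
  exact pow_lt_one₀ (by norm_num) (by norm_num) (by omega)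

/-- the averages stabilise -/
lemma cc_tel (hu : ∀ n, |u n| ≤ 1) {j k : ℕ} (hjk : j ≤ k) (i : ℕ) : ∀ n < (lev T u k).len,
    n % (lev T u j).len + T.r i ≤ (lev T u j).len →
    |cc T (lev T u k) i n - cc T (lev T u j) i (n % (lev T u j).len)| ≤
      (1 / 2) ^ (j + 2) - (1 / 2) ^ (k + 2) := by
  induction k, hjk using Nat.le_induction with
  | base =>
    intro n hn _
    rw [Nat.mod_eq_of_lt hn]
    simp
  | succ k hjk ih =>
    intro n hn hr
    set l := (lev T u k).len with hl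
    have hlpos : 0 < l := lev_len_pos T u k
    have hdvd : (lev T u j).len ∣ l := lev_len_dvd T u hjk
    have hn' : n < KK k * l := hn
    have ht : n / l < KK k := (Nat.div_lt_iff_lt_mul hlpos).2 hn'
    have hm : n % l < l := Nat.mod_lt _ hlpos
    have hmod : (n % l) % (lev T u j).len = n % (lev T u j).len := Nat.mod_mod_of_dvd n hdvd
    have hml : n % l + T.r i ≤ l := by
      obtain ⟨d, hd⟩ := hdvd
      have hjp := lev_len_pos T u j
      have h1 := Nat.div_add_mod (n % l) (lev T u j).len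
      have h2 : (n % l) / (lev T u j).len < d := by
        rw [Nat.div_lt_iff_lt_mul hjp, mul_comm, ← hd]; exact hm
      rw [hmod] at h1
      have h3 : (lev T u j).len * ((n % l) / (lev T u j).len + 1) ≤ (lev T u j).len * d :=
        Nat.mul_le_mul_left _ h2
      rw [← hd] at h3
      calc n % l + T.r i = (lev T u j).len * ((n % l) / (lev T u j).len) +
            (n % (lev T u j).len + T.r i) := by omega
        _ ≤ (lev T u j).len * ((n % l) / (lev T u j).len) + (lev T u j).len := by omega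
        _ = (lev T u j).len * ((n % l) / (lev T u j).len + 1) := by ring
        _ ≤ l := h3
    have h1 := cc_step (T := T) (u := u) (L := lev T u k) (k := k) (K := KK k) (R := RR k) hu
      (lev_card hu k).1 hlpos (ee_pos k).le (by linarith [ee_le k]) (rho_lt_one k) i ⟨n / l, ht⟩ hml
    have h2 := ih (n % l) hm (by rw [hmod]; exact hr)
    rw [hmod] at h2
    have h3 : (⟨n / l, ht⟩ : Fin (KK k)).val * l + n % l = n := by
      simp only
      rw [mul_comm]; exact Nat.div_add_mod n l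
    rw [← hl, h3] at h1
    have h4 : cc T (lev T u (k + 1)) i n =
        cc T (step T u (lev T u k) k (KK k) (RR k) (ee k)) i n := rfl
    rw [h4]
    have h5 := rho_le k
    have h6 : (1 / 2 : ℝ) ^ (k + 4) = (1 / 2) ^ (k + 2) / 4 := by
      rw [show k + 4 = (k + 2) + 2 by ring, pow_add]; norm_num; ring
    have h7 : (1 / 2 : ℝ) ^ (k + 1 + 2) = (1 / 2) ^ (k + 2) / 2 := by
      rw [show k + 1 + 2 = (k + 2) + 1 by ring, pow_succ]; ring
    rw [h7]
    rw [h6] at h5
    have h8 := abs_sub_le (cc T (step T u (lev T u k) k (KK k) (RR k) (ee k)) i n)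
      (cc T (lev T u k) i (n % l)) (cc T (lev T u j) i (n % (lev T u j).len))
    linarith

end hier

end Pool.Agent.Helper245.Sub
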