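import Pool.Agent.Helper245.SubC

/-!
The subshift and the uniform estimate.
-/

open Finset

namespace Pool.Agent.Helper245.Sub

attribute [local irreducible] KK RR ee lev

/-- splitting a sum into blocks -/
lemma sum_range_mul' (F : ℕ → ℝ) (K l : ℕ) :
    ∑ j ∈ range (K * l), F j = ∑ t : Fin K, ∑ m ∈ range l, F (t * l + m) := by
  rw [Fin.sum_univ_eq_sum_range (fun t => ∑ m ∈ range l, F (t * l + m)) K]
  induction K with
  | zero => simp
  | succ K ih =>
    rw [Nat.succ_mul, sum_range_add, ih, sum_range_succ]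

lemma abs_sum_range_le {g : ℕ → ℝ} {C : ℝ} (hg : ∀ n, |g n| ≤ C) (N : ℕ) :
    |∑ n ∈ range N, g n| ≤ N * C := by
  refine (abs_sum_le_sum_abs _ _).trans ((sum_le_sum fun n _ => hg n).trans ?_)
  simp

lemma block_sum {g : ℕ → ℝ} {C E : ℝ} (hg : ∀ n, |g n| ≤ C) {L p N : ℕ} (hL : 0 < L)
    (hp : p < L) (hE0 : 0 ≤ E)
    (hE : ∀ s : ℕ, p + s * L + L ≤ N → |∑ m ∈ range L, g (p + s * L + m)| ≤ E) :
    |∑ n ∈ range N, g n| ≤ N / L * E + 2 * L * C := by
  have hC : 0 ≤ C := (abs_nonneg _).trans (hg 0)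
  have hL' : (0 : ℝ) < L := by exact_mod_cast hL
  rcases lt_or_ge N p with h | h
  · have h1 := abs_sum_range_le hg N
    have h2 : (N : ℝ) ≤ L := by exact_mod_cast (h.trans hp).le
    have h3 : (0 : ℝ) ≤ N / L * E := by positivity
    nlinarith
  · obtain ⟨M, rfl⟩ := Nat.exists_eq_add_of_le h
    have h1 : M = (M / L) * L + M % L := by rw [mul_comm]; exact (Nat.div_add_mod M L).symm
    have h2 : ∀ q : ℕ, q ≤ M / L → |∑ j ∈ range (q * L), g (p + j)| ≤ q * E := by
      intro q
      induction q with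
      | zero => intro _; simp
      | succ q ih =>
        intro hq
        rw [Nat.succ_mul, sum_range_add]
        have h3 := ih (by omega)
        have h4 : p + q * L + L ≤ p + M := by
          have h5 : (q + 1) * L ≤ (M / L) * L := Nat.mul_le_mul_right L hq
          have h6 : (M / L) * L ≤ M := Nat.div_mul_le_self M L
          have h7 : (q + 1) * L = q * L + L := by ring
          omega
        have h5 := hE q h4
        have h6 : ∑ x ∈ range L, g (p + (q * L + x)) = ∑ m ∈ range L, g (p + q * L + m) :=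
          sum_congr rfl fun m _ => by rw [add_assoc]
        rw [h6]
        refine (abs_add_le _ _).trans ?_
        push_cast
        linarith
    have h3 : ∑ n ∈ range (p + M), g n = ∑ n ∈ range p, g n + ∑ j ∈ range ((M / L) * L), g (p + j) +
        ∑ j ∈ range (M % L), g (p + ((M / L) * L + j)) := by
      rw [sum_range_add, add_assoc]
      congr 1
      conv_lhs => rw [h1]
      rw [sum_range_add]
    rw [h3]
    have h4 := abs_sum_range_le hg p
    have h5 := h2 (M / L) le_rfl
    have h6 := abs_sum_range_le (g := fun j => g (p + ((M / L) * L + j))) (fun n => hg _) (M % L)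
    have h7 : ((M / L : ℕ) : ℝ) ≤ ((p + M : ℕ) : ℝ) / L := by
      rw [le_div_iff₀ hL']
      have : (M / L) * L ≤ p + M := (Nat.div_mul_le_self M L).trans (Nat.le_add_left _ _)
      exact_mod_cast this
    have h8 : (p : ℝ) ≤ L := by exact_mod_cast hp.le
    have h9 : ((M % L : ℕ) : ℝ) ≤ L := by exact_mod_cast (Nat.mod_lt M hL).le
    calc _ ≤ |∑ n ∈ range p, g n| + |∑ j ∈ range ((M / L) * L), g (p + j)| +
        |∑ j ∈ range (M % L), g (p + ((M / L) * L + j))| :=
          (abs_add_le _ _).trans (add_le_add_left (abs_add_le _ _) _)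
      _ ≤ p * C + ((M / L : ℕ) : ℝ) * E + ((M % L : ℕ) : ℝ) * C := by linarith
      _ ≤ L * C + ((p + M : ℕ) : ℝ) / L * E + L * C := by gcongr
      _ = _ := by ring

/-- position of `n` in its block of length `l`, for the phase `p` -/
def ps (p : ℤ) (l n : ℕ) : ℕ := (((n : ℤ) - p) % (l : ℤ)).toNat

lemma ps_cast (p : ℤ) {l : ℕ} (hl : 0 < l) (n : ℕ) : (ps p l n : ℤ) = ((n : ℤ) - p) % (l : ℤ) := by
  unfold ps
  exact Int.toNat_of_nonneg (Int.emod_nonneg _ (by omega))

lemma ps_lt (p : ℤ) {l : ℕ} (hl : 0 < l) (n : ℕ) : ps p l n < l := by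
  have h := ps_cast p hl n
  have h2 := Int.emod_lt_of_pos ((n : ℤ) - p) (by omega : (0:ℤ) < l)
  omega

lemma ps_mod (p : ℤ) {l l' : ℕ} (hl : 0 < l) (hl' : 0 < l') (h : l ∣ l') (n : ℕ) :
    ps p l' n % l = ps p l n := by
  have h1 := ps_cast p hl n
  have h2 := ps_cast p hl' n
  have h3 : ((ps p l' n % l : ℕ) : ℤ) = (ps p l n : ℕ) := by
    push_cast
    rw [h1, h2, Int.emod_emod_of_dvd _ (by exact_mod_cast h)]
  exact_mod_cast h3

lemma ps_eq {p : ℤ} {l : ℕ} (hl : 0 < l) {a m : ℕ} (h : (l : ℤ) ∣ (a : ℤ) - p) (hm : m < l) :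
    ps p l (a + m) = m := by
  have h1 := ps_cast p hl (a + m)
  obtain ⟨c, hc⟩ := h
  have h2 : (((a + m : ℕ) : ℤ) - p) = m + l * c := by push_cast; linarith
  rw [h2, Int.add_mul_emod_self_left, Int.emod_eq_of_lt (by omega) (by omega)] at h1
  exact_mod_cast h1

/-- aligned starting points -/
lemma exists_phase (p : ℤ) {L : ℕ} (hL : 0 < L) : ∃ p' : ℕ, p' < L ∧
    ∀ s : ℕ, (L : ℤ) ∣ ((p' + s * L : ℕ) : ℤ) - p := by
  refine ⟨(p % (L : ℤ)).toNat, ?_, ?_⟩
  · have := Int.emod_lt_of_pos p (by omega : (0:ℤ) < L)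
    have := Int.emod_nonneg p (by omega : (L:ℤ) ≠ 0)
    omega
  · intro s
    have h1 := Int.emod_nonneg p (by omega : (L:ℤ) ≠ 0)
    push_cast
    rw [Int.toNat_of_nonneg h1]
    have h2 := Int.emod_add_mul_ediv p (L : ℤ)
    refine ⟨s - p / L, ?_⟩
    linarith [mul_sub (L : ℤ) s (p / L), mul_comm (L : ℤ) (s : ℤ)]

lemma card_tail (l r : ℕ) : (#{m ∈ range l | ¬ (m + r ≤ l)} : ℝ) ≤ r := by
  have : #{m ∈ range l | ¬ (m + r ≤ l)} ≤ r := by
    have h1 : {m ∈ range l | ¬ (m + r ≤ l)} ⊆ Ico (l - r) l := by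
      intro m hm
      rw [mem_filter, mem_range] at hm
      rw [mem_Ico]
      omega
    refine (card_le_card h1).trans ?_
    rw [Nat.card_Ico]
    omega
  exact_mod_cast this

section est

variable (T : Tests) (u : ℕ → ℝ)

/-- `x` is a concatenation of blocks of level `k` with phase `p` -/
def Par (k : ℕ) (x : ℤ → Bool) (p : ℤ) : Prop :=
  ∀ a : ℤ, ((lev T u k).len : ℤ) ∣ a - p → blk x a (lev T u k).len ∈ (lev T u k).B

variable {T u}

lemma par_split {k : ℕ} {x : ℤ → Bool} {a : ℤ}
    (h : blk x a (lev T u (k + 1)).len ∈ (lev T u (k + 1)).B) :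
    ∃ b ∈ goods T u (lev T u k) k (KK k) (RR k) (ee k),
      ∀ t : Fin (KK k), blk x (a + t * (lev T u k).len) (lev T u k).len = b t := by
  rw [lev_succ] at h
  have h1 : blk x a (KK k * (lev T u k).len) ∈
      (goods T u (lev T u k) k (KK k) (RR k) (ee k)).image cat := h
  rw [mem_image] at h1
  obtain ⟨b, hb, hbx⟩ := h1
  exact ⟨b, hb, fun t => blk_cat hbx.symm t⟩

lemma par_anti {k : ℕ} {x : ℤ → Bool} {p : ℤ} (h : Par T u (k + 1) x p) : Par T u k x p := by
  intro a ha
  have hlp := lev_len_pos T u k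
  have hKp := KK_pos k
  obtain ⟨c, hc⟩ := ha
  set K : ℤ := (KK k : ℤ) with hK
  have hK0 : 0 < K := by rw [hK]; exact_mod_cast hKp
  have h1 : c % K + K * (c / K) = c := Int.emod_add_mul_ediv c K
  have h2 : 0 ≤ c % K := Int.emod_nonneg c hK0.ne'
  have h3 : c % K < K := Int.emod_lt_of_pos c hK0
  have h4 : ((lev T u (k + 1)).len : ℤ) ∣ (a - (c % K) * (lev T u k).len) - p := by
    refine ⟨c / K, ?_⟩
    rw [lev_len_succ]
    push_cast
    have : a - c % K * (lev T u k).len - p = (lev T u k).len * (c - c % K) := by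
      linear_combination hc
    rw [this]
    have h5 : c - c % K = K * (c / K) := by linarith
    rw [h5]; ring
  obtain ⟨b, hb, hbt⟩ := par_split (h _ h4)
  have ht : (c % K).toNat < KK k := by omega
  have h5 := hbt ⟨(c % K).toNat, ht⟩
  have h6 : a - c % K * (lev T u k).len + ((⟨(c % K).toNat, ht⟩ : Fin (KK k)).val : ℤ) *
      (lev T u k).len = a := by
    simp only
    rw [Int.toNat_of_nonneg h2]; ring
  rw [h6] at h5
  rw [h5]
  have h7 := goods_subset hb
  rw [Fintype.mem_piFinset] at h7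
  exact h7 _

lemma par_le {j k : ℕ} (hjk : j ≤ k) {x : ℤ → Bool} {p : ℤ} (h : Par T u k x p) :
    Par T u j x p := by
  induction k, hjk using Nat.le_induction with
  | base => exact h
  | succ n _ ih => exact ih (par_anti h)

/-- one complete block -/
lemma one_block (hu : ∀ n, |u n| ≤ 1) {k : ℕ} {x : ℤ → Bool} {p : ℤ} {a : ℕ}
    (ha : ((lev T u (k + 1)).len : ℤ) ∣ (a : ℤ) - p)
    (hx : blk x a (lev T u (k + 1)).len ∈ (lev T u (k + 1)).B) {i : ℕ} (hi : i < k)
    (haR : a < RR k) :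
    |∑ j ∈ range (lev T u (k + 1)).len, u (a + j) * (T.f i (sf x ((a + j : ℕ) : ℤ)) -
      cc T (lev T u k) i (ps p (lev T u k).len (a + j)))| ≤
      ee k * (KK k * (lev T u k).len) + KK k * (2 * T.r i) := by
  set l := (lev T u k).len with hl
  have hlp : 0 < l := lev_len_pos T u k
  obtain ⟨b, hb, hbt⟩ := par_split hx
  have hgood : Good T u (lev T u k) k (KK k) (RR k) (ee k) b := by
    classical
    unfold goods at hb
    exact (mem_filter.1 hb).2
  have h1 := hgood i hi a haR
  rw [lev_len_succ, ← hl, sum_range_mul' (fun j => u (a + j) * (T.f i (sf x ((a + j : ℕ) : ℤ)) -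
      cc T (lev T u k) i (ps p l (a + j)))) (KK k) l]
  have hdiv : ∀ t : Fin (KK k), (l : ℤ) ∣ ((a + t * l : ℕ) : ℤ) - p := by
    intro t
    have h2 : (l : ℤ) ∣ (a : ℤ) - p := by
      refine dvd_trans ?_ ha
      rw [lev_len_succ]
      push_cast
      exact dvd_mul_left _ _
    obtain ⟨c, hc⟩ := h2
    refine ⟨c + t, ?_⟩
    push_cast
    linear_combination hc
  have h2 : ∀ t : Fin (KK k), ∀ m ∈ range l,
      u (a + (t * l + m)) * (T.f i (sf x ((a + (t * l + m) : ℕ) : ℤ)) -
        cc T (lev T u k) i (ps p l (a + (t * l + m)))) =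
      u (a + t * l + m) * (T.f i (wd (b t) m) - cc T (lev T u k) i m) +
      u (a + t * l + m) * (T.f i (sf x ((a + (t * l + m) : ℕ) : ℤ)) - T.f i (wd (b t) m)) := by
    intro t m hm
    rw [← add_assoc a, ps_eq hlp (hdiv t) (mem_range.1 hm)]
    ring
  rw [sum_congr rfl fun t _ => sum_congr rfl (h2 t)]
  simp only [sum_add_distrib]
  refine (abs_add_le _ _).trans (add_le_add h1 ?_)
  refine (abs_sum_le_sum_abs _ _).trans ?_
  have h3 : ∀ t : Fin (KK k), |∑ m ∈ range l, u (a + t * l + m) *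
      (T.f i (sf x ((a + (t * l + m) : ℕ) : ℤ)) - T.f i (wd (b t) m))| ≤ 2 * T.r i := by
    intro t
    refine (abs_sum_le_sum_abs _ _).trans ?_
    have h4 : ∀ m ∈ range l, |u (a + t * l + m) *
      (T.f i (sf x ((a + (t * l + m) : ℕ) : ℤ)) - T.f i (wd (b t) m))| ≤
        if ¬ (m + T.r i ≤ l) then 2 else 0 := by
      intro m hm
      by_cases h5 : ¬ (m + T.r i ≤ l)
      · rw [if_pos h5, abs_mul]
        have h6 := hu (a + t * l + m)
        have h7 : |T.f i (sf x ((a + (t * l + m) : ℕ) : ℤ)) - T.f i (wd (b t) m)| ≤ 2 := by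
          refine (abs_sub _ _).trans ?_
          linarith [T.bd i (sf x ((a + (t * l + m) : ℕ) : ℤ)), T.bd i (wd (b t) m)]
        calc _ ≤ 1 * 2 := mul_le_mul h6 h7 (abs_nonneg _) zero_le_one
          _ = 2 := by norm_num
      · rw [if_neg h5]
        push Not at h5
        have h6 : T.f i (sf x ((a + (t * l + m) : ℕ) : ℤ)) = T.f i (wd (b t) m) := by
          apply T.loc
          intro j hj
          have h7 := sf_blk (hbt t) (m := m) (i := j) (by omega)
          rw [← h7]
          congr 1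
          push_cast
          ring
        rw [h6, sub_self, mul_zero, abs_zero]
    refine (sum_le_sum h4).trans ?_
    rw [← sum_filter, sum_const, nsmul_eq_mul]
    have := card_tail l (T.r i)
    linarith
  refine (sum_le_sum fun t _ => h3 t).trans ?_
  simp

lemma est_one (hu : ∀ n, |u n| ≤ 1) {k : ℕ} {x : ℤ → Bool} {p : ℤ} (hx : Par T u (k + 1) x p)
    {i : ℕ} (hi : i < k) {N : ℕ} (hN : N ≤ RR k) :
    |∑ n ∈ range N, u n * (T.f i (sf x (n : ℤ)) -
      cc T (lev T u k) i (ps p (lev T u k).len n))| ≤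
      N * (ee k + 2 * T.r i / (lev T u k).len) + 4 * (lev T u (k + 1)).len := by
  set l := (lev T u k).len with hl
  have hlp : 0 < l := lev_len_pos T u k
  set L := (lev T u (k + 1)).len with hL
  have hLp : 0 < L := lev_len_pos T u (k + 1)
  have hLK : (L : ℝ) = KK k * l := by rw [hL, lev_len_succ]; push_cast; rfl
  obtain ⟨p', hp', hdiv⟩ := exists_phase p hLp
  have hC : ∀ n, |u n * (T.f i (sf x (n : ℤ)) - cc T (lev T u k) i (ps p l n))| ≤ 2 := by
    intro n
    rw [abs_mul]
    have h7 : |T.f i (sf x (n : ℤ)) - cc T (lev T u k) i (ps p l n)| ≤ 2 := by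
      refine (abs_sub _ _).trans ?_
      linarith [T.bd i (sf x (n : ℤ)), abs_cc_le T (lev T u k) i (ps p l n)]
    calc _ ≤ 1 * 2 := mul_le_mul (hu n) h7 (abs_nonneg _) zero_le_one
      _ = 2 := by norm_num
  have h1 := block_sum hC (L := L) (p := p') (N := N) (E := ee k * (KK k * l) + KK k * (2 * T.r i))
    hLp hp' (by have := ee_pos k; positivity) (by
      intro s hs
      have h2 := one_block hu (hdiv s) (hx _ (hdiv s)) hi (by omega)
      exact h2)
  refine h1.trans ?_
  have hl' : (0 : ℝ) < l := by exact_mod_cast hlp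
  have hK' : (0 : ℝ) < KK k := by exact_mod_cast KK_pos k
  have h3 : (N : ℝ) / L * (ee k * (KK k * l) + KK k * (2 * T.r i)) =
      N * (ee k + 2 * T.r i / l) := by
    rw [hLK]
    field_simp
  rw [h3]
  linarith

lemma est_two (hu : ∀ n, |u n| ≤ 1) {j k : ℕ} (hjk : j ≤ k) (p : ℤ) (i N : ℕ) :
    |∑ n ∈ range N, u n * (cc T (lev T u k) i (ps p (lev T u k).len n) -
      cc T (lev T u j) i (ps p (lev T u j).len n))| ≤
      N * ((1 / 2) ^ (j + 2) + 2 * T.r i / (lev T u j).len) + 4 * (lev T u j).len := by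
  set l := (lev T u j).len with hl
  have hlp : 0 < l := lev_len_pos T u j
  have hlp' : (0 : ℝ) < l := by exact_mod_cast hlp
  obtain ⟨p', hp', hdiv⟩ := exists_phase p hlp
  set g : ℕ → ℝ := fun n => if ps p l n + T.r i ≤ l then 0 else 2 with hg
  have h1 : ∀ n ∈ range N, |u n * (cc T (lev T u k) i (ps p (lev T u k).len n) -
      cc T (lev T u j) i (ps p l n))| ≤ (1 / 2) ^ (j + 2) + g n := by
    intro n _
    rw [abs_mul]
    have h2 : |cc T (lev T u k) i (ps p (lev T u k).len n) - cc T (lev T u j) i (ps p l n)| ≤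
        (1 / 2) ^ (j + 2) + g n := by
      by_cases h3 : ps p l n + T.r i ≤ l
      · simp only [hg, if_pos h3, add_zero]
        have hmod := ps_mod p hlp (lev_len_pos T u k) (lev_len_dvd T u hjk) n
        have h4 := cc_tel (T := T) hu hjk i (ps p (lev T u k).len n) (ps_lt p (lev_len_pos T u k) n)
          (by rw [hmod]; exact h3)
        rw [hmod] at h4
        have h5 : (0 : ℝ) < (1 / 2) ^ (k + 2) := by positivity
        linarith
      · simp only [hg, if_neg h3]
        refine (abs_sub _ _).trans ?_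
        have h5 : (0 : ℝ) < (1 / 2) ^ (j + 2) := by positivity
        linarith [abs_cc_le T (lev T u k) i (ps p (lev T u k).len n),
          abs_cc_le T (lev T u j) i (ps p l n)]
    calc _ ≤ 1 * ((1 / 2) ^ (j + 2) + g n) := mul_le_mul (hu n) h2 (abs_nonneg _) zero_le_one
      _ = _ := one_mul _
  have hgC : ∀ n, |g n| ≤ 2 := by
    intro n
    simp only [hg]
    split_ifs <;> norm_num
  have h2 := block_sum hgC (L := l) (p := p') (N := N) (E := 2 * T.r i) hlp hp' (by positivity) (by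
    intro s _
    have h3 : ∀ m ∈ range l, g (p' + s * l + m) = if ¬ (m + T.r i ≤ l) then 2 else 0 := by
      intro m hm
      simp only [hg]
      rw [ps_eq hlp (hdiv s) (mem_range.1 hm)]
      split_ifs <;> simp_all
    rw [sum_congr rfl h3, ← sum_filter, sum_const, nsmul_eq_mul]
    have := card_tail l (T.r i)
    rw [abs_of_nonneg (by positivity)]
    linarith)
  refine (abs_sum_le_sum_abs _ _).trans ((sum_le_sum h1).trans ?_)
  rw [sum_add_distrib, sum_const, card_range, nsmul_eq_mul]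
  have h3 := le_trans (le_abs_self _) h2
  have h4 : (N : ℝ) / l * (2 * T.r i) = N * (2 * T.r i / l) := by ring
  rw [h4] at h3
  linarith

lemma est_three {j : ℕ} {N : ℕ} {d : ℝ} (p : ℤ) (i : ℕ)
    (hd : ∀ a < (lev T u j).len, |∑ n ∈ range N, if n % (lev T u j).len = a then u n else 0| ≤ d) :
    |∑ n ∈ range N, u n * cc T (lev T u j) i (ps p (lev T u j).len n)| ≤
      (lev T u j).len * d := by
  set l := (lev T u j).len with hl
  have hlp : 0 < l := lev_len_pos T u j
  have h1 : ∑ n ∈ range N, u n * cc T (lev T u j) i (ps p l n) =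
      ∑ m ∈ range l, cc T (lev T u j) i m * ∑ n ∈ range N, if ps p l n = m then u n else 0 := by
    simp_rw [mul_sum]
    rw [sum_comm]
    refine sum_congr rfl fun n _ => ?_
    rw [sum_eq_single_of_mem (ps p l n) (mem_range.2 (ps_lt p hlp n))]
    · rw [if_pos rfl, mul_comm]
    · intro m _ hm
      rw [if_neg (Ne.symm hm), mul_zero]
  rw [h1]
  refine (abs_sum_le_sum_abs _ _).trans ?_
  have h2 : ∀ m ∈ range l, |cc T (lev T u j) i m * ∑ n ∈ range N,
      if ps p l n = m then u n else 0| ≤ d := by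
    intro m hm
    rw [abs_mul]
    have hm' := mem_range.1 hm
    have hnn : 0 ≤ ((m : ℤ) + p) % (l : ℤ) := Int.emod_nonneg _ (by omega)
    have hlt : ((m : ℤ) + p) % (l : ℤ) < l := Int.emod_lt_of_pos _ (by omega)
    have h3 : ∀ n : ℕ, ps p l n = m ↔ n % l = (((m : ℤ) + p) % (l : ℤ)).toNat := by
      intro n
      have h4 := ps_cast p hlp n
      have h5 : (ps p l n = m) ↔ ((n : ℤ) - p) % (l : ℤ) = (m : ℤ) % (l : ℤ) := by
        rw [← h4, Int.emod_eq_of_lt (by omega : (0:ℤ) ≤ m) (by omega : (m : ℤ) < l)]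
        omega
      have h6 : (n % l = (((m : ℤ) + p) % (l : ℤ)).toNat) ↔
          (n : ℤ) % (l : ℤ) = ((m : ℤ) + p) % (l : ℤ) := by
        constructor
        · intro h
          have : ((n % l : ℕ) : ℤ) = ((m : ℤ) + p) % (l : ℤ) := by
            rw [h, Int.toNat_of_nonneg hnn]
          rw [← this]; push_cast; rfl
        · intro h
          have : ((n % l : ℕ) : ℤ) = ((m : ℤ) + p) % (l : ℤ) := by
            rw [← h]; push_cast; rfl
          omega
      rw [h5, h6, Int.emod_eq_emod_iff_emod_sub_eq_zero, Int.emod_eq_emod_iff_emod_sub_eq_zero]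
      rw [show (n : ℤ) - p - m = n - (m + p) by ring]
    have h4 : ∑ n ∈ range N, (if ps p l n = m then u n else 0) =
        ∑ n ∈ range N, (if n % l = (((m : ℤ) + p) % (l : ℤ)).toNat then u n else 0) :=
      sum_congr rfl fun n _ => by simp only [h3 n]
    rw [h4]
    have h5 := hd ((((m : ℤ) + p) % (l : ℤ)).toNat) (by omega)
    have hd0 : 0 ≤ d := (abs_nonneg _).trans h5
    calc _ ≤ 1 * d := mul_le_mul (abs_cc_le T _ _ _) h5 (abs_nonneg _) zero_le_one
      _ = d := one_mul _
  refine (sum_le_sum h2).trans ?_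
  simp

end est

end Pool.Agent.Helper245.Sub
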