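import Pool.Agent.Helper245.SubD

/-!
The subshift: closedness, invariance, entropy, uniform estimate.
-/

open Finset Filter Topology

namespace Pool.Agent.Helper245.Sub

attribute [local irreducible] KK RR ee lev

variable (T : Tests) (u : ℕ → ℝ)

/-- points which parse at level `k` -/
def XL (k : ℕ) : Set (ℤ → Bool) := {x | ∃ p, Par T u k x p}

/-- the subshift -/
def XX : Set (ℤ → Bool) := {x | ∀ k, x ∈ XL T u k}

variable {T u}

lemma XL_anti {j k : ℕ} (h : j ≤ k) : XL T u k ⊆ XL T u j := fun _ ⟨p, hp⟩ => ⟨p, par_le h hp⟩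

lemma par_shift {k : ℕ} {x : ℤ → Bool} {p : ℤ} (h : Par T u k x p) (c : ℤ) :
    Par T u k (fun i => x (i + c)) (p - c) := by
  intro a ha
  have h1 := h (a + c) (by
    obtain ⟨d, hd⟩ := ha
    exact ⟨d, by linarith⟩)
  have h2 : blk (fun i => x (i + c)) a (lev T u k).len = blk x (a + c) (lev T u k).len := by
    funext m
    unfold blk
    simp only
    congr 1
    ring
  rw [h2]; exact h1

lemma XL_shift {k : ℕ} {x : ℤ → Bool} (h : x ∈ XL T u k) (c : ℤ) :
    (fun i => x (i + c)) ∈ XL T u k := by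
  obtain ⟨p, hp⟩ := h
  exact ⟨p - c, par_shift hp c⟩

lemma XX_shift {x : ℤ → Bool} (h : x ∈ XX T u) (c : ℤ) : (fun i => x (i + c)) ∈ XX T u :=
  fun k => XL_shift (h k) c

lemma continuous_blk (a : ℤ) (l : ℕ) : Continuous (fun x : ℤ → Bool => blk x a l) := by
  unfold blk
  fun_prop

lemma isClosed_par (k : ℕ) (p : ℤ) : IsClosed {x | Par T u k x p} := by
  have : {x | Par T u k x p} = ⋂ a : ℤ, ⋂ _ : ((lev T u k).len : ℤ) ∣ a - p,
      {x | blk x a (lev T u k).len ∈ (lev T u k).B} := by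
    ext x
    simp [Par]
  rw [this]
  refine isClosed_iInter fun a => isClosed_iInter fun _ => ?_
  exact (isClosed_discrete (((lev T u k).B : Finset _) : Set (Fin (lev T u k).len → Bool))).preimage
    (continuous_blk a _)

lemma isClosed_XL (k : ℕ) : IsClosed (XL T u k) := by
  have hlp := lev_len_pos T u k
  have : XL T u k = ⋃ p ∈ Finset.range (lev T u k).len, {x | Par T u k x (p : ℕ)} := by
    ext x
    simp only [Set.mem_iUnion, Finset.mem_range]
    constructor
    · rintro ⟨p, hp⟩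
      refine ⟨(p % ((lev T u k).len : ℤ)).toNat, ?_, ?_⟩
      · have := Int.emod_lt_of_pos p (by omega : (0:ℤ) < (lev T u k).len)
        have := Int.emod_nonneg p (by omega : ((lev T u k).len : ℤ) ≠ 0)
        omega
      · intro a ha
        apply hp
        rw [Int.toNat_of_nonneg (Int.emod_nonneg _ (by omega))] at ha
        obtain ⟨c, hc⟩ := ha
        have h2 := Int.emod_add_mul_ediv p ((lev T u k).len : ℤ)
        refine ⟨c - p / (lev T u k).len, ?_⟩
        rw [mul_sub]
        linarith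
    · rintro ⟨p, _, hp⟩
      exact ⟨p, hp⟩
  rw [this]
  exact Set.Finite.isClosed_biUnion (Finset.finite_toSet _) fun p _ => isClosed_par k p

lemma isClosed_XX : IsClosed (XX T u) := by
  have : XX T u = ⋂ k, XL T u k := by ext x; simp [XX]
  rw [this]
  exact isClosed_iInter fun k => isClosed_XL k

lemma ee_anti {j k : ℕ} (h : j ≤ k) : ee k ≤ (1 / 2) ^ (j + 2) := by
  unfold ee
  exact pow_le_pow_of_le_one (by norm_num) (by norm_num) (by omega)

lemma len_RR (k : ℕ) : 4 * ((lev T u (k + 2)).len : ℝ) ≤ ee (k + 1) * RR k := by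
  have h1 : ((lev T u (k + 2)).len : ℝ) ≤ 16 ^ ((k + 12) ^ 2) := by
    exact_mod_cast lev_len_le T u (k + 2)
  unfold ee RR
  rw [one_div_pow, one_div, inv_mul_eq_div, le_div_iff₀ (by positivity)]
  push_cast
  have h2 : (2 : ℝ) ^ (k + 1 + 10) ≤ 16 ^ (k + 11) :=
    pow_le_pow_left₀ (by norm_num) (by norm_num) _
  have h3 : (4 : ℝ) ≤ 16 ^ 1 := by norm_num
  calc 4 * ((lev T u (k + 2)).len : ℝ) * 2 ^ (k + 1 + 10)
      ≤ 16 ^ 1 * 16 ^ ((k + 12) ^ 2) * 16 ^ (k + 11) := by gcongr
    _ = 16 ^ (1 + (k + 12) ^ 2 + (k + 11)) :=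
        (fun A : ℕ => (by ring : (16:ℝ) ^ 1 * 16 ^ A * 16 ^ (k + 11) = 16 ^ (1 + A + (k + 11)))) _
    _ ≤ 16 ^ ((k + 14) ^ 2) := by
        refine pow_le_pow_right₀ (by norm_num) ?_
        nlinarith

lemma RR_lt_succ (k : ℕ) : RR k < RR (k + 1) := by
  unfold RR
  exact Nat.pow_lt_pow_right (by norm_num) (Nat.pow_lt_pow_left (by omega) (by norm_num))

lemma RR_strictMono : StrictMono RR := strictMono_nat_of_lt_succ RR_lt_succ

/-- the uniform estimate -/
theorem uniform_est (hu : ∀ n, |u n| ≤ 1)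
    (hap : ∀ q a : ℕ, 0 < q → Tendsto (fun N : ℕ => (∑ n ∈ range N, if n % q = a then u n else 0) / N)
      atTop (𝓝 0)) (i : ℕ) {ε : ℝ} (hε : 0 < ε) :
    ∃ N₀ : ℕ, ∀ N ≥ N₀, ∀ x ∈ XX T u, |∑ n ∈ range N, u n * T.f i (sf x (n : ℤ))| ≤ ε * N := by
  -- choice of the level j
  obtain ⟨j, hj1, hj2, hj3⟩ : ∃ j : ℕ, i < j ∧ (1 / 2 : ℝ) ^ (j + 2) ≤ ε / 8 ∧
      2 * (T.r i : ℝ) / 2 ^ j ≤ ε / 8 := by
    have h1 : Tendsto (fun j : ℕ => (1 / 2 : ℝ) ^ (j + 2)) atTop (𝓝 0) :=
      (tendsto_pow_atTop_nhds_zero_of_lt_one (by norm_num) (by norm_num)).comp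
        (tendsto_add_atTop_nat 2)
    have h2 : Tendsto (fun j : ℕ => 2 * (T.r i : ℝ) / 2 ^ j) atTop (𝓝 0) :=
      Tendsto.div_atTop tendsto_const_nhds (tendsto_pow_atTop_atTop_of_one_lt (by norm_num))
    have h3 := (eventually_gt_atTop i).and ((h1.eventually_le_const (by positivity : (0:ℝ) < ε / 8)).and
      (h2.eventually_le_const (by positivity : (0:ℝ) < ε / 8)))
    exact h3.exists
  set l := (lev T u j).len with hl
  have hlp : 0 < l := lev_len_pos T u j
  have hl' : (0 : ℝ) < l := by exact_mod_cast hlp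
  -- the progressions modulo l
  have h1 : ∀ᶠ N : ℕ in atTop, ∀ a < l, |∑ n ∈ range N, if n % l = a then u n else 0| ≤
      ε / (4 * l) * N := by
    rw [← Nat.cofinite_eq_atTop]
    have : ∀ a ∈ Finset.range l, ∀ᶠ N : ℕ in atTop,
        |∑ n ∈ range N, if n % l = a then u n else 0| ≤ ε / (4 * l) * N := by
      intro a _
      have h2 := (hap l a hlp)
      have h3 := (tendsto_zero_iff_abs_tendsto_zero _).1 h2
      have h4 := h3.eventually_le_const (by positivity : (0:ℝ) < ε / (4 * l))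
      filter_upwards [h4, eventually_gt_atTop 0] with N hN hN0
      have hN0' : (0 : ℝ) < N := by exact_mod_cast hN0
      simp only [Function.comp] at hN
      rw [abs_div, abs_of_pos hN0', div_le_iff₀ hN0'] at hN
      exact hN
    rw [Nat.cofinite_eq_atTop]
    have h2 := (Filter.eventually_all_finset (Finset.range l)).2 this
    filter_upwards [h2] with N hN a ha using hN a (Finset.mem_range.2 ha)
  obtain ⟨N₁, hN₁⟩ := eventually_atTop.1 h1
  obtain ⟨N₂, hN₂⟩ := exists_nat_ge (4 * l * 8 / ε)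
  refine ⟨max (RR j + 1) (max N₁ N₂), fun N hN x hx => ?_⟩
  have hNR : RR j < N := lt_of_lt_of_le (Nat.lt_succ_self _) ((le_max_left _ _).trans hN)
  have hN1 : N₁ ≤ N := ((le_max_left _ _).trans (le_max_right _ _)).trans hN
  have hN2 : N₂ ≤ N := ((le_max_right _ _).trans (le_max_right _ _)).trans hN
  -- choice of the level k + 1
  obtain ⟨k, hjk, hk1, hk2⟩ : ∃ k, j ≤ k ∧ RR k < N ∧ N ≤ RR (k + 1) := by
    have hex : ∃ k, N ≤ RR k := ⟨N, RR_strictMono.id_le N⟩
    classical
    have h2 := Nat.find_spec hex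
    have h3 : j < Nat.find hex := by
      by_contra h
      push Not at h
      have := RR_strictMono.monotone h
      omega
    refine ⟨Nat.find hex - 1, by omega, ?_, ?_⟩
    · have := Nat.find_min hex (m := Nat.find hex - 1) (by omega)
      omega
    · rw [Nat.sub_add_cancel (by omega)]; exact h2
  have hN0 : (0 : ℝ) ≤ N := Nat.cast_nonneg _
  obtain ⟨p, hp⟩ := hx (k + 2)
  have e1 := est_one hu hp (i := i) (by omega) hk2
  have e2 := est_two (T := T) hu (Nat.le_succ_of_le hjk) p i N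
  have e3 := est_three (T := T) (u := u) (j := j) (N := N) p i (hN₁ N hN1)
  have hsplit : ∑ n ∈ range N, u n * T.f i (sf x (n : ℤ)) =
      ∑ n ∈ range N, u n * (T.f i (sf x (n : ℤ)) -
        cc T (lev T u (k + 1)) i (ps p (lev T u (k + 1)).len n)) +
      ∑ n ∈ range N, u n * (cc T (lev T u (k + 1)) i (ps p (lev T u (k + 1)).len n) -
        cc T (lev T u j) i (ps p l n)) +
      ∑ n ∈ range N, u n * cc T (lev T u j) i (ps p l n) := by
    rw [← sum_add_distrib, ← sum_add_distrib]
    exact sum_congr rfl fun n _ => by ring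
  rw [hsplit]
  refine (abs_add_le _ _).trans ((add_le_add_left (abs_add_le _ _) _).trans ?_)
  have b1 : ee (k + 1) ≤ ε / 8 := (ee_anti (by omega)).trans hj2
  have b2 : 2 * (T.r i : ℝ) / (lev T u (k + 1)).len ≤ ε / 8 := by
    refine le_trans ?_ hj3
    have : (2 : ℝ) ^ j ≤ (lev T u (k + 1)).len := by
      have h5 : 2 ^ j ≤ 2 ^ (k + 1) := Nat.pow_le_pow_right (by norm_num) (by omega)
      exact_mod_cast h5.trans (le_lev_len T u (k + 1))
    gcongr
  have b3 : 2 * (T.r i : ℝ) / l ≤ ε / 8 := by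
    refine le_trans ?_ hj3
    have : (2 : ℝ) ^ j ≤ l := by exact_mod_cast le_lev_len T u j
    gcongr
  have b4 : 4 * ((lev T u (k + 2)).len : ℝ) ≤ ε / 8 * N := by
    refine (len_RR k).trans ?_
    have : (RR k : ℝ) ≤ N := by exact_mod_cast hk1.le
    have h6 := (ee_pos (k + 1)).le
    gcongr
  have b5 : 4 * (l : ℝ) ≤ ε / 8 * N := by
    have : 4 * l * 8 / ε ≤ (N : ℝ) := hN₂.trans (by exact_mod_cast hN2)
    rw [div_le_iff₀ hε] at this
    linarith
  have b6 : (l : ℝ) * (ε / (4 * l) * N) = ε / 4 * N := by field_simp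
  rw [b6] at e3
  have c1 : (N : ℝ) * (ee (k + 1) + 2 * T.r i / (lev T u (k + 1)).len) ≤ N * (ε / 8 + ε / 8) := by
    gcongr
  have c2 : (N : ℝ) * ((1 / 2) ^ (j + 2) + 2 * T.r i / l) ≤ N * (ε / 8 + ε / 8) := by
    gcongr
  linarith

/-- words of length `n` of a subshift -/
def words (X : Set (ℤ → Bool)) (n : ℕ) : Set (Fin n → Bool) := {w | ∃ x ∈ X, blk x 0 n = w}

lemma words_mono {X Y : Set (ℤ → Bool)} (h : X ⊆ Y) (n : ℕ) : words X n ⊆ words Y n :=
  fun _ ⟨x, hx, hw⟩ => ⟨x, h hx, hw⟩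

/-- periodic extension -/
def per {L : ℕ} (hL : 0 < L) (w : Fin L → Bool) : ℤ → Bool := fun i =>
  w ⟨(i % (L : ℤ)).toNat, by
    have h1 := Int.emod_lt_of_pos i (by omega : (0:ℤ) < L)
    have h2 := Int.emod_nonneg i (by omega : (L:ℤ) ≠ 0)
    omega⟩

lemma blk_per {L : ℕ} (hL : 0 < L) (w : Fin L → Bool) {a : ℤ} (ha : (L : ℤ) ∣ a) :
    blk (per hL w) a L = w := by
  funext m
  unfold blk per
  congr 1
  apply Fin.ext
  simp only
  obtain ⟨c, rfl⟩ := ha
  have h1 : ((L : ℤ) * c + (m : ℕ)) % (L : ℤ) = (m : ℕ) := by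
    rw [add_comm, Int.add_mul_emod_self_left, Int.emod_eq_of_lt (by omega) (by have := m.2; omega)]
  rw [h1]
  rfl

lemma card_words_XL (hu : ∀ n, |u n| ≤ 1) {k j : ℕ} (hkj : k ≤ j) :
    Real.exp (2 / 5 * (lev T u k).len) ≤ (words (XL T u j) (lev T u k).len).ncard := by
  set l := (lev T u k).len with hl
  have hlp : 0 < l := lev_len_pos T u k
  have hLp := lev_len_pos T u j
  obtain ⟨d, hd⟩ := lev_len_dvd T u hkj
  rw [← hl] at hd
  have hfin : (words (XL T u j) l).Finite := Set.toFinite _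
  have hd0 : 0 < d := by
    rcases Nat.eq_zero_or_pos d with h | h
    · rw [h, mul_zero] at hd; omega
    · exact h
  classical
  -- injection
  have hinj : #(lev T u j).B ≤ ((words (XL T u j) l).ncard) ^ d := by
    set D : Finset (Fin l → Bool) := hfin.toFinset with hD
    have h1 : (words (XL T u j) l).ncard = #D := Set.ncard_eq_toFinset_card _ hfin
    rw [h1]
    have h2 : #(Fintype.piFinset (fun _ : Fin d => D)) = #D ^ d := by
      rw [Fintype.card_piFinset]; simp
    rw [← h2]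
    refine Finset.card_le_card_of_injOn (fun w t => blk (per hLp w) ((t : ℕ) * l) l) ?_ ?_
    · intro w hw
      rw [Finset.mem_coe, Fintype.mem_piFinset]
      intro t
      rw [hD, Set.Finite.mem_toFinset]
      refine ⟨fun i => per hLp w (i + ((t : ℕ) * l : ℤ)), ?_, ?_⟩
      · refine XL_shift ⟨0, fun a ha => ?_⟩ _
        rw [sub_zero] at ha
        rw [blk_per hLp w ha]
        exact hw
      · funext m
        unfold blk
        simp only
        congr 1
        ring
    · intro w _ w' _ h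
      have h3 : blk (per hLp w) 0 (lev T u j).len = blk (per hLp w') 0 (lev T u j).len := by
        funext m
        have hm := m.2
        have h4 : (m : ℕ) / l < d := by
          rw [Nat.div_lt_iff_lt_mul hlp, mul_comm, ← hd]; exact hm
        have h5 := congrFun (congrFun h ⟨(m : ℕ) / l, h4⟩) ⟨(m : ℕ) % l, Nat.mod_lt _ hlp⟩
        unfold blk at h5 ⊢
        simp only at h5
        have h6 : ((((m : ℕ) / l : ℕ) : ℤ) * l + (((m : ℕ) % l : ℕ) : ℤ)) = (0 + ((m : ℕ) : ℤ)) := by
          have := Nat.div_add_mod (m : ℕ) l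
          rw [zero_add]
          nth_rewrite 3 [← this]
          push_cast
          ring
        rw [h6] at h5
        exact h5
      rw [blk_per hLp w (dvd_zero _), blk_per hLp w' (dvd_zero _)] at h3
      exact h3
  have hB := lev_card (T := T) hu j
  have hBp : (0 : ℝ) < #(lev T u j).B := by exact_mod_cast hB.1.card_pos
  have hn0 : (0 : ℝ) < (words (XL T u j) l).ncard := by
    rcases Nat.eq_zero_or_pos ((words (XL T u j) l).ncard) with h | h
    · rw [h, zero_pow hd0.ne'] at hinj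
      have := hB.1.card_pos
      omega
    · exact_mod_cast h
  have h1 : Real.log #(lev T u j).B ≤ d * Real.log ((words (XL T u j) l).ncard) := by
    rw [← Real.log_pow]
    refine Real.log_le_log hBp ?_
    exact_mod_cast hinj
  have h2 : ((lev T u j).len : ℝ) = l * d := by rw [hd]; push_cast; ring
  have hd' : (0 : ℝ) < d := by exact_mod_cast hd0
  have hl' : (0 : ℝ) < l := by exact_mod_cast hlp
  have h3 : 2 / 5 * (l : ℝ) ≤ Real.log ((words (XL T u j) l).ncard) := by
    have h4 := hB.2.trans h1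
    rw [h2] at h4
    have h5 : (0 : ℝ) < (1 / 2) ^ j / 4 := by positivity
    have h6 : (l : ℝ) * d * (2 / 5) ≤ l * d * (2 / 5 + (1 / 2) ^ j / 4) := by
      have : (0 : ℝ) < l * d := by positivity
      nlinarith
    have h7 : (d : ℝ) * (2 / 5 * l) ≤ d * Real.log ((words (XL T u j) l).ncard) := by linarith
    exact le_of_mul_le_mul_left h7 hd'
  rw [← Real.exp_log hn0]
  exact Real.exp_le_exp.2 h3

lemma words_XX {n : ℕ} {w : Fin n → Bool} (h : ∀ k, w ∈ words (XL T u k) n) :
    w ∈ words (XX T u) n := by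
  have h1 : (⋂ k, (XL T u k ∩ {x | blk x 0 n = w})).Nonempty := by
    refine IsCompact.nonempty_iInter_of_sequence_nonempty_isCompact_isClosed _ ?_ ?_ ?_ ?_
    · intro k
      exact Set.inter_subset_inter_left _ (XL_anti (Nat.le_succ k))
    · intro k
      obtain ⟨x, hx, hw⟩ := h k
      exact ⟨x, hx, hw⟩
    · exact ((isClosed_XL 0).inter (isClosed_eq (continuous_blk 0 n) continuous_const)).isCompact
    · intro k
      exact (isClosed_XL k).inter (isClosed_eq (continuous_blk 0 n) continuous_const)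
  obtain ⟨x, hx⟩ := h1
  rw [Set.mem_iInter] at hx
  exact ⟨x, fun k => (hx k).1, (hx 0).2⟩

theorem card_words (hu : ∀ n, |u n| ≤ 1) (k : ℕ) :
    Real.exp (2 / 5 * (lev T u k).len) ≤ (words (XX T u) (lev T u k).len).ncard := by
  classical
  set l := (lev T u k).len with hl
  have h1 : ∀ w : Fin l → Bool, ∃ j : ℕ, w ∉ words (XX T u) l → w ∉ words (XL T u j) l := by
    intro w
    by_cases hw : w ∈ words (XX T u) l
    · exact ⟨0, fun h => absurd hw h⟩
    · have : ¬ ∀ k, w ∈ words (XL T u k) l := fun h => hw (words_XX h)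
      push Not at this
      obtain ⟨j, hj⟩ := this
      exact ⟨j, fun _ => hj⟩
  choose J hJ using h1
  set M := max k (Finset.univ.sup J) with hM
  have h2 : words (XL T u M) l ⊆ words (XX T u) l := by
    intro w hw
    by_contra h
    refine hJ w h (words_mono (XL_anti ?_) l hw)
    exact (Finset.le_sup (Finset.mem_univ w)).trans (le_max_right _ _)
  refine (card_words_XL (T := T) hu (le_max_left k (Finset.univ.sup J))).trans ?_
  exact_mod_cast Set.ncard_le_ncard h2 (Set.toFinite _)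

end Pool.Agent.Helper245.Sub
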