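import Pool.Agent.Helper245.SubE

/-!
Packaging: the subshift theorem, with a common rate on windows, for continuous functions.
-/

open Finset Filter Topology

namespace Pool.Agent.Helper245.Sub

/-- the shift by `c` -/
def sh (c : ℤ) (x : ℤ → Bool) : ℤ → Bool := fun i => x (i + c)

lemma sh_add (c d : ℤ) (x : ℤ → Bool) : sh c (sh d x) = sh (c + d) x := by
  funext i; unfold sh; congr 1; ring

lemma sh_zero (x : ℤ → Bool) : sh 0 x = x := by
  funext i; unfold sh; simp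

/-- indicator of the cylinder of a word -/
noncomputable def ind {r : ℕ} (v : Fin r → Bool) (y : ℕ → Bool) : ℝ :=
  if (∀ i : Fin r, y i = v i) then 1 else 0

lemma exists_tests : ∃ T : Tests, ∀ (r : ℕ) (v : Fin r → Bool), ∃ i, T.f i = ind v := by
  classical
  obtain ⟨e, he⟩ := exists_surjective_nat (Σ r : ℕ, Fin r → Bool)
  refine ⟨⟨fun i => ind (e i).2, fun i => (e i).1, ?_, ?_⟩, ?_⟩
  · intro i y
    unfold ind
    split_ifs <;> simp
  · intro i y y' h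
    unfold ind
    have : (∀ j : Fin (e i).1, y j = (e i).2 j) ↔ (∀ j : Fin (e i).1, y' j = (e i).2 j) := by
      refine forall_congr' fun j => ?_
      rw [h j j.2]
    simp only [this]
  · intro r v
    obtain ⟨i, hi⟩ := he ⟨r, v⟩
    refine ⟨i, ?_⟩
    simp only
    rw [hi]

/-- the subshift theorem, for local functions -/
theorem exists_subshift (u : ℕ → ℝ) (hu : ∀ n, |u n| ≤ 1)
    (hap : ∀ q a : ℕ, 0 < q → Tendsto (fun N : ℕ => (∑ n ∈ range N, if n % q = a then u n else 0) / N)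
      atTop (𝓝 0)) :
    ∃ X : Set (ℤ → Bool), IsClosed X ∧ (∀ x ∈ X, ∀ c, sh c x ∈ X) ∧
      (∀ (r : ℕ) (v : Fin r → Bool) (ε : ℝ), 0 < ε → ∃ N₀ : ℕ, ∀ N ≥ N₀, ∀ x ∈ X,
        |∑ n ∈ range N, u n * ind v (sf x (n : ℤ))| ≤ ε * N) ∧
      ∃ l : ℕ → ℕ, (∀ k, 2 ^ k ≤ l k) ∧
        ∀ k, Real.exp (2 / 5 * l k) ≤ (words X (l k)).ncard := by
  obtain ⟨T, hT⟩ := exists_tests
  refine ⟨XX T u, isClosed_XX, fun x hx c => XX_shift hx c, ?_, fun k => (lev T u k).len,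
    le_lev_len T u, fun k => card_words hu k⟩
  intro r v ε hε
  obtain ⟨i, hi⟩ := hT r v
  rw [← hi]
  exact uniform_est hu hap i hε

/-- diagonal choice -/
lemma diag (P : ℕ → ℕ → Prop) (h : ∀ k, ∀ᶠ N in atTop, P k N) :
    ∃ κ : ℕ → ℕ, Tendsto κ atTop atTop ∧ Monotone κ ∧ ∀ᶠ N in atTop, P (κ N) N := by
  classical
  choose M hM using fun k => eventually_atTop.1 (h k)
  set M' : ℕ → ℕ := fun k => (range (k + 1)).sup M with hM'
  have hle : ∀ k, M k ≤ M' k := fun k => Finset.le_sup (f := M) (self_mem_range_succ k)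
  refine ⟨fun N => Nat.findGreatest (fun k => M' k ≤ N) N, ?_, ?_, ?_⟩
  · rw [tendsto_atTop]
    intro K
    filter_upwards [eventually_ge_atTop (max (M' K) K)] with N hN
    exact Nat.le_findGreatest ((le_max_right _ _).trans hN) ((le_max_left _ _).trans hN)
  · intro a b hab
    exact Nat.findGreatest_mono (fun k hk => le_trans hk hab) hab
  · filter_upwards [eventually_ge_atTop (M' 0)] with N hN
    have h1 : M' (Nat.findGreatest (fun k => M' k ≤ N) N) ≤ N :=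
      Nat.findGreatest_spec (P := fun k => M' k ≤ N) (Nat.zero_le N) hN
    exact hM _ _ ((hle _).trans h1)

lemma sf_sh (x : ℤ → Bool) (c n : ℤ) : sf (sh c x) n = sf x (n + c) := by
  funext i; unfold sf sh; congr 1; ring

/-- continuous functions on the full shift are nearly local -/
lemma nearly_local (Φ : (ℤ → Bool) → ℂ) (hΦ : Continuous Φ) {ε : ℝ} (hε : 0 < ε) :
    ∃ s : ℕ, ∀ x y : ℤ → Bool, (∀ i : ℤ, |i| ≤ s → x i = y i) → ‖Φ x - Φ y‖ ≤ ε := by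
  have h1 : ∀ x : ℤ → Bool, ∃ s : ℕ, ∀ y : ℤ → Bool, (∀ i : ℤ, |i| ≤ s → y i = x i) →
      ‖Φ y - Φ x‖ < ε / 2 := by
    intro x
    have h2 : {y | ‖Φ y - Φ x‖ < ε / 2} ∈ 𝓝 x := by
      have h3 := hΦ.continuousAt (x := x)
      have h4 := Metric.tendsto_nhds.1 h3 (ε / 2) (by positivity)
      filter_upwards [h4] with y hy
      rwa [dist_eq_norm] at hy
    rw [nhds_pi, Filter.mem_pi] at h2
    obtain ⟨I, hI, t, ht, hsub⟩ := h2
    obtain ⟨s, hs⟩ : ∃ s : ℕ, ∀ i ∈ I, |i| ≤ (s : ℤ) := by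
      refine ⟨hI.toFinset.sup (fun i => i.natAbs), fun i hi => ?_⟩
      have := Finset.le_sup (f := fun i : ℤ => i.natAbs) (hI.mem_toFinset.2 hi)
      rw [Int.abs_eq_natAbs]
      exact_mod_cast this
    refine ⟨s, fun y hy => ?_⟩
    apply hsub
    intro i hi
    rw [hy i (hs i hi)]
    exact mem_of_mem_nhds (ht i)
  choose S hS using h1
  have h2 : ∀ x : ℤ → Bool, {y : ℤ → Bool | ∀ i : ℤ, |i| ≤ (S x : ℤ) → y i = x i} ∈ 𝓝 x := by
    intro x
    have h3 : {y : ℤ → Bool | ∀ i : ℤ, |i| ≤ (S x : ℤ) → y i = x i} =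
        ⋂ i ∈ Set.Icc (-(S x : ℤ)) (S x), {y | y i = x i} := by
      ext y
      simp only [Set.mem_iInter, Set.mem_Icc]
      simp [abs_le]
    rw [h3]
    refine (Filter.biInter_mem (Set.finite_Icc _ _)).2 fun i _ => ?_
    have hc : Continuous (fun y : ℤ → Bool => y i) := continuous_apply i
    have h4 : IsOpen ((fun y : ℤ → Bool => y i) ⁻¹' {x i}) :=
      (isOpen_discrete ({x i} : Set Bool)).preimage hc
    exact h4.mem_nhds rfl
  obtain ⟨t, ht⟩ := CompactSpace.elim_nhds_subcover _ h2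
  refine ⟨t.sup S, fun x y hxy => ?_⟩
  have h3 : x ∈ ⋃ z ∈ t, {y : ℤ → Bool | ∀ i : ℤ, |i| ≤ (S z : ℤ) → y i = z i} := by
    rw [ht]; trivial
  simp only [Set.mem_iUnion] at h3
  obtain ⟨z, hz, hxz⟩ := h3
  have hSz : (S z : ℤ) ≤ (t.sup S : ℕ) := by exact_mod_cast Finset.le_sup hz
  have h4 := hS z x hxz
  have h5 := hS z y (fun i hi => by rw [← hxy i (hi.trans hSz)]; exact hxz i hi)
  calc ‖Φ x - Φ y‖ = ‖(Φ x - Φ z) - (Φ y - Φ z)‖ := by congr 1; ring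
    _ ≤ ‖Φ x - Φ z‖ + ‖Φ y - Φ z‖ := norm_sub_le _ _
    _ ≤ ε := by linarith

/-- the word with window `[-s, s]` read on `v` -/
def ew (s : ℕ) (v : Fin (2 * s + 1) → Bool) : ℤ → Bool := fun i =>
  if h : 0 ≤ i + s ∧ i + s < 2 * s + 1 then v ⟨(i + s).toNat, by omega⟩ else false

/-- the window of `x` around `0` -/
def wn (s : ℕ) (x : ℤ → Bool) : Fin (2 * s + 1) → Bool := fun i => x ((i : ℕ) - s : ℤ)

lemma ew_wn (s : ℕ) (x : ℤ → Bool) (i : ℤ) (hi : |i| ≤ s) : ew s (wn s x) i = x i := by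
  rw [abs_le] at hi
  unfold ew wn
  rw [dif_pos ⟨by omega, by omega⟩]
  simp only
  congr 1
  rw [Int.toNat_of_nonneg (by omega)]
  ring

lemma ind_wn (s : ℕ) (x : ℤ → Bool) (v : Fin (2 * s + 1) → Bool) :
    ind v (sf x (-s)) = if wn s x = v then 1 else 0 := by
  unfold ind
  have : (∀ i : Fin (2 * s + 1), sf x (-s) i = v i) ↔ wn s x = v := by
    constructor
    · intro h
      funext i
      rw [← h i]
      unfold wn sf
      congr 1
      ring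
    · intro h i
      rw [← h]
      unfold wn sf
      congr 1
      ring
  simp only [this]

/-- the window form of uniform disjointness, with a common rate -/
theorem exists_rate {u : ℕ → ℝ} (hu : ∀ n, |u n| ≤ 1) {X : Set (ℤ → Bool)}
    (hXs : ∀ x ∈ X, ∀ c, sh c x ∈ X)
    (hX : ∀ (r : ℕ) (v : Fin r → Bool) (ε : ℝ), 0 < ε → ∃ N₀ : ℕ, ∀ N ≥ N₀, ∀ x ∈ X,
        |∑ n ∈ range N, u n * ind v (sf x (n : ℤ))| ≤ ε * N) :
    ∃ b : ℕ → ℝ, (∀ n, 0 < b n) ∧ Tendsto b atTop (𝓝 0) ∧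
      ∀ Φ : (ℤ → Bool) → ℂ, Continuous Φ → ∀ ε > 0, ∃ n₀ : ℕ, ∀ n ≥ n₀, ∀ L : ℕ,
        b n * n ≤ L → ∀ y ∈ X, ‖∑ i ∈ range L, (u (n + i) : ℂ) * Φ (sh (i : ℤ) y)‖ ≤ ε * L := by
  classical
  obtain ⟨e, he⟩ := exists_surjective_nat (Σ r : ℕ, Fin r → Bool)
  obtain ⟨κ, hκ1, hκ2, hκ3⟩ := diag (fun k N => ∀ i ≤ k, ∀ x ∈ X,
      |∑ n ∈ range N, u n * ind (e i).2 (sf x (n : ℤ))| ≤ (1 / 4) ^ k * N) (by
    intro k
    have h1 : ∀ i ∈ range (k + 1), ∀ᶠ N in atTop, ∀ x ∈ X,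
        |∑ n ∈ range N, u n * ind (e i).2 (sf x (n : ℤ))| ≤ (1 / 4) ^ k * N := by
      intro i _
      obtain ⟨N₀, hN₀⟩ := hX (e i).1 (e i).2 ((1 / 4) ^ k) (by positivity)
      exact eventually_atTop.2 ⟨N₀, hN₀⟩
    filter_upwards [(Filter.eventually_all_finset (range (k + 1))).2 h1] with N hN i hi
    exact hN i (by simp; omega))
  refine ⟨fun n => (1 / 2) ^ (κ n), fun n => by positivity,
    (tendsto_pow_atTop_nhds_zero_of_lt_one (by norm_num) (by norm_num)).comp hκ1, ?_⟩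
  -- windows for cylinders
  have hcyl : ∀ (r : ℕ) (v : Fin r → Bool) (δ : ℝ), 0 < δ → ∃ n₀ : ℕ, ∀ n ≥ n₀, ∀ L : ℕ,
      (1 / 2 : ℝ) ^ (κ n) * n ≤ L → ∀ y ∈ X,
        |∑ i ∈ range L, u (n + i) * ind v (sf y (i : ℤ))| ≤ δ * L := by
    intro r v δ hδ
    obtain ⟨i, hi⟩ := he ⟨r, v⟩
    obtain ⟨n₁, hn₁⟩ := eventually_atTop.1 hκ3
    have h2 : Tendsto (fun n => 3 * (1 / 2 : ℝ) ^ (κ n)) atTop (𝓝 0) := by
      have := ((tendsto_pow_atTop_nhds_zero_of_lt_one (r := (1 / 2 : ℝ)) (by norm_num)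
        (by norm_num)).comp hκ1).const_mul 3
      simpa using this
    obtain ⟨n₂, hn₂⟩ := eventually_atTop.1 ((hκ1.eventually_ge_atTop i).and
      (h2.eventually_le_const hδ))
    refine ⟨max n₁ n₂, fun n hn L hL y hy => ?_⟩
    have hn1 : n₁ ≤ n := (le_max_left _ _).trans hn
    obtain ⟨hi1, hi2⟩ := hn₂ n ((le_max_right _ _).trans hn)
    -- z = shift of y by -n
    have hz := hXs y hy (-(n : ℤ))
    set z := sh (-(n : ℤ)) y with hzdef
    have e1 := hn₁ n hn1 i hi1 z hz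
    have e2 := hn₁ (n + L) (by omega) i (hi1.trans (hκ2 (Nat.le_add_right n L))) z hz
    rw [hi] at e1 e2
    simp only at e1 e2
    rw [sum_range_add] at e2
    have h3 : ∑ x ∈ range L, u (n + x) * ind v (sf z ((n + x : ℕ) : ℤ)) =
        ∑ i ∈ range L, u (n + i) * ind v (sf y (i : ℤ)) := by
      refine sum_congr rfl fun j _ => ?_
      rw [hzdef, sf_sh]
      congr 3
      push_cast
      ring
    rw [h3] at e2
    set A := ∑ n ∈ range n, u n * ind v (sf z (n : ℤ)) with hA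
    set B := ∑ i ∈ range L, u (n + i) * ind v (sf y (i : ℤ)) with hB
    have h4 : |B| ≤ (1 / 4) ^ (κ n) * n + (1 / 4) ^ (κ (n + L)) * ((n + L : ℕ) : ℝ) := by
      have : B = (A + B) - A := by ring
      rw [this]
      refine (abs_sub _ _).trans ?_
      linarith
    have h5 : (1 / 4 : ℝ) ^ (κ (n + L)) ≤ (1 / 4) ^ (κ n) :=
      pow_le_pow_of_le_one (by norm_num) (by norm_num) (hκ2 (Nat.le_add_right n L))
    have h6 : (1 / 4 : ℝ) ^ (κ n) = (1 / 2) ^ (κ n) * (1 / 2) ^ (κ n) := by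
      rw [← mul_pow]; norm_num
    have h7 : (0 : ℝ) < (1 / 2) ^ (κ n) := by positivity
    have h8 : (1 / 2 : ℝ) ^ (κ n) ≤ 1 := pow_le_one₀ (by norm_num) (by norm_num)
    push_cast at h4
    have hL0 : (0 : ℝ) ≤ L := Nat.cast_nonneg _
    have hn0 : (0 : ℝ) ≤ n := Nat.cast_nonneg _
    have h9 : (1 / 4 : ℝ) ^ (κ (n + L)) * ((n : ℝ) + L) ≤ (1 / 4) ^ (κ n) * (n + L) := by gcongr
    have h10 : |B| ≤ (1 / 4) ^ (κ n) * n + (1 / 4) ^ (κ n) * (n + L) := h4.trans (by linarith)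
    have h11 : (1 / 4 : ℝ) ^ (κ n) * n ≤ (1 / 2) ^ (κ n) * L := by
      rw [h6, mul_assoc]; gcongr
    have h12 : (1 / 4 : ℝ) ^ (κ n) * L ≤ (1 / 2) ^ (κ n) * L := by
      rw [h6]
      have : (1 / 2 : ℝ) ^ (κ n) * (1 / 2) ^ (κ n) ≤ (1 / 2) ^ (κ n) * 1 := by gcongr
      rw [mul_one] at this
      gcongr
    calc |B| ≤ 3 * (1 / 2) ^ (κ n) * L := by linarith
      _ ≤ δ * L := by gcongr
  -- continuous functions
  intro Φ hΦ ε hε
  obtain ⟨s, hs⟩ := nearly_local Φ hΦ (by positivity : (0:ℝ) < ε / 2)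
  set C : ℝ := ∑ v : Fin (2 * s + 1) → Bool, ‖Φ (ew s v)‖ with hC
  have hC0 : 0 ≤ C := sum_nonneg fun _ _ => norm_nonneg _
  set δ : ℝ := ε / (2 * (C + 1)) with hδ
  have hδ0 : 0 < δ := by positivity
  choose n₀ hn₀ using fun v : Fin (2 * s + 1) → Bool => hcyl (2 * s + 1) v δ hδ0
  refine ⟨Finset.univ.sup n₀, fun n hn L hL y hy => ?_⟩
  have hsplit : ∑ i ∈ range L, (u (n + i) : ℂ) * Φ (sh (i : ℤ) y) =
      ∑ i ∈ range L, (u (n + i) : ℂ) * (Φ (sh (i : ℤ) y) - Φ (ew s (wn s (sh (i : ℤ) y)))) +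
      ∑ v : Fin (2 * s + 1) → Bool, Φ (ew s v) *
        ((∑ i ∈ range L, u (n + i) * ind v (sf (sh (-(s : ℤ)) y) (i : ℤ)) : ℝ) : ℂ) := by
    have h1 : ∑ v : Fin (2 * s + 1) → Bool, Φ (ew s v) *
        ((∑ i ∈ range L, u (n + i) * ind v (sf (sh (-(s : ℤ)) y) (i : ℤ)) : ℝ) : ℂ) =
        ∑ i ∈ range L, (u (n + i) : ℂ) * Φ (ew s (wn s (sh (i : ℤ) y))) := by
      simp_rw [Complex.ofReal_sum, mul_sum]
      rw [sum_comm]
      refine sum_congr rfl fun i _ => ?_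
      rw [sum_eq_single_of_mem (wn s (sh (i : ℤ) y)) (mem_univ _)]
      · rw [sf_sh]
        have h2 : sf y ((i : ℤ) + -(s : ℤ)) = sf (sh (i : ℤ) y) (-s) := by
          rw [sf_sh]; congr 1; ring
        rw [h2, ind_wn, if_pos rfl]
        push_cast
        ring
      · intro v _ hv
        rw [sf_sh]
        have h2 : sf y ((i : ℤ) + -(s : ℤ)) = sf (sh (i : ℤ) y) (-s) := by
          rw [sf_sh]; congr 1; ring
        rw [h2, ind_wn, if_neg (Ne.symm hv)]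
        simp
    rw [h1, ← sum_add_distrib]
    exact sum_congr rfl fun i _ => by ring
  rw [hsplit]
  refine (norm_add_le _ _).trans ?_
  have hL0 : (0 : ℝ) ≤ L := Nat.cast_nonneg _
  have p1 : ‖∑ i ∈ range L, (u (n + i) : ℂ) *
      (Φ (sh (i : ℤ) y) - Φ (ew s (wn s (sh (i : ℤ) y))))‖ ≤ ε / 2 * L := by
    refine (norm_sum_le _ _).trans ?_
    have : ∀ i ∈ range L, ‖(u (n + i) : ℂ) *
      (Φ (sh (i : ℤ) y) - Φ (ew s (wn s (sh (i : ℤ) y))))‖ ≤ ε / 2 := by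
      intro i _
      rw [norm_mul, Complex.norm_real]
      have h1 := hs (sh (i : ℤ) y) (ew s (wn s (sh (i : ℤ) y)))
        (fun j hj => (ew_wn s _ j hj).symm)
      calc _ ≤ 1 * (ε / 2) := mul_le_mul (hu _) h1 (norm_nonneg _) zero_le_one
        _ = ε / 2 := one_mul _
    refine (sum_le_sum this).trans ?_
    simp [mul_comm]
  have p2 : ‖∑ v : Fin (2 * s + 1) → Bool, Φ (ew s v) *
        ((∑ i ∈ range L, u (n + i) * ind v (sf (sh (-(s : ℤ)) y) (i : ℤ)) : ℝ) : ℂ)‖ ≤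
      ε / 2 * L := by
    refine (norm_sum_le _ _).trans ?_
    have h1 : ∀ v ∈ (Finset.univ : Finset (Fin (2 * s + 1) → Bool)), ‖Φ (ew s v) *
        ((∑ i ∈ range L, u (n + i) * ind v (sf (sh (-(s : ℤ)) y) (i : ℤ)) : ℝ) : ℂ)‖ ≤
        ‖Φ (ew s v)‖ * (δ * L) := by
      intro v _
      rw [norm_mul, Complex.norm_real]
      refine mul_le_mul_of_nonneg_left ?_ (norm_nonneg _)
      exact hn₀ v n ((Finset.le_sup (mem_univ v)).trans hn) L hL _ (hXs y hy _)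
    refine (sum_le_sum h1).trans ?_
    rw [← sum_mul, ← hC, hδ]
    have h2 : C * (ε / (2 * (C + 1)) * L) = (C / (C + 1)) * (ε / 2 * L) := by
      field_simp
    rw [h2]
    have h3 : C / (C + 1) ≤ 1 := by
      rw [div_le_one (by positivity)]; linarith
    have h4 : 0 ≤ ε / 2 * L := by positivity
    nlinarith
  linarith

end Pool.Agent.Helper245.Sub
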